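import Pool.Agent.Lib.MP_d1f1b2_pr.GHP

open Set Filter MeasureTheory Metric ProbabilityTheory
open scoped ENNReal Topology BoundedContinuousFunction

namespace Pool.Agent.Lib.MP_d1f1b2_pr

variable {Ω : Type*} {mΩ : MeasurableSpace Ω} {P : Measure Ω} {h : Sq → Ω → ℝ} {Q : ℝ}

theorem main_prob' (hG : IsGaussianProcess h P) (hmean : ∀ S, ∫ ω, h S ω ∂P = 0)
    (hcov : ∀ S T, cov[h S, h T; P] = gffCov S T) (hQ : 0 < Q) (hQ2 : Q < 2) :
    (∀ᵐ ω ∂P, Gd Q fun S => h S ω) ∧ (∃ κ : ℝ≥0∞, κ ≠ 0 ∧ ∀ K, ∃ L, ∀ T : ℕ, ∃ l ≤ -(T : ℝ),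
      κ ≤ P {ω | ∃ N, Bad K L (DD Q (fun S => h S ω) l) ⟨N, 0, 0⟩}) ∧
      (Q ^ 2 < 2 → ∃ κ : ℝ≥0∞, κ ≠ 0 ∧ ∀ T : ℕ, ∃ l ≤ -(T : ℝ), κ ≤ P {ω | ∃ N,
      tile (DD Q (fun S => h S ω) l) ⟨N, 0, 0⟩ ∧ InfDeg (DD Q (fun S => h S ω) l) ⟨N, 0, 0⟩}) := by
  have hae : ∀ S, h S =ᵐ[P] (hG.aemeasurable S).mk _ := fun S => (hG.aemeasurable S).ae_eq_mk
  have hh : CG (fun S => (hG.aemeasurable S).mk _) P gffCov :=
    ⟨hG.congr hae, fun S => (hG.aemeasurable S).measurable_mk,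
      fun S => (integral_congr_ae (hae S)).symm.trans (hmean S), fun S T => by
        rw [← hcov]
        unfold covariance
        rw [integral_congr_ae (hae S), integral_congr_ae (hae T)]
        refine integral_congr_ae ?_
        filter_upwards [hae S, hae T] with ω h1 h2
        rw [h1, h2]⟩
  have hall : ∀ᵐ ω ∂P, (fun S => h S ω) = fun S => (hG.aemeasurable S).mk _ ω := by
    filter_upwards [ae_all_iff.2 hae] with ω hω
    exact funext hω
  refine ⟨?_, ?_, fun hQ3 => ?_⟩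
  · filter_upwards [hall, ae_Gd hh hQ] with ω h1 h2
    rwa [h1]
  · obtain ⟨κ, h0, hκ⟩ := main_prob hh hQ hQ2
    refine ⟨κ, h0, fun K => (hκ K).imp fun L hL T => (hL T).imp fun l hl =>
      ⟨hl.1, hl.2.trans (measure_mono_ae ?_)⟩⟩
    filter_upwards [hall] with ω h1 h2
    change ∃ N, Bad K L (DD Q (fun S => h S ω) l) ⟨N, 0, 0⟩
    rw [h1]; exact h2
  · obtain ⟨κ, h0, hκ⟩ := main_prob_line hh hQ hQ3
    refine ⟨κ, h0, fun T => (hκ T).imp fun l hl => ⟨hl.1, hl.2.trans (measure_mono_ae ?_)⟩⟩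
    filter_upwards [hall] with ω h1 h2
    change ∃ N, tile (DD Q (fun S => h S ω) l) ⟨N, 0, 0⟩ ∧
      InfDeg (DD Q (fun S => h S ω) l) ⟨N, 0, 0⟩
    rw [h1]; exact h2

theorem exists_T {p : ℝ → Prop} (hp : ∀ᶠ ε in 𝓝[>] 0, p ε) :
    ∃ T : ℕ, ∀ l ≤ -(T : ℝ), p (Real.exp l) := by
  have := Real.tendsto_exp_atBot_nhdsGT.eventually hp
  obtain ⟨b, hb⟩ := eventually_atBot.1 this
  obtain ⟨T, hT⟩ := exists_nat_ge (-b)
  exact ⟨T, fun l hl => hb l (by linarith)⟩

theorem final [IsProbabilityMeasure P] (hQ : 0 < Q) (hQ2 : Q < 2)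
    (hG : IsGaussianProcess h P) (hmean : ∀ S, ∫ ω, h S ω ∂P = 0)
    (hcov : ∀ S T, cov[h S, h T; P] = gffCov S T) (ρ : ℝ → Ω → Sq)
    (hρ : ∀ ε > 0, ∀ᵐ ω ∂P, IsTile Q ε (fun S => h S ω) (ρ ε ω) ∧ 0 ∈ (ρ ε ω).carrier)
    (a b : ℝ → ℝ) (ha : ∀ ε, 0 < a ε) (hb : ∀ ε, 0 < b ε)
    (Y : ℝ → Ω → BCMM) (hY : ∀ ε, Measurable (Y ε))
    (hclose : ∀ η > 0, Tendsto (fun ε => P {ω | ¬ Close η
      (rescaled (tiling Q ε fun S => h S ω) (ρ ε ω) (a ε) (b ε) (ha ε)) (Y ε ω).toPMM})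
      (𝓝[>] 0) (𝓝 0))
    (ν : Measure BCMM) [IsProbabilityMeasure ν]
    (hconv : ∀ F : BCMM →ᵇ ℝ, Tendsto (fun ε => ∫ ω, F (Y ε ω) ∂P) (𝓝[>] 0) (𝓝 (∫ A, F A ∂ν))) :
    (∃ δ > 0, (∃ᶠ ε in 𝓝[>] 0, δ ≤ a ε) ∧ ∀ᵐ A ∂ν, ∀ x y : A.X, x ≠ y → δ ≤ dist x y) ∧
      (Q ^ 2 < 2 → ∀ᵐ A ∂ν, Subsingleton A.X) := by
  have hint : ∀ (F : BCMM →ᵇ ℝ) ε, Integrable (fun ω => F (Y ε ω)) P := fun F ε =>
    Integrable.of_bound (F.continuous.measurable.comp (hY ε)).aestronglyMeasurable ‖F‖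
      (ae_of_all _ fun ω => F.norm_coe_le_norm _)
  have hreal : ∀ η > 0, ∀ c > 0, ∀ᶠ ε in 𝓝[>] 0, P.real {ω | ¬ Close η
      (rescaled (tiling Q ε fun S => h S ω) (ρ ε ω) (a ε) (b ε) (ha ε)) (Y ε ω).toPMM} < c :=
    fun η hη c hc => by
      have := (ENNReal.tendsto_toReal ENNReal.zero_ne_top).comp (hclose η hη)
      exact this.eventually (gt_mem_nhds hc)
  have step1 : ∃ δ > 0, ∃ᶠ ε in 𝓝[>] 0, δ ≤ a ε := by
    by_contra hc
    simp only [not_exists, not_and, not_frequently, not_le] at hc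
    obtain ⟨hGd, ⟨κ, hκ0, hκ⟩, -⟩ := main_prob' hG hmean hcov hQ hQ2
    have hκt : κ ≠ ∞ := by
      obtain ⟨L, hL⟩ := hκ 0
      obtain ⟨l, -, hl⟩ := hL 0
      exact ne_top_of_le_ne_top (measure_ne_top _ _) hl
    have hk : 0 < κ.toReal := ENNReal.toReal_pos hκ0 hκt
    obtain ⟨K, hK⟩ := ((int_tendsto (R := 4) (a := 100) ν).eventually
      (gt_mem_nhds (show 0 < κ.toReal / 4 by linarith))).exists
    obtain ⟨L, hL⟩ := hκ K
    obtain ⟨T, hT⟩ := exists_T (((hconv (TFb K 4 100)).eventually (gt_mem_nhds hK)).and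
      ((hreal 4⁻¹ (by norm_num) (κ.toReal / 4) (by linarith)).and
        (hc ((L : ℝ) + 3)⁻¹ (by positivity))))
    obtain ⟨l, hl, hl'⟩ := hL T
    obtain ⟨e1, e2, e3⟩ := hT l hl
    set ε := Real.exp l with hε
    have hε0 : 0 < ε := Real.exp_pos l
    have hlog : Real.log ε = l := Real.log_exp l
    have haL : a ε * (L + 3) ≤ 1 := by
      rw [← le_div_iff₀ (by positivity), one_div]; exact e3.le
    have hsub : {ω | ∃ N, Bad K L (DD Q (fun S => h S ω) l) ⟨N, 0, 0⟩} ≤ᵐ[P]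
        (({ω | 2⁻¹ ≤ TFb K 4 100 (Y ε ω)} ∪ {ω | ¬ Close 4⁻¹
          (rescaled (tiling Q ε fun S => h S ω) (ρ ε ω) (a ε) (b ε) (ha ε))
            (Y ε ω).toPMM} : Set Ω)) := by
      filter_upwards [hGd, hρ ε hε0] with ω hg hr ⟨N, hN, hB⟩
      by_cases hcl : Close 4⁻¹ (rescaled (tiling Q ε fun S => h S ω) (ρ ε ω) (a ε) (b ε) (ha ε))
        (Y ε ω).toPMM
      swap
      · exact Or.inr hcl
      left
      have hadj := tiling_adj (Q := Q) hε0 fun S => h S ω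
      rw [isTile_iff hε0] at hr
      rw [hlog] at hadj hr
      have h2 := root_near (hg.top' l) (hg.down l) hN hr.1 hr.2
      rcases hB with hB | hB
      · have c1 := le_TF le_rfl (cfg_of_ends hadj h2 hB (b := b ε) (ha ε) haL)
        have c2 := TF_close (K := K) (R := 4) (a := 100) hcl (by norm_num) (by norm_num)
        change 2⁻¹ ≤ TF K 4 100 _
        linarith
      · refine absurd hcl (not_close_of_inf hadj h2 hB (ha ε) (hb ε) (by norm_num) ?_ _)
        have := ha ε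
        have : (0 : ℝ) ≤ L := Nat.cast_nonneg _
        norm_num
        nlinarith
    have b1 := ENNReal.toReal_mono (measure_ne_top _ _) (hl'.trans (measure_mono_ae hsub))
    have b2 := b1.trans (measureReal_union_le _ _)
    have b3 := mul_meas_ge_le_integral_of_nonneg (μ := P) (f := fun ω => TFb K 4 100 (Y ε ω))
      (ae_of_all _ fun ω => TF_nonneg _) (hint _ ε) 2⁻¹
    linarith
  suffices hdisc : ∀ δ, (∃ᶠ ε in 𝓝[>] 0, δ ≤ a ε) →
      ∀ᵐ A ∂ν, ∀ x y : A.X, x ≠ y → δ ≤ dist x y by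
    obtain ⟨δ, hδ, hfr⟩ := step1
    refine ⟨⟨δ, hδ, hfr, hdisc δ hfr⟩, fun hQ3 => ?_⟩
    have hall : ∀ n : ℕ, ∃ᶠ ε in 𝓝[>] 0, (n : ℝ) ≤ a ε := fun n => by
      by_contra hc
      simp only [not_frequently, not_le] at hc
      obtain ⟨hGd, -, hκ⟩ := main_prob' hG hmean hcov hQ hQ2
      obtain ⟨κ, hκ0, hκ⟩ := hκ hQ3
      obtain ⟨T, hT⟩ := exists_T (((hclose (3 * (n : ℝ) + 1)⁻¹ (by positivity)).eventually
        (gt_mem_nhds (pos_iff_ne_zero.2 hκ0))).and hc)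
      obtain ⟨l, hl, hl'⟩ := hκ T
      obtain ⟨e1, e2⟩ := hT l hl
      have hε0 := Real.exp_pos l
      refine e1.not_ge (hl'.trans (measure_mono_ae ?_))
      filter_upwards [hGd, hρ _ hε0] with ω hg hr ⟨N, hN, hB⟩
      have hadj := tiling_adj (Q := Q) hε0 fun S => h S ω
      rw [isTile_iff hε0] at hr
      rw [Real.log_exp] at hadj hr
      exact not_close_of_inf hadj (root_near (hg.top' l) (hg.down l) hN hr.1 hr.2) hB (ha _)
        (hb _) (by positivity) (by rw [inv_inv]; linarith) _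
    filter_upwards [ae_all_iff.2 fun n : ℕ => hdisc n (hall n)] with A hA
    refine ⟨fun x y => ?_⟩
    by_contra hxy
    obtain ⟨n, hn⟩ := exists_nat_gt (dist x y)
    exact hn.not_ge (hA n x y hxy)
  intro δ hfr
  have step2 : ∀ R : ℕ, ∀ᵐ A ∂ν, TF 2 R δ A.toPMM = 0 := fun R => by
    have : ∫ A, TFb 2 R δ A ∂ν ≤ 0 := by
      refine le_of_forall_pos_le_add fun c hc => ?_
      have hp : 0 < min (c / 3) ((R : ℝ) + 1)⁻¹ := lt_min (by linarith) (by positivity)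
      set η := min (c / 3) ((R : ℝ) + 1)⁻¹ with hη
      have hR : (R : ℝ) ≤ η⁻¹ := le_trans (by linarith : (R : ℝ) ≤ R + 1)
        ((le_inv_comm₀ (by positivity) hp).2 (min_le_right _ _))
      have hc3 : η ≤ c / 3 := min_le_left _ _
      refine le_of_tendsto_of_frequently (hconv _) ((hfr.and_eventually
        (hreal η hp (c / 3) (by linarith))).mono fun ε ⟨e1, e2⟩ => ?_)
      have hm : MeasurableSet {ω | 2 * η < TFb 2 R δ (Y ε ω)} :=
        measurableSet_lt measurable_const ((TFb 2 R δ).continuous.measurable.comp (hY ε))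
      have b1 : ∫ ω, TFb 2 R δ (Y ε ω) ∂P ≤
          ∫ ω, (2 * η + indicator {ω | 2 * η < TFb 2 R δ (Y ε ω)} 1 ω) ∂P := by
        refine integral_mono (hint _ ε) ((integrable_const _).add
          ((integrable_const 1).indicator hm)) fun ω => ?_
        by_cases hω : 2 * η < TFb 2 R δ (Y ε ω)
        · simp only [indicator_of_mem (show ω ∈ {ω | 2 * η < TFb 2 R δ (Y ε ω)} from hω),
            Pi.one_apply]
          linarith [TF_le_one (K := 2) (R := R) (a := δ) (Y ε ω).toPMM,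
            TFb_apply (K := 2) (R := R) (a := δ) (Y ε ω)]
        · simp only [indicator_of_notMem (show ω ∉ {ω | 2 * η < TFb 2 R δ (Y ε ω)} from hω)]
          linarith
      rw [integral_add (integrable_const _) ((integrable_const 1).indicator hm),
        integral_indicator_one hm] at b1
      simp only [integral_const, probReal_univ, smul_eq_mul, one_mul] at b1
      have b2 : P.real {ω | 2 * η < TFb 2 R δ (Y ε ω)} ≤ P.real {ω | ¬ Close η
          (rescaled (tiling Q ε fun S => h S ω) (ρ ε ω) (a ε) (b ε) (ha ε)) (Y ε ω).toPMM} := by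
        refine measureReal_mono fun ω hω hcl => ?_
        have c1 := TF_close (K := 2) (R := R) (a := δ) hcl.symm hp hR
        have c2 := TF_disc (G := tiling Q ε fun S => h S ω) (ρ := ρ ε ω) (b := b ε) (R := R)
          (ha ε) e1
        have : 2 * η < TF 2 R δ (Y ε ω).toPMM := hω
        linarith
      linarith
    exact (integral_eq_zero_iff_of_nonneg (fun A => TF_nonneg _)
      ((TFb 2 R δ).integrable ν)).1 (le_antisymm this (integral_nonneg fun A => TF_nonneg _))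
  filter_upwards [ae_all_iff.2 step2] with A hA x y hxy
  by_contra hc
  obtain ⟨R, hR⟩ := exists_nat_ge (max (dist x A.root) (dist y A.root) + 1)
  have hd := dist_pos.2 hxy
  have hp : 0 < min 1 (min (dist x y) (δ - dist x y)) :=
    lt_min one_pos (lt_min hd (by linarith))
  have m1 := min_le_left 1 (min (dist x y) (δ - dist x y))
  have m2 := (min_le_right 1 _).trans (min_le_left (dist x y) (δ - dist x y))
  have m3 := (min_le_right 1 _).trans (min_le_right (dist x y) (δ - dist x y))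
  have := le_TF (K := 2) (R := R) (a := δ) (A := A.toPMM) m1 ⟨![x, y], fun i => by
    have := le_max_left (dist x A.root) (dist y A.root)
    have := le_max_right (dist x A.root) (dist y A.root)
    fin_cases i <;> simp <;> linarith, fun i j hij => by
    fin_cases i <;> fin_cases j <;> simp [dist_comm y x] at hij ⊢ <;> linarith⟩
  linarith [hA R]

end Pool.Agent.Lib.MP_d1f1b2_pr
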