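import Pool.Agent.Lib.MP_d1f1b2_pr.CaseB

open Set Filter MeasureTheory ProbabilityTheory Real
open scoped ENNReal Topology

namespace Pool.Agent.Lib.MP_d1f1b2_pr

variable {Ω : Type*} {mΩ : MeasurableSpace Ω} {P : Measure Ω} {h : Sq → Ω → ℝ} {Q : ℝ}

theorem meas_DD (Q : ℝ) : Measurable fun p : (Sq → ℝ) × ℝ => DD Q p.1 p.2 :=
  measurable_pi_lambda _ fun S => measurableSet_setOfPred.1
    (measurableSet_le (by unfold lm; fun_prop) measurable_snd)

def EV (Q : ℝ) (h : Sq → Ω → ℝ) (B : (Sq → Prop) → Prop) : Set (Ω × ℝ) :=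
  {p | B (DD Q (fun S => h S p.1) p.2)}

theorem meas_EV (hh : CG h P gffCov) {B : (Sq → Prop) → Prop} (hB : Measurable B) :
    MeasurableSet (EV Q h B) :=
  measurableSet_setOfPred.2 (hB.comp ((meas_DD Q).comp
    ((hh.measPi.comp measurable_fst).prodMk measurable_snd)))

theorem CG_sc (hh : CG h P gffCov) (n : ℤ) :
    CG (fun S ω => h (sc n S) ω - h (sc n O) ω) P
      fun S T => kk S T - kk S O - kk O T + kk O O := by
  convert hh.incr (sc n) (sc n O) using 3 with S T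
  simp only [gffCov_eq, kk_sc]
  ring

theorem EV_sc (hh : CG h P gffCov) {B : (Sq → Prop) → Prop} (hB : Measurable B) (n : ℤ) :
    P.prod volume (EV Q h fun D => B (D ∘ sc n)) = P.prod volume (EV Q h B) := by
  have hΦ : Measurable fun y : Sq → ℝ => volume {u | B (DD Q y u)} :=
    measurable_measure_prodMk_left (s := {p : (Sq → ℝ) × ℝ | B (DD Q p.1 p.2)})
      (measurableSet_setOfPred.2 (hB.comp (meas_DD Q)))
  have key : ∀ n : ℤ, P.prod volume (EV Q h fun D => B (D ∘ sc n)) =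
      ∫⁻ ω, volume {u | B (DD Q (fun S => h (sc n S) ω - h (sc n O) ω) u)} ∂P := fun n => by
    rw [Measure.prod_apply (meas_EV hh (B := fun D => B (D ∘ sc n))
      (hB.comp (measurable_pi_lambda _ fun S => meas_apply _)))]
    refine lintegral_congr fun ω => ?_
    rw [← measure_preimage_add_right volume (-(h (sc n O) ω - Q * (n * log 2)))
      {u | B (DD Q (fun S => h (sc n S) ω - h (sc n O) ω) u)}]
    congr 1
    ext u
    simp only [EV, mem_preimage, mem_ofPred_eq]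
    refine iff_of_eq (congrArg B (funext fun S => propext ?_))
    have hn : (sc n S).n = S.n + n := rfl
    simp only [Function.comp, DD, lm, hn]
    push_cast
    constructor <;> intro <;> linarith
  have := key 0
  simp only [show sc 0 = id from funext sc_zero, Function.comp_id] at this
  rw [key n, this]
  simpa using (CG_sc hh n).lint_eq (CG_sc hh 0) hΦ

theorem sc_O (n : ℤ) : sc n O = ⟨n, 0, 0⟩ := by simp [sc, O]

theorem meas_inf (ρ : Sq) : Measurable fun D : Sq → Prop => ∀ K, ∃ L, Bad K L D ρ :=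
  Measurable.forall fun K => Measurable.exists fun L => meas_Bad K L ρ

theorem gamma_inf (hh : CG h P gffCov) (hQ : 0 < Q) {U : Sq} {σ : Bool × Bool} {C : ℝ}
    (h1 : P {ω | SE Q C (onSide σ) fun p => h (sub U p.1 p.2.1 p.2.2) ω - h U ω} ≠ 0) :
    P.prod volume (EV Q h fun D => tile D O ∧ InfDeg D O) ≠ 0 := by
  have := hh.prob
  have inv := EV_sc (Q := Q) hh ((meas_tile O).and (meas_InfDeg O)) 4
  simp only [tile_sc, InfDeg_sc, sc_O] at inv
  intro h0
  rw [← inv, Measure.measure_prod_null (meas_EV hh ((meas_tile _).and (meas_InfDeg _)))] at h0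
  refine caseB hh hQ h1 (measure_eq_zero_iff_ae_notMem.2 ?_)
  filter_upwards [h0, ae_Gd hh hQ] with ω h2 hG hF
  have : volume (Ico (lm Q (fun S => h S ω) R0) (lm Q (fun S => h S ω) R0 + 1)) = 0 :=
    measure_mono_null (t := Prod.mk ω ⁻¹' EV Q h fun D => tile D ⟨4, 0, 0⟩ ∧ InfDeg D ⟨4, 0, 0⟩)
      (fun u hu => bad_of_Fam hG hF hu.1 hu.2) h2
  simp at this

theorem gamma_pos (hh : CG h P gffCov) (hQ : 0 < Q) (hQ2 : Q < 2) :
    P.prod volume (EV Q h fun D => ∀ K, ∃ L, Bad K L D O) ≠ 0 := by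
  have := hh.prob
  have inv : ∀ n : ℤ, P.prod volume (EV Q h fun D => ∀ K, ∃ L, Bad K L D ⟨n, 0, 0⟩) =
      P.prod volume (EV Q h fun D => ∀ K, ∃ L, Bad K L D O) := fun n => by
    rw [← EV_sc hh (meas_inf O) n]
    simp only [Bad_sc, sc_O]
  intro h0
  by_cases hc : ∀ l, P {ω | ¬ LF (DD Q (fun S => h S ω) l)} = 0
  · have h1 : P.prod volume (EV Q h fun D => ∃ N, ∀ K, ∃ L, Bad K L D ⟨N, 0, 0⟩) = 0 := by
      refine measure_mono_null (t := ⋃ N : ℤ, EV Q h fun D => ∀ K, ∃ L, Bad K L D ⟨N, 0, 0⟩)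
        (fun p hp => mem_iUnion.2 hp) (measure_iUnion_null fun N => (inv N).trans h0)
    have hm := meas_EV (Q := Q) hh (Measurable.exists fun N : ℤ => meas_inf ⟨N, 0, 0⟩)
    rw [Measure.prod_apply_symm hm, lintegral_eq_zero_iff (measurable_measure_prodMk_right hm)]
      at h1
    obtain ⟨l, hl⟩ := h1.exists
    exact caseA hh hQ hQ2 l (hc l) hl
  · simp only [not_forall] at hc
    obtain ⟨l, hl⟩ := hc
    obtain ⟨U, σ, C, hσ⟩ := se_of_not_LF l hl
    refine gamma_inf hh hQ hσ (measure_mono_null (fun p hp => ?_) h0)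
    exact fun K => ⟨0, hp.1, Or.inr hp.2⟩

theorem tendsto_ee {η : ℝ} (hη : 0 < η) (B : ℝ) :
    Tendsto (fun n : ℕ => ee (-η * n + B)) atTop (𝓝 0) := by
  have : Tendsto (fun n : ℕ => Real.exp (-η * n + B)) atTop (𝓝 0) :=
    Real.tendsto_exp_atBot.comp (tendsto_atBot_add_const_right _ _
      (tendsto_natCast_atTop_atTop.const_mul_atTop_of_neg (by linarith)))
  simpa [ee] using ENNReal.tendsto_ofReal this

theorem var_corner (n : ℕ) : gffCov ⟨n, 0, 0⟩ ⟨n, 0, 0⟩ ≤ n * log 2 + 3 * log 2 := by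
  have := var_le (S := ⟨n, 0, 0⟩) (y := 2) one_le_two (by
    refine (norm_center_le _).trans ?_
    have : (⟨n, 0, 0⟩ : Sq).side ≤ 1 := zpow_le_one_of_nonpos₀ one_le_two (by simp)
    simpa using this)
  simp only [Int.cast_natCast] at this
  linarith

theorem ofReal_le_ee {x θ : ℝ} (hθ : 0 < θ) : ENNReal.ofReal x ≤ ee (θ * x - log θ) := by
  refine ENNReal.ofReal_le_ofReal ?_
  rw [Real.exp_sub, Real.exp_log hθ, le_div_iff₀ hθ]
  linarith [Real.add_one_le_exp (θ * x)]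

theorem tile_corner {D : Sq → Prop} {n n' : ℤ} (h1 : tile D ⟨n, 0, 0⟩) (h2 : tile D ⟨n', 0, 0⟩) :
    n = n' := by
  obtain ⟨k, hk⟩ := Int.le.dest (le_max_left n n')
  obtain ⟨k', hk'⟩ := Int.le.dest (le_max_right n n')
  have e1 : anc ⟨max n n', 0, 0⟩ k = ⟨n, 0, 0⟩ := by apply Sq.ext' <;> simp [anc]; omega
  have e2 : anc ⟨max n n', 0, 0⟩ k' = ⟨n', 0, 0⟩ := by apply Sq.ext' <;> simp [anc]; omega
  have := tile_unique (e1 ▸ h1) (e2 ▸ h2)
  omega

theorem window (hh : CG h P gffCov) (hQ : 0 < Q) (hQ2 : Q < 2) {B : (Sq → Prop) → Sq → Prop}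
    (hBt : ∀ D ρ, B D ρ → tile D ρ) (T : ℕ) {n n1 : ℕ}
    (h1 : n1 ≤ n) (h2 : n + 1 ≤ 2 * n1) :
    P.prod volume (EV Q h fun D => B D ⟨(n + 1 : ℕ), 0, 0⟩) ≤
      P.prod volume ((EV Q h fun D => B D ⟨(n + 1 : ℕ), 0, 0⟩) ∩
        univ ×ˢ Icc (-(6 * n1 : ℝ)) (-T)) +
      (ee (-(Q ^ 2 * log 2 / 2) * n1 + (Q ^ 2 * (3 * log 2) / 2 + Q * T - log Q)) +
        ee (-1 * n1 + 2)) := by
  have := hh.prob
  have hm := hh.meas
  have hL := log2pos
  have hL1 : log 2 ≤ 1 := by linarith [Real.log_two_lt_d9]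
  have hsub : (EV Q h fun D => B D ⟨(n + 1 : ℕ), 0, 0⟩) ⊆
      ((EV Q h fun D => B D ⟨(n + 1 : ℕ), 0, 0⟩) ∩ univ ×ˢ Icc (-(6 * n1 : ℝ)) (-T)) ∪
      ({p | p.2 ∈ Ioo (-T : ℝ) (h ⟨n, 0, 0⟩ p.1 - Q * (n * log 2))} ∪
       {p | p.2 ∈ Ico (h ⟨(n + 1 : ℕ), 0, 0⟩ p.1 - Q * ((n + 1 : ℕ) * log 2)) (-(6 * n1 : ℝ))}) := by
    intro p hp
    by_cases c1 : -(T : ℝ) < p.2
    · refine Or.inr (Or.inl ⟨c1, ?_⟩)
      have := (hBt _ _ hp).2 0
      have e : anc ⟨(n + 1 : ℕ), 0, 0⟩ (0 + 1) = ⟨n, 0, 0⟩ := by apply Sq.ext' <;> simp [anc]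
      rw [e] at this
      simpa only [DD, lm, not_le, Int.cast_natCast] using this
    by_cases c2 : p.2 < -(6 * n1 : ℝ)
    · refine Or.inr (Or.inr ⟨?_, c2⟩)
      simpa [DD, lm] using (hBt _ _ hp).1
    · exact Or.inl ⟨hp, trivial, not_lt.1 c2, not_lt.1 c1⟩
  refine (measure_mono hsub).trans ((measure_union_le _ _).trans (add_le_add le_rfl
    ((measure_union_le _ _).trans (add_le_add ?_ ?_))))
  · rw [Measure.prod_apply (by
      exact (measurableSet_lt measurable_const measurable_snd).inter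
        (measurableSet_lt measurable_snd (by fun_prop)))]
    calc _ ≤ ∫⁻ ω, ee (Q * h ⟨n, 0, 0⟩ ω + (Q * (-Q * (n * log 2) + T) - log Q)) ∂P := by
          refine lintegral_mono fun ω => ?_
          refine (le_of_eq (Real.volume_Ioo (a := -T)
            (b := h ⟨n, 0, 0⟩ ω - Q * (n * log 2)))).trans ((ofReal_le_ee hQ).trans (ee_mono ?_))
          linarith
      _ ≤ _ := by
          rw [hh.mgf1']
          refine ee_mono ?_
          have a := mul_le_mul_of_nonneg_left (var_corner n) (sq_nonneg Q)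
          have b : (n1 : ℝ) ≤ n := by exact_mod_cast h1
          have c := mul_le_mul_of_nonneg_left b (show 0 ≤ Q ^ 2 * log 2 by positivity)
          nlinarith
  · rw [Measure.prod_apply (by
      exact (measurableSet_le (by fun_prop) measurable_snd).inter
        (measurableSet_lt measurable_snd measurable_const))]
    calc _ ≤ ∫⁻ ω, ee (-1 * h ⟨(n + 1 : ℕ), 0, 0⟩ ω +
          (Q * ((n + 1 : ℕ) * log 2) - 6 * n1)) ∂P := by
          refine lintegral_mono fun ω => ?_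
          refine (le_of_eq (Real.volume_Ico (b := -(6 * n1 : ℝ))
            (a := h ⟨(n + 1 : ℕ), 0, 0⟩ ω - Q * ((n + 1 : ℕ) * log 2)))).trans
            ((ofReal_le_ee one_pos).trans (ee_mono ?_))
          rw [log_one]; linarith
      _ ≤ _ := by
          rw [hh.mgf1']
          refine ee_mono ?_
          have a := var_corner (n + 1)
          have b : ((n + 1 : ℕ) : ℝ) ≤ 2 * n1 := by exact_mod_cast h2
          have b0 : (0 : ℝ) ≤ (n + 1 : ℕ) := Nat.cast_nonneg _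
          have c : ((n + 1 : ℕ) : ℝ) * log 2 ≤ 2 * n1 := by nlinarith
          have c0 : 0 ≤ ((n + 1 : ℕ) : ℝ) * log 2 := by positivity
          nlinarith

theorem avg_gen (hh : CG h P gffCov) (hQ : 0 < Q) (hQ2 : Q < 2) {B : (Sq → Prop) → Sq → Prop}
    (hBm : ∀ ρ, Measurable fun D => B D ρ) (hBs : ∀ m D ρ, B (D ∘ sc m) ρ ↔ B D (sc m ρ))
    (hBt : ∀ D ρ, B D ρ → tile D ρ) {g : ℝ≥0∞} (hg0 : 0 < g)
    (hLg : g < P.prod volume (EV Q h fun D => B D O)) (T : ℕ) :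
    ∃ l ≤ -(T : ℝ), g / 24 ≤ P {ω | ∃ N, B (DD Q (fun S => h S ω) l) ⟨N, 0, 0⟩} := by
  have := hh.prob
  have hL := log2pos
  have hgt : g ≠ ∞ := ne_top_of_lt hLg
  by_contra hc
  simp only [not_exists, not_and, not_le] at hc
  have hg4 : 0 < g / 4 := ENNReal.div_pos hg0.ne' (by simp)
  obtain ⟨n1, e1, e2, e3⟩ := (((tendsto_ee (η := Q ^ 2 * log 2 / 2) (by positivity)
    (Q ^ 2 * (3 * log 2) / 2 + Q * T - log Q)).eventually (ge_mem_nhds hg4)).and
    (((tendsto_ee one_pos 2).eventually (ge_mem_nhds hg4)).and (eventually_ge_atTop 1))).exists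
  set Wd : Set (Ω × ℝ) := univ ×ˢ Icc (-(6 * n1 : ℝ)) (-T) with hWd
  have hWm : MeasurableSet Wd := MeasurableSet.univ.prod measurableSet_Icc
  have a1 : ∀ n ∈ Finset.Ico n1 (2 * n1), g / 2 ≤
      P.prod volume ((EV Q h fun D => B D ⟨(n + 1 : ℕ), 0, 0⟩) ∩ Wd) := fun n hn => by
    rw [Finset.mem_Ico] at hn
    have b1 := window hh hQ hQ2 hBt T hn.1 hn.2
    have b2 := EV_sc (Q := Q) hh (hBm O) (n + 1 : ℕ)
    simp only [hBs, sc_O] at b2
    rw [b2] at b1
    have b3 : g / 2 + g / 2 ≤ P.prod volume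
        ((EV Q h fun D => B D ⟨(n + 1 : ℕ), 0, 0⟩) ∩ Wd) + g / 2 := by
      rw [ENNReal.add_halves]
      refine hLg.le.trans (b1.trans (add_le_add le_rfl ((add_le_add e1 e2).trans (le_of_eq ?_))))
      rw [← two_mul, show (4 : ℝ≥0∞) = 2 * 2 by norm_num, ← mul_div_assoc,
        ENNReal.mul_div_mul_left _ _ (by simp) (by simp)]
    exact ENNReal.le_of_add_le_add_right (ENNReal.div_ne_top hgt two_ne_zero) b3
  have a2 := Finset.sum_le_sum a1
  rw [← measure_biUnion_finset (fun n _ n' _ hne => Set.disjoint_left.2 fun p hp hp' =>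
      hne (by have := tile_corner (hBt _ _ hp.1) (hBt _ _ hp'.1); omega))
    (fun n _ => (meas_EV hh (hBm _)).inter hWm), Finset.sum_const, Nat.card_Ico,
    show 2 * n1 - n1 = n1 by omega, nsmul_eq_mul] at a2
  have hm := (meas_EV (Q := Q) hh
    (Measurable.exists fun N : ℤ => hBm ⟨N, 0, 0⟩)).inter hWm
  have a3 : P.prod volume ((EV Q h fun D => ∃ N, B D ⟨N, 0, 0⟩) ∩ Wd) ≤
      g / 24 * (6 * n1) := by
    rw [Measure.prod_apply_symm hm]
    calc _ ≤ ∫⁻ l, (Icc (-(6 * n1 : ℝ)) (-T)).indicator (fun _ => g / 24) l := by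
          refine lintegral_mono fun l => ?_
          by_cases hl : l ∈ Icc (-(6 * n1 : ℝ)) (-T)
          · rw [indicator_of_mem hl]
            exact (measure_mono fun ω hω => hω.1).trans (hc l hl.2).le
          · rw [indicator_of_notMem hl]
            exact le_of_eq (measure_mono_null (fun ω hω => (hl hω.2.2).elim) measure_empty)
      _ ≤ _ := by
          rw [lintegral_indicator_const measurableSet_Icc, Real.volume_Icc]
          gcongr
          refine ENNReal.ofReal_le_of_le_toReal ?_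
          simp
  have a4 : (n1 : ℝ≥0∞) * (g / 2) ≤ g / 24 * (6 * n1) := by
    refine a2.trans (le_trans (measure_mono ?_) a3)
    refine iUnion₂_subset fun n _ p hp => ?_
    exact ⟨⟨_, hp.1⟩, hp.2⟩
  lift g to NNReal using hgt
  have a5 := ENNReal.toReal_mono (by finiteness) a4
  simp only [ENNReal.toReal_mul, ENNReal.toReal_div, ENNReal.toReal_natCast, ENNReal.coe_toReal,
    ENNReal.toReal_ofNat] at a5
  have : (0 : ℝ) < g := by exact_mod_cast hg0
  have : (1 : ℝ) ≤ n1 := by exact_mod_cast e3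
  nlinarith

theorem main_prob (hh : CG h P gffCov) (hQ : 0 < Q) (hQ2 : Q < 2) :
    ∃ κ : ℝ≥0∞, κ ≠ 0 ∧ ∀ K, ∃ L, ∀ T : ℕ, ∃ l ≤ -(T : ℝ),
      κ ≤ P {ω | ∃ N, Bad K L (DD Q (fun S => h S ω) l) ⟨N, 0, 0⟩} := by
  obtain ⟨g, hg0, hg⟩ := exists_between (pos_iff_ne_zero.2 (gamma_pos hh hQ hQ2))
  refine ⟨g / 24, (ENNReal.div_pos hg0.ne' (by simp)).ne', fun K => ?_⟩
  have hmono : Monotone fun L => EV Q h fun D => Bad K L D O := fun L L' hL p hp => Bad.mono hp hL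
  have h1 : g < ⨆ L, P.prod volume (EV Q h fun D => Bad K L D O) := by
    rw [← hmono.measure_iUnion]
    exact hg.trans_le (measure_mono fun p hp => mem_iUnion.2 (hp K))
  obtain ⟨L, hLg⟩ := lt_iSup_iff.1 h1
  exact ⟨L, avg_gen hh hQ hQ2 (B := Bad K L) (meas_Bad K L) (fun _ _ _ => Bad_sc)
    (fun _ _ h => h.1) hg0 hLg⟩

theorem main_prob_line (hh : CG h P gffCov) (hQ : 0 < Q) (hQ2 : Q ^ 2 < 2) :
    ∃ κ : ℝ≥0∞, κ ≠ 0 ∧ ∀ T : ℕ, ∃ l ≤ -(T : ℝ), κ ≤ P {ω | ∃ N,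
      tile (DD Q (fun S => h S ω) l) ⟨N, 0, 0⟩ ∧ InfDeg (DD Q (fun S => h S ω) l) ⟨N, 0, 0⟩} := by
  obtain ⟨C, hC⟩ := second_moment_line (CG_incr hh O) hQ hQ2
  obtain ⟨g, hg0, hg⟩ := exists_between (pos_iff_ne_zero.2 (gamma_inf hh hQ hC))
  exact ⟨g / 24, (ENNReal.div_pos hg0.ne' (by simp)).ne', avg_gen hh hQ (by nlinarith)
    (B := fun D ρ => tile D ρ ∧ InfDeg D ρ) (fun ρ => (meas_tile ρ).and (meas_InfDeg ρ))
    (fun _ _ _ => and_congr tile_sc InfDeg_sc) (fun _ _ h => h.1) hg0 hg⟩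

end Pool.Agent.Lib.MP_d1f1b2_pr
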