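import Pool.Agent.Lib.MP_d1f1b2_pr.Det

open Set Filter Real Metric

namespace Pool.Agent.Lib.MP_d1f1b2_pr

noncomputable def kc (r1 r2 : ℝ) (v1 v2 : ℂ) : ℝ :=
  -circleAverage (fun z => log (max r2 ‖z - v2‖)) v1 r1

noncomputable def rad (S : Sq) : ℝ := S.side / 2

noncomputable def kk (S T : Sq) : ℝ := kc (rad S) (rad T) S.center T.center

noncomputable def cc (S : Sq) : ℝ := circleAverage (fun z => log (max ‖z‖ 1)) S.center (rad S)

theorem rad_pos (S : Sq) : 0 < rad S := half_pos (side_pos S)

theorem avg_log {R : ℝ} (hR : 0 < R) (c a : ℂ) :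
    circleAverage (fun z => log ‖z - a‖) c R = log (max R ‖c - a‖) := by
  rw [circleAverage_log_norm_sub_const_eq_log_radius_add_posLog hR.ne',
    posLog_eq_log_max_one (by positivity), ← log_mul hR.ne' (by positivity), mul_max_of_nonneg _ _ hR.le,
    mul_one, ← mul_assoc, mul_inv_cancel₀ hR.ne', one_mul]

theorem cont_logmax {r : ℝ} (hr : 0 < r) (v : ℂ) : Continuous fun z : ℂ => log (max r ‖z - v‖) :=
  Continuous.log (by fun_prop) fun z => (lt_max_of_lt_left hr).ne'

theorem cont_logmax1 : Continuous fun z : ℂ => log (max ‖z‖ 1) :=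
  Continuous.log (by fun_prop) fun z => (lt_max_of_lt_right one_pos).ne'

theorem ci {f : ℂ → ℝ} (hf : Continuous f) (c : ℂ) (R : ℝ) : CircleIntegrable f c R :=
  hf.continuousOn.circleIntegrable'

theorem inner_avg (z : ℂ) (T : Sq) :
    circleAverage (fun w => green z w) T.center (rad T) =
      log (max ‖z‖ 1) + cc T - log (max (rad T) ‖z - T.center‖) := by
  have h1 : circleAverage (fun w => green z w) T.center (rad T) =
      circleAverage (fun w => log (max ‖z‖ 1) + log (max ‖w‖ 1) - log ‖w - z‖) T.center
        (rad T) := by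
    apply circleAverage_congr_codiscreteWithin _ (rad_pos T).ne'
    have : ({z}ᶜ : Set ℂ) ∈ codiscreteWithin (sphere T.center |rad T|) :=
      compl_singleton_mem_codiscreteWithin _
    filter_upwards [this] with w hw
    have hw' : ‖z - w‖ ≠ 0 := by
      rw [norm_ne_zero_iff, sub_ne_zero]; exact fun h => hw h.symm
    rw [green, log_div (by positivity) hw', log_mul (by positivity) (by positivity), norm_sub_rev]
  rw [h1, circleAverage_fun_sub (ci (continuous_const.fun_add cont_logmax1) _ _)
    (circleIntegrable_log_norm_sub_const _), circleAverage_fun_add (ci continuous_const _ _)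
    (ci cont_logmax1 _ _), circleAverage_const, avg_log (rad_pos T), norm_sub_rev]
  rfl

theorem gffCov_eq (S T : Sq) : gffCov S T = cc S + cc T + kk S T := by
  have : gffCov S T = circleAverage (fun z => log (max ‖z‖ 1) + cc T -
      log (max (rad T) ‖z - T.center‖)) S.center (rad S) := by
    unfold gffCov
    congr 1
    ext z
    exact inner_avg z T
  rw [this, circleAverage_fun_sub (ci (cont_logmax1.fun_add continuous_const) _ _)
    (ci (cont_logmax (rad_pos T) _) _ _), circleAverage_fun_add (ci cont_logmax1 _ _)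
    (ci continuous_const _ _), circleAverage_const]
  rfl

theorem le_avg {f : ℂ → ℝ} (hf : Continuous f) {c : ℂ} {R a : ℝ}
    (h : ∀ x ∈ sphere c |R|, a ≤ f x) : a ≤ circleAverage f c R := by
  rw [← circleAverage_const a c R]
  exact circleAverage_mono (ci continuous_const _ _) (ci hf _ _) h

theorem kk_le {S T : Sq} {x : ℝ} (hx : 0 < x)
    (h : x ≤ rad S ∨ x ≤ rad T ∨ x ≤ ‖S.center - T.center‖) : kk S T ≤ -log x := by
  unfold kk kc
  rw [neg_le_neg_iff]
  have key : log (max (rad S) ‖S.center - T.center‖) ≤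
      circleAverage (fun z => log (max (rad T) ‖z - T.center‖)) S.center (rad S) := by
    rw [← avg_log (rad_pos S)]
    have e : circleAverage (fun z => log ‖z - T.center‖) S.center (rad S) =
        circleAverage (fun z => if z = T.center then log (rad T) else log ‖z - T.center‖)
          S.center (rad S) := by
      apply circleAverage_congr_codiscreteWithin _ (rad_pos S).ne'
      have : ({T.center}ᶜ : Set ℂ) ∈ codiscreteWithin (sphere S.center |rad S|) :=
        compl_singleton_mem_codiscreteWithin _
      filter_upwards [this] with w hw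
      rw [if_neg (show w ≠ T.center from hw)]
    rw [e]
    refine circleAverage_mono ?_ (ci (cont_logmax (rad_pos T) _) _ _) fun z _ => ?_
    · refine (circleIntegrable_log_norm_sub_const (a := T.center) _).congr_codiscreteWithin ?_
      have : ({T.center}ᶜ : Set ℂ) ∈ codiscreteWithin (sphere S.center |rad S|) :=
        compl_singleton_mem_codiscreteWithin _
      filter_upwards [this] with w hw
      rw [if_neg (show w ≠ T.center from hw)]
    · split
      · exact log_le_log (rad_pos T) (le_max_left _ _)
      · rename_i hz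
        exact log_le_log (norm_pos_iff.2 (sub_ne_zero.2 hz)) (le_max_right _ _)
  rcases h with h | h | h
  · exact (log_le_log hx (h.trans (le_max_left _ _))).trans key
  · exact le_avg (cont_logmax (rad_pos T) _) fun z _ => log_le_log hx (h.trans (le_max_left _ _))
  · exact (log_le_log hx (h.trans (le_max_right _ _))).trans key

theorem le_kk {S T : Sq} {y : ℝ} (hT : rad T ≤ y) (h : rad S + ‖S.center - T.center‖ ≤ y) :
    -log y ≤ kk S T := by
  unfold kk kc
  rw [neg_le_neg_iff]
  refine circleAverage_mono_on_of_le_circle (ci (cont_logmax (rad_pos T) _) _ _) fun z hz => ?_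
  refine log_le_log (lt_max_of_lt_left (rad_pos T)) (max_le hT ?_)
  rw [mem_sphere_iff_norm, abs_of_pos (rad_pos S)] at hz
  calc ‖z - T.center‖ ≤ ‖z - S.center‖ + ‖S.center - T.center‖ := norm_sub_le_norm_sub_add_norm_sub _ _ _
    _ ≤ y := by rw [hz]; exact h

theorem cc_nonneg (S : Sq) : 0 ≤ cc S :=
  le_avg cont_logmax1 fun _ _ => log_nonneg (le_max_right _ _)

theorem cc_le {S : Sq} {y : ℝ} (h1 : 1 ≤ y) (h : ‖S.center‖ + rad S ≤ y) : cc S ≤ log y := by
  refine circleAverage_mono_on_of_le_circle (ci cont_logmax1 _ _) fun z hz => ?_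
  refine log_le_log (lt_max_of_lt_right one_pos) (max_le ?_ h1)
  rw [mem_sphere_iff_norm, abs_of_pos (rad_pos S)] at hz
  calc ‖z‖ ≤ ‖S.center‖ + ‖z - S.center‖ := norm_le_norm_add_norm_sub' _ _
    _ ≤ y := by rw [hz]; exact h

theorem kc_scale {r1 r2 l : ℝ} (h2 : 0 < r2) (hl : 0 < l) {v1 v2 v1' v2' : ℂ}
    (h : v1' - v2' = l * (v1 - v2)) : kc (l * r1) (l * r2) v1' v2' = kc r1 r2 v1 v2 - log l := by
  unfold kc
  rw [circleAverage_eq_circleAverage_zero_one, circleAverage_eq_circleAverage_zero_one (c := v1)]
  have : (fun z : ℂ => log (max (l * r2) ‖((l * r1 : ℝ) : ℂ) * z + v1' - v2'‖)) =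
      fun z : ℂ => log l + log (max r2 ‖(r1 : ℂ) * z + v1 - v2‖) := by
    ext z
    have : ((l * r1 : ℝ) : ℂ) * z + v1' - v2' = l * (r1 * z + v1 - v2) := by
      push_cast; rw [add_sub_assoc, h]; ring
    rw [this, norm_mul, Complex.norm_real, norm_of_nonneg hl.le, ← mul_max_of_nonneg _ _ hl.le,
      log_mul hl.ne' (lt_max_of_lt_left h2).ne']
  rw [this, circleAverage_fun_add (ci continuous_const _ _) (ci (Continuous.log (by fun_prop)
    fun z => (lt_max_of_lt_left h2).ne') _ _), circleAverage_const]
  ring

theorem kk_sc (m : ℤ) (S T : Sq) : kk (sc m S) (sc m T) = kk S T - log (2 ^ (-m)) := by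
  unfold kk rad
  rw [side_sc, side_sc, mul_div_assoc, mul_div_assoc]
  refine kc_scale (half_pos (side_pos T)) (zpow_pos two_pos _) ?_
  apply Complex.ext
  · rw [Complex.re_ofReal_mul]; simp only [Sq.center, side_sc, Complex.sub_re]; simp only [sc]; ring
  · rw [Complex.im_ofReal_mul]; simp only [Sq.center, side_sc, Complex.sub_im]; simp only [sc]; ring

def O : Sq := ⟨0, 0, 0⟩

theorem side_sub (W : Sq) (m : ℕ) (a b : ℤ) : W.side = 2 ^ m * (sub W m a b).side :=
  side_of_n (by simp [sub])

theorem side_O : O.side = 1 := by simp [O, Sq.side]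

theorem side_sub' (W : Sq) (m : ℕ) (a b : ℤ) :
    (sub W m a b).side = W.side * (sub O m a b).side := by
  have h1 := side_sub W m a b
  have h2 := side_sub O m a b
  rw [side_O] at h2
  rw [h1]
  linear_combination (sub W m a b).side * h2

theorem kk_sub (W : Sq) (m m' : ℕ) (a b a' b' : ℤ) :
    kk (sub W m a b) (sub W m' a' b') = kk (sub O m a b) (sub O m' a' b') - log W.side := by
  unfold kk rad
  rw [side_sub' W m, side_sub' W m', mul_div_assoc, mul_div_assoc]
  refine kc_scale (half_pos (side_pos _)) (side_pos W) ?_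
  have h2 := side_sub O m a b
  have h3 := side_sub O m' a' b'
  rw [side_O] at h2 h3
  apply Complex.ext
  · rw [Complex.re_ofReal_mul]
    simp only [Sq.center, side_sub' W, Complex.sub_re]
    generalize (sub O m a b).side = s at *
    generalize (sub O m' a' b').side = s' at *
    simp only [sub, O]
    push_cast
    linear_combination (W.i * W.side) * (h3 - h2)
  · rw [Complex.im_ofReal_mul]
    simp only [Sq.center, side_sub' W, Complex.sub_im]
    generalize (sub O m a b).side = s at *
    generalize (sub O m' a' b').side = s' at *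
    simp only [sub, O]
    push_cast
    linear_combination (W.j * W.side) * (h3 - h2)

theorem log_side (S : Sq) : log S.side = -S.n * log 2 := by
  rw [Sq.side, log_zpow]; push_cast; ring

theorem log_rad (S : Sq) : log (rad S) = -S.n * log 2 - log 2 := by
  rw [rad, log_div (side_pos S).ne' two_ne_zero, log_side]

theorem center_mem (S : Sq) : S.center ∈ S.carrier := by
  have := side_pos S
  refine ⟨?_, ?_, ?_, ?_⟩ <;> simp only [Sq.center] <;> nlinarith

theorem norm_sub_center {T : Sq} {z : ℂ} (h : z ∈ T.carrier) : ‖z - T.center‖ ≤ T.side := by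
  obtain ⟨h1, h2, h3, h4⟩ := h
  refine (Complex.norm_le_abs_re_add_abs_im _).trans ?_
  have a1 : |(z - T.center).re| ≤ T.side / 2 := by
    rw [abs_le]; simp only [Sq.center, Complex.sub_re]; constructor <;> linarith
  have a2 : |(z - T.center).im| ≤ T.side / 2 := by
    rw [abs_le]; simp only [Sq.center, Complex.sub_im]; constructor <;> linarith
  linarith

theorem norm_center_anc (S : Sq) (k : ℕ) : ‖S.center - (anc S k).center‖ ≤ (anc S k).side :=
  norm_sub_center (carrier_sub_anc S k (center_mem S))

theorem side_le_anc (S : Sq) (k : ℕ) : S.side ≤ (anc S k).side := by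
  rw [side_anc]
  exact le_mul_of_one_le_left (side_pos S).le (one_le_pow₀ one_le_two)

theorem log_two_mul_side (S : Sq) : log (2 * S.side) = -S.n * log 2 + log 2 := by
  rw [log_mul two_ne_zero (side_pos S).ne', log_side]; ring

theorem kk_anc (S : Sq) (k : ℕ) : |kk S (anc S k) - (anc S k).n * log 2| ≤ log 2 := by
  have h1 := kk_le (S := S) (T := anc S k) (rad_pos (anc S k)) (Or.inr (Or.inl le_rfl))
  have h2 := le_kk (S := S) (T := anc S k) (y := 2 * (anc S k).side)
    (by have := side_pos (anc S k); unfold rad; linarith)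
    (by have := norm_center_anc S k; have := side_le_anc S k; have := side_pos S
        unfold rad; linarith)
  rw [log_rad] at h1
  rw [log_two_mul_side] at h2
  rw [abs_le]; constructor <;> linarith

theorem kk_anc' (S : Sq) (k : ℕ) : |kk (anc S k) S - (anc S k).n * log 2| ≤ log 2 := by
  have h1 := kk_le (S := anc S k) (T := S) (rad_pos (anc S k)) (Or.inl le_rfl)
  have h2 := le_kk (S := anc S k) (T := S) (y := 2 * (anc S k).side)
    (by have := side_le_anc S k; have := side_pos S; unfold rad; linarith)
    (by have := norm_center_anc S k; have := side_pos (anc S k)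
        rw [norm_sub_rev]; unfold rad; linarith)
  rw [log_rad] at h1
  rw [log_two_mul_side] at h2
  rw [abs_le]; constructor <;> linarith

/-- covariance of increments inside the unit square -/
noncomputable def ci0 (p q : ℕ × ℤ × ℤ) : ℝ :=
  kk (sub O p.1 p.2.1 p.2.2) (sub O q.1 q.2.1 q.2.2) - kk (sub O p.1 p.2.1 p.2.2) O -
    kk O (sub O q.1 q.2.1 q.2.2) + kk O O

theorem ci0_near {m m' : ℕ} {a b a' b' : ℤ} (h : In m a b) (h' : In m' a' b') :
    |ci0 (m, a, b) (m', a', b') - kk (sub O m a b) (sub O m' a' b')| ≤ 3 * log 2 := by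
  have h1 := kk_anc (sub O m a b) m
  have h2 := kk_anc' (sub O m' a' b') m'
  have h3 := kk_anc O 0
  rw [anc_sub_self _ h] at h1
  rw [anc_sub_self _ h'] at h2
  rw [anc_zero] at h3
  have : O.n = 0 := rfl
  simp only [this, Int.cast_zero, zero_mul, sub_zero] at h1 h2 h3
  simp only [ci0]
  rw [abs_le] at *
  constructor <;> linarith

theorem sub_O_n (m : ℕ) (a b : ℤ) : (sub O m a b).n = m := by simp [sub, O]

theorem H1 {m k : ℕ} {a b : ℤ} (h : In m a b) (hk : k ≤ m) :
    |ci0 (m, a, b) (m - k, a / 2 ^ k, b / 2 ^ k) - (m - k : ℕ) * log 2| ≤ 4 * log 2 := by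
  have h1 := ci0_near h (h.div hk)
  have h2 := kk_anc (sub O m a b) k
  rw [anc_sub _ hk, sub_O_n, Int.cast_natCast] at h2
  rw [abs_le] at *
  constructor <;> linarith

theorem center_diff (m : ℕ) (a b a' b' : ℤ) :
    ((sub O m a b).center - (sub O m a' b').center).re = (a - a') * (sub O m a b).side ∧
    ((sub O m a b).center - (sub O m a' b').center).im = (b - b') * (sub O m a b).side := by
  have : (sub O m a' b').side = (sub O m a b).side := rfl
  simp only [Sq.center, Complex.sub_re, Complex.sub_im, this]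
  generalize (sub O m a b).side = s
  simp only [sub, O]
  push_cast
  constructor <;> ring

theorem H2 {m k : ℕ} {a b a' b' : ℤ} (h : In m a b) (h' : In m a' b') (hk : k ≤ m)
    (hs : k = 0 ∨ 2 ^ k ≤ 2 * |a - a'| ∨ 2 ^ k ≤ 2 * |b - b'|) :
    ci0 (m, a, b) (m, a', b') ≤ (m - k : ℕ) * log 2 + 4 * log 2 := by
  have h1 := ci0_near h h'
  have hs0 := side_pos (sub O m a b)
  obtain ⟨c1, c2⟩ := center_diff m a b a' b'
  have h2 := kk_le (S := sub O m a b) (T := sub O m a' b') (rad_pos (anc (sub O m a b) k)) (by
    rcases hs with rfl | hs | hs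
    · left; simp
    · right; right
      refine le_trans ?_ (Complex.abs_re_le_norm _)
      rw [c1, abs_mul, abs_of_pos hs0, rad, side_anc]
      have : (2 : ℝ) ^ k ≤ 2 * |(a : ℝ) - a'| := by exact_mod_cast hs
      nlinarith
    · right; right
      refine le_trans ?_ (Complex.abs_im_le_norm _)
      rw [c2, abs_mul, abs_of_pos hs0, rad, side_anc]
      have : (2 : ℝ) ^ k ≤ 2 * |(b : ℝ) - b'| := by exact_mod_cast hs
      nlinarith)
  rw [log_rad, anc_sub _ hk, sub_O_n, Int.cast_natCast] at h2
  rw [abs_le] at h1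
  linarith

theorem H3 {m k : ℕ} {a b a' b' : ℤ} (h : In m a b) (h' : In m a' b') (hk : k ≤ m)
    (ha : |a - a'| ≤ 2 ^ k) (hb : |b - b'| ≤ 2 ^ k) :
    (m - k : ℕ) * log 2 - 5 * log 2 ≤ ci0 (m - k, a / 2 ^ k, b / 2 ^ k) (m, a', b') := by
  have h1 := ci0_near (h.div hk) h'
  have hs0 := side_pos (sub O m a b)
  obtain ⟨c1, c2⟩ := center_diff m a b a' b'
  have e1 := norm_center_anc (sub O m a b) k
  have e2 : ‖(sub O m a b).center - (sub O m a' b').center‖ ≤ 2 * (anc (sub O m a b) k).side := by
    refine (Complex.norm_le_abs_re_add_abs_im _).trans ?_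
    rw [c1, c2, abs_mul, abs_mul, abs_of_pos hs0, side_anc]
    have : |(a : ℝ) - a'| ≤ 2 ^ k := by exact_mod_cast ha
    have : |(b : ℝ) - b'| ≤ 2 ^ k := by exact_mod_cast hb
    nlinarith
  have e3 := side_le_anc (sub O m a b) k
  have h2 := le_kk (S := anc (sub O m a b) k) (T := sub O m a' b')
    (y := 4 * (anc (sub O m a b) k).side)
    (by have : (sub O m a' b').side = (sub O m a b).side := rfl
        unfold rad; linarith)
    (by have := norm_sub_le_norm_sub_add_norm_sub (anc (sub O m a b) k).center
          (sub O m a b).center (sub O m a' b').center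
        rw [norm_sub_rev] at e1
        unfold rad; linarith)
  rw [log_mul (by norm_num) (side_pos _).ne', log_side, anc_sub _ hk, sub_O_n, Int.cast_natCast,
    show (4 : ℝ) = 2 ^ 2 by norm_num, log_pow] at h2
  rw [abs_le] at h1
  push_cast at h2
  linarith

end Pool.Agent.Lib.MP_d1f1b2_pr
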