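import Pool.Agent.Lib.MP_d1f1b2_pr.Second

open Set Filter MeasureTheory ProbabilityTheory Real
open scoped ENNReal Topology

namespace Pool.Agent.Lib.MP_d1f1b2_pr

variable {Ω : Type*} {mΩ : MeasurableSpace Ω} {P : Measure Ω} {h : Sq → Ω → ℝ} {Q : ℝ}

noncomputable def lm (Q : ℝ) (x : Sq → ℝ) (S : Sq) : ℝ := x S - Q * (S.n * log 2)

def DD (Q : ℝ) (x : Sq → ℝ) (l : ℝ) : Sq → Prop := fun S => lm Q x S ≤ l

theorem var_le {S : Sq} {y : ℝ} (h1 : 1 ≤ y) (h : ‖S.center‖ + rad S ≤ y) :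
    gffCov S S ≤ 2 * log y + (S.n * log 2 + log 2) := by
  have a := cc_le h1 h
  have b := kk_le (S := S) (T := S) (rad_pos S) (Or.inl le_rfl)
  rw [log_rad] at b
  rw [gffCov_eq]; linarith

theorem norm_center_le (S : Sq) : ‖S.center‖ + rad S ≤ (|(S.i : ℝ)| + |(S.j : ℝ)| + 2) * S.side := by
  have hs := side_pos S
  have := Complex.norm_le_abs_re_add_abs_im S.center
  simp only [Sq.center, abs_mul, abs_of_pos hs] at this
  have a := abs_add_le (S.i : ℝ) (1 / 2)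
  have b := abs_add_le (S.j : ℝ) (1 / 2)
  rw [abs_of_pos (show (0 : ℝ) < 1 / 2 by norm_num)] at a b
  unfold rad Sq.center
  nlinarith

theorem summ {s : ℕ → Set Ω} {η B : ℝ} (hη : 0 < η) (hs : ∀ k, P (s k) ≤ ee (-η * k + B)) :
    ∀ᵐ ω ∂P, ∀ᶠ k in atTop, ω ∉ s k := by
  refine ae_eventually_notMem (ne_top_of_le_ne_top ?_ (ENNReal.tsum_le_tsum hs))
  simp only [ee_add, ENNReal.tsum_mul_right]
  exact ENNReal.mul_ne_top (tsum_ee hη) (ee_ne_top _)

theorem var_up {U : Sq} {n0 : ℤ} {k : ℕ} {I : ℝ} (hn : U.n = n0 - k)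
    (hI : |(U.i : ℝ)| + |(U.j : ℝ)| ≤ I) :
    gffCov U U ≤ k * log 2 + (2 * log (max ((I + 2) * 2 ^ (-n0)) 1) + n0 * log 2 + log 2) := by
  have hy : (1 : ℝ) ≤ max ((I + 2) * 2 ^ (-n0)) 1 := le_max_right _ _
  have hk : (1 : ℝ) ≤ 2 ^ k := one_le_pow₀ one_le_two
  have hside : U.side = 2 ^ k * 2 ^ (-n0) := side_of_n (S := ⟨n0, 0, 0⟩) hn
  have := var_le (S := U) (y := 2 ^ k * max ((I + 2) * 2 ^ (-n0)) 1) (by nlinarith) (by
    refine (norm_center_le U).trans ?_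
    have hs := side_pos U
    calc _ ≤ (I + 2) * U.side := by gcongr
      _ = 2 ^ k * ((I + 2) * 2 ^ (-n0)) := by rw [hside]; ring
      _ ≤ _ := by gcongr; exact le_max_left _ _)
  rw [log_mul (by positivity) (by positivity), log_pow, hn] at this
  push_cast at this
  linarith

theorem up (hh : CG h P gffCov) (hQ : 0 < Q) (U : ℕ → Sq) (n0 : ℤ) (I : ℝ)
    (hn : ∀ k, (U k).n = n0 - k) (hI : ∀ k, |((U k).i : ℝ)| + |((U k).j : ℝ)| ≤ I) :
    ∀ᵐ ω ∂P, ∀ l : ℝ, ∀ᶠ k in atTop, l < lm Q (fun S => h S ω) (U k) := by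
  have hL := log2pos
  have : ∀ l : ℤ, ∀ᵐ ω ∂P, ∀ᶠ k in atTop,
      ω ∉ {ω | h (U k) ω ≤ l + Q * ((U k).n * log 2)} := fun l => by
    refine summ (η := Q ^ 2 * log 2 / 2) (B := Q ^ 2 * (2 * log (max ((I + 2) * 2 ^ (-n0)) 1) +
      n0 * log 2 + log 2) / 2 + Q * (l + Q * (n0 * log 2))) (by positivity) fun k => ?_
    refine (hh.tail_le _ hQ.le _).trans (ee_mono ?_)
    have := mul_le_mul_of_nonneg_left (var_up (hn k) (hI k)) (sq_nonneg Q)
    rw [hn k]; push_cast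
    nlinarith
  filter_upwards [ae_all_iff.2 this] with ω hω l
  filter_upwards [hω ⌈l⌉] with k hk
  simp only [not_le] at hk
  have := Int.le_ceil l
  unfold lm; linarith

theorem down (hh : CG h P gffCov) (hQ : 0 < Q) (U : Sq) (a b : ℕ → ℤ)
    (hin : ∀ m, In m (a m) (b m)) :
    ∀ᵐ ω ∂P, ∀ l : ℝ, ∀ᶠ m in atTop, lm Q (fun S => h S ω) (sub U m (a m) (b m)) ≤ l := by
  have hL := log2pos
  have : ∀ l : ℤ, ∀ᵐ ω ∂P, ∀ᶠ m in atTop, ω ∉ {ω | l + Q * ((sub U m (a m) (b m)).n * log 2) ≤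
      h (sub U m (a m) (b m)) ω} := fun l => by
    refine summ (η := Q ^ 2 * log 2 / 2) (B := Q ^ 2 * (2 * log (max (‖U.center‖ + 2 * U.side) 1) +
      U.n * log 2 + log 2) / 2 - Q * (l + Q * (U.n * log 2))) (by positivity) fun m => ?_
    refine (hh.tail_ge _ hQ.le _).trans (ee_mono ?_)
    have h1 := norm_center_anc (sub U m (a m) (b m)) m
    have h2 := side_le_anc (sub U m (a m) (b m)) m
    rw [anc_sub_self _ (hin m)] at h1 h2
    have h3 := var_le (S := sub U m (a m) (b m)) (y := max (‖U.center‖ + 2 * U.side) 1)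
      (le_max_right _ _) (le_max_of_le_left (by
        have := norm_le_norm_add_norm_sub' (sub U m (a m) (b m)).center U.center
        have := side_pos (sub U m (a m) (b m))
        unfold rad; linarith))
    have := mul_le_mul_of_nonneg_left h3 (sq_nonneg Q)
    have hn : (sub U m (a m) (b m)).n = U.n + m := rfl
    rw [hn] at this ⊢
    push_cast at this ⊢
    nlinarith
  filter_upwards [ae_all_iff.2 this] with ω hω l
  filter_upwards [hω ⌊l⌋] with k hk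
  simp only [not_le] at hk
  have := Int.floor_le l
  unfold lm; linarith

theorem abs_div_le (a : ℤ) (k : ℕ) : |((a / 2 ^ k : ℤ) : ℝ)| ≤ |(a : ℝ)| := by
  have := Int.abs_ediv_le_abs a (2 ^ k)
  exact_mod_cast this

structure Gd (Q : ℝ) (x : Sq → ℝ) : Prop where
  top : ∀ S l, ∀ᶠ k in atTop, l < lm Q x (anc S k)
  down : ∀ l, Down (DD Q x l)
  wk : ∀ l, ∀ᶠ k in atTop, l < lm Q x (Wk k)

theorem Gd.top' {x : Sq → ℝ} (hx : Gd Q x) (l : ℝ) : Top (DD Q x l) := fun S => by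
  obtain ⟨k0, hk0⟩ := eventually_atTop.1 (hx.top S l)
  exact ⟨k0, fun k hk => not_le.2 (hk0 k hk)⟩

theorem Gd.bdd {x : Sq → ℝ} (hx : Gd Q x) (S : Sq) : ∃ C : ℝ, ∀ k, C ≤ lm Q x (anc S k) := by
  obtain ⟨k0, hk0⟩ := eventually_atTop.1 (hx.top S 0)
  obtain ⟨C, hC⟩ := ((finite_lt_nat k0).image fun k => lm Q x (anc S k)).bddBelow
  refine ⟨min C 0, fun k => ?_⟩
  rcases lt_or_ge k k0 with hk | hk
  · exact (min_le_left _ _).trans (hC ⟨k, hk, rfl⟩)
  · exact (min_le_right _ _).trans (hk0 k hk).le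

theorem Gd.alive_wk {x : Sq → ℝ} (hx : Gd Q x) (l : ℝ) :
    ∀ᶠ k in atTop, alive (DD Q x l) (Wk k) := by
  obtain ⟨k0, hk0⟩ := eventually_atTop.1 (hx.top O l)
  filter_upwards [hx.wk l, eventually_ge_atTop k0] with k h1 h2 j
  cases j with
  | zero => simpa [DD] using h1
  | succ j =>
    have h12 : (1 : ℤ) / 2 ^ (j + 1) = 0 := div_eq_iff.2 ⟨by simp, by
      have := p2pos j; rw [pow_succ]; omega⟩
    have : anc (Wk k) (j + 1) = anc O (k + j + 1) := by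
      apply Sq.ext'
      · simp [anc, Wk, O]; ring
      · simp only [anc, Wk, O, h12]; simp
      · simp only [anc, Wk, O, h12]; simp
    rw [this]
    exact not_le.2 (hk0 _ (by omega))

theorem ae_Gd (hh : CG h P gffCov) (hQ : 0 < Q) : ∀ᵐ ω ∂P, Gd Q fun S => h S ω := by
  have h1 := ae_all_iff.2 fun S : Sq => up hh hQ (anc S) S.n (|(S.i : ℝ)| + |(S.j : ℝ)|)
    (fun _ => rfl) (fun k => add_le_add (abs_div_le _ _) (abs_div_le _ _))
  have h2 := ae_all_iff.2 fun p : Sq × Bool × Bool => down hh hQ p.1 (cor p.2.1) (cor p.2.2)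
    (fun m => in_cor _ _ m)
  have h3 := up hh hQ Wk 0 2 (fun k => by simp [Wk]) (fun k => by simp [Wk]; norm_num)
  filter_upwards [h1, h2, h3] with ω a b c
  exact ⟨a, fun l U α β => (b (U, α, β) l).exists, c⟩

theorem CG_incr (hh : CG h P gffCov) (W : Sq) :
    CG (fun (p : ℕ × ℤ × ℤ) ω => h (sub W p.1 p.2.1 p.2.2) ω - h W ω) P ci0 := by
  convert hh.incr (fun p : ℕ × ℤ × ℤ => sub W p.1 p.2.1 p.2.2) W using 3 with p q
  have h1 := kk_sub W p.1 q.1 p.2.1 p.2.2 q.2.1 q.2.2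
  have h2 := kk_sub W p.1 0 p.2.1 p.2.2 0 0
  have h3 := kk_sub W 0 q.1 0 0 q.2.1 q.2.2
  have h4 := kk_sub W 0 0 0 0 0 0
  simp only [sub_zero'] at h2 h3 h4
  simp only [gffCov_eq, ci0, h1, h2, h3, h4]
  ring

theorem Surv.mono {R : ℕ → ℤ → ℤ → Prop} {p q : ℕ × ℤ × ℤ → Prop} (hs : Surv R p)
    (hpq : ∀ m a b, In m a b → p (m, a, b) → q (m, a, b)) : Surv R q := fun m => by
  obtain ⟨a, b, h1, h2, h3⟩ := hs m
  exact ⟨a, b, h1, h2, fun k hk => hpq _ _ _ (h1.div hk) (h3 k hk)⟩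

def SE (Q C : ℝ) (R : ℕ → ℤ → ℤ → Prop) (y : ℕ × ℤ × ℤ → ℝ) : Prop :=
  Surv R fun p => Q * (p.1 * log 2) - C ≤ y p

theorem meas_SE (Q C : ℝ) (R : ℕ → ℤ → ℤ → Prop) : Measurable (SE Q C R) :=
  meas_Surv R fun _ => measurableSet_setOfPred.1
    (measurableSet_le measurable_const (measurable_pi_apply _))

theorem lm_sub (x : Sq → ℝ) (W : Sq) (m : ℕ) (a b : ℤ) :
    lm Q x (sub W m a b) = (x (sub W m a b) - x W) - Q * (m * log 2) + lm Q x W := by
  have hn : (sub W m a b).n = W.n + m := rfl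
  simp only [lm, hn]; push_cast; ring

theorem caseA (hh : CG h P gffCov) (hQ : 0 < Q) (hQ2 : Q < 2) (l : ℝ)
    (hLF : P {ω | ¬ LF (DD Q (fun S => h S ω) l)} = 0) :
    P {ω | ∃ N, ∀ K, ∃ L, Bad K L (DD Q (fun S => h S ω) l) ⟨N, 0, 0⟩} ≠ 0 := by
  have := hh.prob
  obtain ⟨C, hC⟩ := second_moment (CG_incr hh O) hQ hQ2
  set Γ : ℕ → Set Ω := fun k => {ω | SE Q C (fun _ _ _ => True)
    fun p => h (sub (Wk k) p.1 p.2.1 p.2.2) ω - h (Wk k) ω} with hΓ
  have hΓm : ∀ k, MeasurableSet (Γ k) := fun k =>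
    measurableSet_setOfPred.2 ((meas_SE _ _ _).comp (CG_incr hh _).measPi)
  have hΓP : ∀ k, P (Γ k) = P {ω | SE Q C (fun _ _ _ => True)
      fun p => h (sub O p.1 p.2.1 p.2.2) ω - h O ω} := fun k =>
    (CG_incr hh _).prob_eq (CG_incr hh O) (meas_SE _ _ _)
  have ht := tendsto_measure_iInter_atTop (μ := P) (s := fun n => ⋃ k ≥ n, Γ k)
    (fun n => (MeasurableSet.iUnion fun k => MeasurableSet.iUnion fun _ => hΓm k).nullMeasurableSet)
    (fun n n' hn => biUnion_subset_biUnion_left fun k hk => hn.trans hk) ⟨0, measure_ne_top _ _⟩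
  have hle := ge_of_tendsto' ht fun n => (hΓP n).ge.trans
    (measure_mono (subset_biUnion_of_mem (u := Γ) (show n ≥ n from le_rfl)))
  intro h0
  refine hC (le_antisymm (hle.trans (le_of_eq_of_le (measure_mono_null_ae ?_ h0) le_rfl)) zero_le)
  filter_upwards [ae_Gd hh hQ, measure_eq_zero_iff_ae_notMem.1 hLF] with ω hG hL hω
  refine caseA_det (hG.top' l) (hG.down l) (not_not.1 hL) ?_
  obtain ⟨k0, hk0⟩ := eventually_atTop.1 ((hG.alive_wk l).and (hG.wk (l + C)))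
  refine infinite_of_forall_exists_gt fun n => ?_
  obtain ⟨k, hk, hk'⟩ := mem_iUnion₂.1 (mem_iInter.1 hω (max k0 (n + 1)))
  have hk1 := hk0 k ((le_max_left _ _).trans hk)
  have hk'' : Surv (fun _ _ _ => True) fun p => Q * (p.1 * log 2) - C ≤
      h (sub (Wk k) p.1 p.2.1 p.2.2) ω - h (Wk k) ω := hk'
  refine ⟨k, ⟨hk1.1, Surv.mono hk'' fun m a b _ hp => not_le.2 ?_⟩, (le_max_right _ _).trans hk⟩
  rw [lm_sub]
  have := hk1.2
  simp only at hp
  linarith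

end Pool.Agent.Lib.MP_d1f1b2_pr
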