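import Pool.Agent.Lib.MP_d1f1b2_pr.AS

open Set Filter MeasureTheory ProbabilityTheory Real
open scoped ENNReal Topology

namespace Pool.Agent.Lib.MP_d1f1b2_pr

variable {Ω : Type*} {mΩ : MeasurableSpace Ω} {P : Measure Ω} {h : Sq → Ω → ℝ} {Q : ℝ}

def R0 : Sq := ⟨4, 0, 0⟩

def Fam (σ : Bool × Bool) (p : Sq → Prop) : Prop :=
  (∀ k, p (anc R0 (k + 1))) ∧ (∀ k, p (anc (Wside σ 4) k)) ∧
    Surv (onSide σ) fun r => p (sub (Wside σ 4) r.1 r.2.1 r.2.2)

def Near (T : Sq) : Prop := gffCov T R0 ≤ gffCov R0 R0 - log (41 / 40)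

theorem side_R0 : R0.side = 1 / 16 := by norm_num [R0, Sq.side]

theorem center_R0 : R0.center = ⟨1 / 32, 1 / 32⟩ := by
  rw [Sq.center, side_R0]; norm_num [R0]

theorem kk_R0 : 5 * log 2 ≤ kk R0 R0 := by
  have := le_kk (S := R0) (T := R0) le_rfl (by simp)
  rw [log_rad] at this
  have e : (R0.n : ℝ) = 4 := by norm_num [R0]
  rw [e] at this
  linarith

theorem log_gap : 0 < log (41 / 40) ∧ log (41 / 40) ≤ log 2 :=
  ⟨log_pos (by norm_num), log_le_log (by norm_num) (by norm_num)⟩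

theorem near_of {T : Sq} (h1 : 41 / 1280 ≤ rad T ∨ 41 / 1280 ≤ ‖T.center - R0.center‖)
    {w : ℂ} (hw : w ∈ T.carrier) (hw' : ‖w‖ ≤ 1 / 4) : Near T := by
  have hc := norm_sub_center hw
  have hn : ‖T.center‖ ≤ T.side + 1 / 4 := by
    have := norm_le_norm_add_norm_sub' T.center w
    rw [norm_sub_rev] at this
    linarith
  have h0 := cc_nonneg R0
  have hk := kk_R0
  have hs := side_pos T
  have hL := log2pos
  unfold Near
  rw [gffCov_eq, gffCov_eq]
  rcases le_total T.side (1 / 4) with hle | hle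
  · have a := cc_le (S := T) (y := 1) le_rfl (by unfold rad; linarith)
    have b := kk_le (S := T) (T := R0) (x := 41 / 1280) (by norm_num)
      (h1.imp id Or.inr)
    have e : log (41 / 1280) = log (41 / 40) - 5 * log 2 := by
      rw [show (41 / 1280 : ℝ) = 41 / 40 / 2 ^ 5 by norm_num, log_div (by norm_num) (by norm_num),
        log_pow]
      norm_num
    rw [log_one] at a
    linarith
  · have a := cc_le (S := T) (y := 2 ^ 2 * T.side) (by linarith) (by unfold rad; linarith)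
    have b := kk_le (S := T) (T := R0) (rad_pos T) (Or.inl le_rfl)
    rw [log_mul (by norm_num) hs.ne', log_pow, log_side] at a
    rw [log_rad] at b
    push_cast at a
    linarith [log_gap.2]

theorem norm_ge {z : ℂ} {x : ℝ} (h : x ^ 2 ≤ z.re ^ 2 + z.im ^ 2) : x ≤ ‖z‖ := by
  refine le_of_sq_le_sq ?_ (norm_nonneg z)
  rw [Complex.sq_norm, Complex.normSq_apply]; nlinarith

theorem Wside_pt {σ : Bool × Bool} {z : ℂ} (hz : z ∈ (Wside σ 4).carrier) :
    ‖z‖ ≤ 1 / 4 ∧ 41 / 1280 ≤ ‖z - R0.center‖ := by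
  have hs : (Wside σ 4).side = 1 / 128 := by rw [Sq.side, Wside_n]; norm_num
  obtain ⟨h1, h2, h3, h4⟩ := hz
  rw [hs] at h1 h2 h3 h4
  obtain ⟨σ1, σ2⟩ := σ
  have := Complex.norm_le_abs_re_add_abs_im z
  cases σ1 <;> cases σ2 <;>
    simp only [Wside, Bool.false_eq_true, if_false, if_true] at h1 h2 h3 h4 <;>
    push_cast at h1 h2 h3 h4 <;>
    refine ⟨?_, norm_ge ?_⟩
  all_goals first
    | (have a : |z.re| ≤ 1 / 8 := abs_le.2 ⟨by linarith, by linarith⟩
       have b : |z.im| ≤ 1 / 8 := abs_le.2 ⟨by linarith, by linarith⟩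
       linarith)
    | (rw [center_R0]; simp only [Complex.sub_re, Complex.sub_im]; nlinarith)

theorem near_anc_R0 (k : ℕ) : Near (anc R0 (k + 1)) := by
  refine near_of (Or.inl ?_) (carrier_sub_anc _ _ (center_mem R0)) ?_
  · rw [rad, side_anc, side_R0, pow_succ]
    have : (1 : ℝ) ≤ 2 ^ k := one_le_pow₀ one_le_two
    linarith
  · refine (Complex.norm_le_abs_re_add_abs_im _).trans ?_
    rw [center_R0]; norm_num

theorem near_sub (σ : Bool × Bool) {m : ℕ} {a b : ℤ} (hin : In m a b) :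
    Near (sub (Wside σ 4) m a b) := by
  have := carrier_sub_anc _ m (center_mem (sub (Wside σ 4) m a b))
  rw [anc_sub_self _ hin] at this
  exact near_of (Or.inr (Wside_pt this).2) (center_mem _) (Wside_pt this).1

theorem near_anc_W (σ : Bool × Bool) (k : ℕ) : Near (anc (Wside σ 4) k) := by
  have hc := Wside_pt (center_mem (Wside σ 4))
  refine near_of ?_ (carrier_sub_anc _ _ (center_mem _)) hc.1
  have hs : (Wside σ 4).side = 1 / 128 := by rw [Sq.side, Wside_n]; norm_num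
  rcases le_or_gt 4 k with hk | hk
  · left
    rw [rad, side_anc, hs]
    have : (2 : ℝ) ^ 4 ≤ 2 ^ k := pow_le_pow_right₀ one_le_two hk
    linarith
  · right
    refine norm_ge ?_
    rw [center_R0]
    simp only [Complex.sub_re, Complex.sub_im, Sq.center, side_anc, hs]
    obtain ⟨σ1, σ2⟩ := σ
    interval_cases k <;> cases σ1 <;> cases σ2 <;> norm_num [anc, Wside]

theorem Fam.mono {σ : Bool × Bool} {p q : Sq → Prop} (hp : Fam σ p)
    (hpq : ∀ T, Near T → p T → q T) : Fam σ q :=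
  ⟨fun k => hpq _ (near_anc_R0 k) (hp.1 k), fun k => hpq _ (near_anc_W σ k) (hp.2.1 k),
    hp.2.2.mono fun _ _ _ hin => hpq _ (near_sub σ hin)⟩

theorem meas_Fam {α : Type*} [MeasurableSpace α] (σ : Bool × Bool) {p : α → Sq → Prop}
    (hp : ∀ T, Measurable fun x => p x T) : Measurable fun x => Fam σ (p x) :=
  (Measurable.forall fun _ => hp _).and ((Measurable.forall fun _ => hp _).and
    (meas_Surv _ fun _ => hp _))

theorem ne_zero_union {ι : Type*} [Countable ι] {s : Set Ω} {t : ι → Set Ω} (hs : P s ≠ 0)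
    (hst : ∀ᵐ ω ∂P, ω ∈ s → ∃ i, ω ∈ t i) : ∃ i, P (t i) ≠ 0 := by
  by_contra hc
  simp only [not_exists, not_not] at hc
  refine hs (measure_mono_null_ae ?_ (measure_iUnion_null hc))
  filter_upwards [hst] with ω h1 h2
  exact mem_iUnion.2 (h1 h2)

theorem se_of_not_LF (l : ℝ) (hLF : P {ω | ¬ LF (DD Q (fun S => h S ω) l)} ≠ 0) :
    ∃ U σ C, P {ω | SE Q C (onSide σ) fun p => h (sub U p.1 p.2.1 p.2.2) ω - h U ω} ≠ 0 := by
  obtain ⟨⟨U, σ, C⟩, h1⟩ := ne_zero_union (ι := Sq × (Bool × Bool) × ℕ) hLF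
    (t := fun i => {ω | SE Q i.2.2 (onSide i.2.1)
      fun p => h (sub i.1 p.1 p.2.1 p.2.2) ω - h i.1 ω}) (ae_of_all _ fun ω hω => by
      obtain ⟨U, σ, hs⟩ := surv_of_not_LF hω
      refine ⟨(U, σ, ⌈lm Q (fun S => h S ω) U - l⌉₊), ?_⟩
      simp only [mem_ofPred_eq, SE]
      refine hs.mono fun m a b _ hp => ?_
      have := Nat.le_ceil (lm Q (fun S => h S ω) U - l)
      simp only [DD, not_le, lm_sub] at hp
      simp only
      linarith)
  exact ⟨U, σ, C, h1⟩

theorem caseB (hh : CG h P gffCov) (hQ : 0 < Q) {U : Sq} {σ : Bool × Bool} {C : ℝ}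
    (h1 : P {ω | SE Q C (onSide σ) fun p => h (sub U p.1 p.2.1 p.2.2) ω - h U ω} ≠ 0) :
    P {ω | Fam σ fun T => lm Q (fun S => h S ω) R0 + 1 ≤ lm Q (fun S => h S ω) T} ≠ 0 := by
  rw [(CG_incr hh U).prob_eq (CG_incr hh (Wside σ 4)) (meas_SE _ _ _)] at h1
  have hv : 0 < gffCov R0 R0 := by
    have := cc_nonneg R0
    have := kk_R0
    have := log2pos
    rw [gffCov_eq]; linarith
  set v := gffCov R0 R0 with hvdef
  set g := log (41 / 40) / v with hg
  have hg0 : 0 < g := div_pos log_gap.1 hv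
  have hc : ∀ T, Near T → g ≤ 1 - gffCov T R0 / v := fun T hT => by
    rw [hg, one_sub_div hv.ne']
    exact div_le_div_of_nonneg_right (by unfold Near at hT; linarith) hv.le
  obtain ⟨A, h2⟩ := ne_zero_union (ι := ℕ) h1
    (t := fun A => {ω | Fam σ fun T => -(A : ℝ) ≤ h T ω - gffCov T R0 / v * h R0 ω -
      Q * (T.n * log 2) + Q * (R0.n * log 2) + (1 - gffCov T R0 / v) * A}) (by
      filter_upwards [ae_Gd hh hQ] with ω hG hω
      obtain ⟨C1, hC1⟩ := hG.bdd R0
      obtain ⟨C2, hC2⟩ := hG.bdd (Wside σ 4)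
      obtain ⟨A, hA⟩ := exists_nat_ge (max (-h R0 ω) (lm Q (fun S => h S ω) R0 -
        min C1 (min C2 (C2 - C))))
      have a1 := (le_max_left _ _).trans hA
      have a2 := (le_max_right _ _).trans hA
      have b1 := min_le_left C1 (min C2 (C2 - C))
      have b2 := (min_le_right C1 _).trans (min_le_left C2 (C2 - C))
      have b3 := (min_le_right C1 _).trans (min_le_right C2 (C2 - C))
      have hF : Fam σ fun T => lm Q (fun S => h S ω) R0 - A ≤ lm Q (fun S => h S ω) T := by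
        refine ⟨fun k => by linarith [hC1 (k + 1)], fun k => by linarith [hC2 k],
          Surv.mono (p := fun p => Q * (p.1 * log 2) - C ≤
            h (sub (Wside σ 4) p.1 p.2.1 p.2.2) ω - h (Wside σ 4) ω) hω fun m a b _ hp => ?_⟩
        have := hC2 0
        rw [anc_zero] at this
        simp only [lm_sub] at hp ⊢
        linarith
      refine ⟨A, hF.mono fun T hT hp => ?_⟩
      have := mul_le_mul_of_nonneg_left a1 (hg0.le.trans (hc T hT))
      simp only [lm] at hp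
      linarith)
  have h3 := hh.shift R0 hv (B := fun y => Fam σ fun T => -(A : ℝ) ≤ y T -
      Q * (T.n * log 2) + Q * (R0.n * log 2) + (1 - gffCov T R0 / v) * A)
    (meas_Fam σ fun T => measurableSet_setOfPred.1 (measurableSet_le measurable_const (by fun_prop)))
    h2 (-A - (A + 1) / g)
  refine fun h0 => h3 (measure_mono_null (fun ω hω => ?_) h0)
  simp only [mem_ofPred_eq, ← hvdef] at hω ⊢
  refine hω.1.mono fun T hT hp => ?_
  have a1 := mul_le_mul_of_nonneg_left hω.2 (hg0.le.trans (hc T hT))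
  have a2 := mul_le_mul_of_nonneg_right (hc T hT) (show 0 ≤ (A + 1) / g by positivity)
  rw [mul_div_cancel₀ _ hg0.ne'] at a2
  simp only [lm]
  linarith

theorem bad_of_Fam {x : Sq → ℝ} (hx : Gd Q x) {σ : Bool × Bool}
    (hF : Fam σ fun T => lm Q x R0 + 1 ≤ lm Q x T) {l : ℝ} (h1 : lm Q x R0 ≤ l)
    (h2 : l < lm Q x R0 + 1) : tile (DD Q x l) R0 ∧ InfDeg (DD Q x l) R0 := by
  have hF' : Fam σ fun T => ¬ DD Q x l T := hF.mono fun T _ hp => not_le.2 (h2.trans_le hp)
  have ht : tile (DD Q x l) R0 := ⟨h1, hF'.1⟩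
  exact ⟨ht, caseB_det (hx.top' l) (hx.down l) ht hF'.2.1 hF'.2.2⟩

end Pool.Agent.Lib.MP_d1f1b2_pr
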