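import Mathlib

open MeasureTheory Metric Set

namespace Pool.Agent.Lib.MP_d1f1b2_pr

/-- The dyadic square `[i 2^(-n), (i+1) 2^(-n)] × [j 2^(-n), (j+1) 2^(-n)]`. -/
structure Sq where
  n : ℤ
  i : ℤ
  j : ℤ

/-- Side length. -/
noncomputable def Sq.side (S : Sq) : ℝ := (2 : ℝ) ^ (-S.n)

/-- Centre. -/
noncomputable def Sq.center (S : Sq) : ℂ := ⟨(S.i + 1 / 2) * S.side, (S.j + 1 / 2) * S.side⟩

/-- The closed square as a subset of the plane. -/
def Sq.carrier (S : Sq) : Set ℂ :=
  {z | S.i * S.side ≤ z.re ∧ z.re ≤ (S.i + 1) * S.side ∧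
    S.j * S.side ≤ z.im ∧ z.im ≤ (S.j + 1) * S.side}

/-- Covariance kernel of the whole-plane GFF with zero average on the unit circle. -/
noncomputable def green (z w : ℂ) : ℝ := Real.log (max ‖z‖ 1 * max ‖w‖ 1 / ‖z - w‖)

/-- Covariance of the averages of the GFF over the circles inscribed in `S` and `T`. -/
noncomputable def gffCov (S T : Sq) : ℝ :=
  Real.circleAverage (fun z => Real.circleAverage (fun w => green z w) T.center (T.side / 2))
    S.center (S.side / 2)

/-- `M_h(S) = exp (h_S) |S|^Q`, where `x S` is the value of the circle average `h_S`. -/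
noncomputable def mass (Q : ℝ) (x : Sq → ℝ) (S : Sq) : ℝ := Real.exp (x S) * S.side ^ Q

/-- `S` belongs to the tiling at level `ε`. -/
def IsTile (Q ε : ℝ) (x : Sq → ℝ) (S : Sq) : Prop :=
  mass Q x S ≤ ε ∧ ∀ S' : Sq, S.carrier ⊂ S'.carrier → ε < mass Q x S'

/-- The adjacency graph of the tiling: two distinct tiles are adjacent when they share a
non-degenerate segment (squares that are not tiles are isolated vertices). -/
def tiling (Q ε : ℝ) (x : Sq → ℝ) : SimpleGraph Sq where
  Adj S T := S ≠ T ∧ IsTile Q ε x S ∧ IsTile Q ε x T ∧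
    ∃ z w : ℂ, z ≠ w ∧ segment ℝ z w ⊆ S.carrier ∩ T.carrier
  symm := ⟨fun _ _ ⟨h1, h2, h3, z, w, h4, h5⟩ =>
    ⟨h1.symm, h3, h2, z, w, h4, by rwa [inter_comm]⟩⟩
  loopless := ⟨fun _ h => h.1 rfl⟩

/-- Pointed metric space with a Borel measure. -/
structure PMM : Type 1 where
  X : Type
  [metric : MetricSpace X]
  [meas : MeasurableSpace X]
  [borel : BorelSpace X]
  root : X
  μ : Measure X

attribute [instance] PMM.metric PMM.meas PMM.borel

/-- Local Gromov-Hausdorff-Prokhorov `η`-closeness: after isometric embeddings in a common metric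
space, the roots are `η`-close, and on the balls of radius `1/η` around the roots the spaces are
`η`-close in the Hausdorff sense and the measures are `η`-close in the Prokhorov sense. -/
def Close (η : ℝ) (A B : PMM) : Prop :=
  ∃ (Z : Type) (_ : MetricSpace Z) (f : A.X → Z) (g : B.X → Z), Isometry f ∧ Isometry g ∧
    dist (f A.root) (g B.root) ≤ η ∧
    (∀ x ∈ closedBall A.root η⁻¹, ∃ y, dist (f x) (g y) ≤ η) ∧
    (∀ y ∈ closedBall B.root η⁻¹, ∃ x, dist (f x) (g y) ≤ η) ∧
    (∀ s ⊆ closedBall A.root η⁻¹, IsClosed s →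
      A.μ s ≤ B.μ (g ⁻¹' cthickening η (f '' s)) + ENNReal.ofReal η) ∧
    (∀ s ⊆ closedBall B.root η⁻¹, IsClosed s →
      B.μ s ≤ A.μ (f ⁻¹' cthickening η (g '' s)) + ENNReal.ofReal η)

theorem Close.refl {η : ℝ} (h0 : 0 < η) (A : PMM) : Close η A A :=
  have h : ∀ s : Set A.X, A.μ s ≤ A.μ (id ⁻¹' cthickening η (id '' s)) + ENNReal.ofReal η :=
    fun s => le_add_right (measure_mono (by simpa using self_subset_cthickening s))
  ⟨A.X, inferInstance, id, id, isometry_id, isometry_id, by simpa using h0.le,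
    fun x _ => ⟨x, by simpa using h0.le⟩, fun x _ => ⟨x, by simpa using h0.le⟩,
    fun s _ _ => h s, fun s _ _ => h s⟩

theorem Close.mono {η η' : ℝ} {A B : PMM} (h : Close η A B) (h0 : 0 < η) (hle : η ≤ η') :
    Close η' A B := by
  obtain ⟨Z, _, f, g, hf, hg, h1, h2, h3, h4, h5⟩ := h
  have hi : η'⁻¹ ≤ η⁻¹ := inv_anti₀ h0 hle
  refine ⟨Z, inferInstance, f, g, hf, hg, h1.trans hle, fun x hx => ?_, fun y hy => ?_,
    fun s hs hc => ?_, fun s hs hc => ?_⟩
  · obtain ⟨y, hy⟩ := h2 x (closedBall_subset_closedBall hi hx)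
    exact ⟨y, hy.trans hle⟩
  · obtain ⟨x, hx⟩ := h3 y (closedBall_subset_closedBall hi hy)
    exact ⟨x, hx.trans hle⟩
  · exact (h4 s (hs.trans (closedBall_subset_closedBall hi)) hc).trans (add_le_add
      (measure_mono (preimage_mono (cthickening_mono hle _))) (ENNReal.ofReal_le_ofReal hle))
  · exact (h5 s (hs.trans (closedBall_subset_closedBall hi)) hc).trans (add_le_add
      (measure_mono (preimage_mono (cthickening_mono hle _))) (ENNReal.ofReal_le_ofReal hle))

/-- Pointed boundedly compact metric spaces with a locally finite Borel measure. -/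
structure BCMM : Type 1 extends PMM where
  proper : ProperSpace X
  locFin : IsLocallyFiniteMeasure μ

/-- The local Gromov-Hausdorff-Prokhorov topology. -/
instance : TopologicalSpace BCMM where
  IsOpen U := ∀ A ∈ U, ∃ η > 0, ∀ B : BCMM, Close η A.toPMM B.toPMM → B ∈ U
  isOpen_univ := fun _ _ => ⟨1, one_pos, fun _ _ => trivial⟩
  isOpen_inter := fun _ _ hU hV A hA => by
    obtain ⟨η, h0, h⟩ := hU A hA.1
    obtain ⟨η', h0', h'⟩ := hV A hA.2
    exact ⟨min η η', lt_min h0 h0', fun B hB =>
      ⟨h B (hB.mono (lt_min h0 h0') (min_le_left _ _)),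
        h' B (hB.mono (lt_min h0 h0') (min_le_right _ _))⟩⟩
  isOpen_sUnion := fun _ hS A ⟨U, hU, hA⟩ => by
    obtain ⟨η, h0, h⟩ := hS U hU A hA
    exact ⟨η, h0, fun B hB => ⟨U, hU, h B hB⟩⟩

/-- Its Borel sigma-algebra. -/
instance : MeasurableSpace BCMM := borel BCMM

/-- Graph distance multiplied by `a` on the connected component of `ρ`. -/
@[reducible] noncomputable def graphMetric (G : SimpleGraph Sq) (ρ : Sq) (a : ℝ) (ha : 0 < a) :
    MetricSpace {S // G.Reachable ρ S} where
  dist S T := a * G.dist S.1 T.1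
  dist_self S := by simp
  dist_comm S T := by rw [SimpleGraph.dist_comm]
  dist_triangle S T U := by
    have h : G.dist S.1 U.1 ≤ G.dist S.1 T.1 + G.dist T.1 U.1 :=
      (S.2.symm.trans T.2).dist_triangle_left U.1
    rw [← mul_add]
    exact mul_le_mul_of_nonneg_left (by exact_mod_cast h) ha.le
  eq_of_dist_eq_zero := fun {S T} h => by
    have h' : G.dist S.1 T.1 = 0 := by
      rcases mul_eq_zero.1 h with h | h
      · exact absurd h ha.ne'
      · exact_mod_cast h
    exact Subtype.ext ((S.2.symm.trans T.2).dist_eq_zero_iff.1 h')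

/-- The component of `ρ` in `G`, rooted at `ρ`, with `a` times the graph distance and `b` times
the counting measure. -/
noncomputable def rescaled (G : SimpleGraph Sq) (ρ : Sq) (a b : ℝ) (ha : 0 < a) : PMM :=
  letI := graphMetric G ρ a ha
  letI : MeasurableSpace {S // G.Reachable ρ S} := borel _
  { X := {S // G.Reachable ρ S}
    metric := graphMetric G ρ a ha
    meas := borel _
    borel := ⟨rfl⟩
    root := ⟨ρ, .refl ρ⟩
    μ := ENNReal.ofReal b • Measure.count }

end Pool.Agent.Lib.MP_d1f1b2_pr
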