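import Pool.Agent.Lib.MP_d1f1b2_pr.Graph

open Set Filter

namespace Pool.Agent.Lib.MP_d1f1b2_pr

variable {D : Sq → Prop}

def Ins (W T : Sq) : Prop := ∃ k, anc T k = W

def Bd (D : Sq → Prop) (W : Sq) : Set Sq :=
  {T | tile D T ∧ (W.carrier ∩ T.carrier).Nonempty ∧ ¬ Ins W T}

noncomputable def nbr (W : Sq) : Finset Sq :=
  ((Finset.Icc (W.i - 1) (W.i + 1)) ×ˢ (Finset.Icc (W.j - 1) (W.j + 1))).image
    fun p => ⟨W.n, p.1, p.2⟩

theorem mem_nbr {W : Sq} {i j : ℤ} (h1 : W.i - 1 ≤ i) (h2 : i ≤ W.i + 1) (h3 : W.j - 1 ≤ j)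
    (h4 : j ≤ W.j + 1) : (⟨W.n, i, j⟩ : Sq) ∈ nbr W :=
  Finset.mem_image.2 ⟨(i, j), by simp [h1, h2, h3, h4], rfl⟩

theorem pick {t w : ℤ} {k : ℕ} (h1 : t * 2 ^ k ≤ w + 1) (h2 : w ≤ (t + 1) * 2 ^ k) :
    ∃ i, w - 1 ≤ i ∧ i ≤ w + 1 ∧ i / 2 ^ k = t := by
  have hp := p2pos k
  have e : (t + 1) * 2 ^ k = t * 2 ^ k + 2 ^ k := by ring
  refine ⟨max (t * 2 ^ k) (min w ((t + 1) * 2 ^ k - 1)), by omega, by omega, ?_⟩
  rw [div_eq_iff]
  omega

theorem side_case {t w : ℤ} {k : ℕ} (h1 : w * 2 ^ k ≤ t + 1) (h2 : t ≤ (w + 1) * 2 ^ k) :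
    w - 1 ≤ t / 2 ^ k ∧ t / 2 ^ k ≤ w + 1 ∧ (t / 2 ^ k ≠ w → ∃ α, t % 2 ^ k = cor α k) := by
  have hp := p2pos k
  have e : (w + 1) * 2 ^ k = w * 2 ^ k + 2 ^ k := by ring
  have e' : (w - 1) * 2 ^ k = w * 2 ^ k - 2 ^ k := by ring
  have e'' : (w + 1 + 1) * 2 ^ k = w * 2 ^ k + 2 ^ k + 2 ^ k := by ring
  have hm := Int.mul_ediv_add_emod t (2 ^ k)
  by_cases c1 : t = w * 2 ^ k - 1
  · have : t / 2 ^ k = w - 1 := div_eq_iff.2 ⟨by omega, by rw [sub_add_cancel]; omega⟩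
    refine ⟨by omega, by omega, fun _ => ⟨true, ?_⟩⟩
    rw [this, mul_comm, e'] at hm
    simp only [cor, if_true]; omega
  by_cases c2 : t = (w + 1) * 2 ^ k
  · have : t / 2 ^ k = w + 1 := div_eq_iff.2 ⟨by omega, by omega⟩
    refine ⟨by omega, by omega, fun _ => ⟨false, ?_⟩⟩
    rw [this, mul_comm] at hm
    simp only [cor, Bool.false_eq_true, if_false]; omega
  · have : t / 2 ^ k = w := div_eq_iff.2 ⟨by omega, by omega⟩
    exact ⟨by omega, by omega, fun h => absurd this h⟩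

theorem Bd_finite (hT : Top D) (hL : LF D) (W : Sq) : (Bd D W).Finite := by
  have e : ∀ᶠ m in atTop, ∀ U ∈ nbr W, ∀ σ, ∀ a b, In m a b → onSide σ m a b →
      ¬ alive D (sub U m a b) :=
    (Finset.eventually_all _).2 fun U _ => eventually_all.2 fun σ => hL.ev U σ
  obtain ⟨m0, hm0⟩ := eventually_atTop.1 e
  have f1 : (⋃ U ∈ nbr W, {T | ∃ k, T = anc U k ∧ D T}).Finite := by
    refine (nbr W).finite_toSet.biUnion fun U _ => ?_
    obtain ⟨k0, hk0⟩ := hT U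
    refine ((finite_lt_nat k0).image (anc U)).subset ?_
    rintro T ⟨k, rfl, hk⟩
    refine ⟨k, ?_, rfl⟩
    by_contra hc
    exact hk0 k (by simpa using hc) hk
  have f2 : (⋃ U ∈ nbr W, ⋃ k ∈ Finset.range (m0 + 1),
      (fun p : ℤ × ℤ => sub U k p.1 p.2) '' (Ico 0 (2 ^ k) ×ˢ Ico 0 (2 ^ k))).Finite :=
    (nbr W).finite_toSet.biUnion fun U _ => (Finset.range _).finite_toSet.biUnion fun k _ =>
      ((finite_Ico _ _).prod (finite_Ico _ _)).image _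
  refine (f1.union f2).subset ?_
  rintro T ⟨ht, hne, hni⟩
  rcases le_or_gt T.n W.n with hn | hn
  · left
    obtain ⟨k, hk⟩ := Int.le.dest hn
    obtain ⟨a1, a2, a3, a4⟩ := inter_int (S := W) (T := T) (k := k) (by omega) hne
    obtain ⟨i, i1, i2, i3⟩ := pick a1 a2
    obtain ⟨j, j1, j2, j3⟩ := pick a3 a4
    simp only [mem_iUnion]
    refine ⟨_, mem_nbr i1 i2 j1 j2, k, Sq.ext' (by simp [anc]; omega) i3.symm j3.symm, ht.1⟩
  · right
    obtain ⟨k, hk⟩ := Int.le.dest (show W.n + 1 ≤ T.n by omega)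
    obtain ⟨a1, a2, a3, a4⟩ := inter_int (S := T) (T := W) (k := k + 1) (by push_cast; omega)
      (by rwa [inter_comm])
    obtain ⟨i1, i2, i3⟩ := side_case a1 a2
    obtain ⟨j1, j2, j3⟩ := side_case a3 a4
    have hU : anc T (k + 1) = ⟨W.n, T.i / 2 ^ (k + 1), T.j / 2 ^ (k + 1)⟩ :=
      Sq.ext' (by simp [anc]; omega) rfl rfl
    have hmem : anc T (k + 1) ∈ nbr W := hU ▸ mem_nbr i1 i2 j1 j2
    obtain ⟨hTe, hin⟩ := eq_sub_anc T (k + 1)
    have hσ : ∃ σ, onSide σ (k + 1) (T.i % 2 ^ (k + 1)) (T.j % 2 ^ (k + 1)) := by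
      by_cases c : T.i / 2 ^ (k + 1) = W.i
      · have c' : T.j / 2 ^ (k + 1) ≠ W.j := fun c' => hni ⟨k + 1, by rw [hU, c, c']⟩
        obtain ⟨α, hα⟩ := j3 c'
        exact ⟨(false, α), by simpa [onSide] using hα⟩
      · obtain ⟨α, hα⟩ := i3 c
        exact ⟨(true, α), by simpa [onSide] using hα⟩
    obtain ⟨σ, hσ⟩ := hσ
    have hk0 : k < m0 := by
      by_contra hc
      have h1 := hin.div (k := 1) (by omega)
      have h2 := hσ.div (k := 1) (by omega)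
      have h3 := ht.alive_anc 0
      rw [hTe, anc_sub _ (by omega)] at h3
      exact hm0 (k + 1 - 1) (by omega) _ hmem σ _ _ h1 h2 h3
    simp only [mem_iUnion]
    exact ⟨_, hmem, k + 1, by simp; omega, (T.i % 2 ^ (k + 1), T.j % 2 ^ (k + 1)),
      ⟨⟨hin.1, hin.2.1⟩, hin.2.2⟩, hTe.symm⟩

theorem not_ins_of_adj {S T : Sq} (h : adj D S T) : ¬ Ins S T := by
  rintro ⟨k, rfl⟩
  cases k with
  | zero => exact h.1 (by simp)
  | succ k => exact h.2.2.1.2 k h.2.1.1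

theorem deg_finite (hT : Top D) (hL : LF D) (S : Sq) : {T | adj D S T}.Finite :=
  (Bd_finite hT hL S).subset fun _ h => ⟨h.2.2.1, h.2.2.2.nonempty, not_ins_of_adj h⟩

theorem ball_finite (hT : Top D) (hL : LF D) (ρ : Sq) (t : ℕ) : {x | Rk D t ρ x}.Finite := by
  induction t with
  | zero => exact (finite_singleton ρ).subset fun x h => h.symm
  | succ t ih =>
    refine (ih.union (ih.biUnion fun U _ => deg_finite hT hL U)).subset ?_
    rintro x (h | ⟨U, h1, h2⟩)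
    · exact Or.inl h
    · exact Or.inr (mem_biUnion h1 h2)

theorem bd_of_adj {W x y : Sq} (h : adj D x y) (hx : Ins W x) (hy : ¬ Ins W y) : y ∈ Bd D W := by
  obtain ⟨k, rfl⟩ := hx
  exact ⟨h.2.2.1, h.2.2.2.nonempty.mono (inter_subset_inter_left _ (carrier_sub_anc _ _)), hy⟩

theorem exit_bd {W x y : Sq} {r : ℕ} (h : Rk D r x y) (hx : Ins W x) (hy : ¬ Ins W y) :
    ∃ f ∈ Bd D W, Rk D r x f := by
  induction r generalizing y with
  | zero => cases h; exact absurd hx hy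
  | succ r ih =>
    rcases h with h | ⟨U, h1, h2⟩
    · obtain ⟨f, hf, hf'⟩ := ih h hy
      exact ⟨f, hf, Or.inl hf'⟩
    · by_cases hU : Ins W U
      · exact ⟨y, bd_of_adj h2 hU hy, Or.inr ⟨U, h1, h2⟩⟩
      · obtain ⟨f, hf, hf'⟩ := ih h1 hU
        exact ⟨f, hf, Or.inl hf'⟩

theorem step_down {W ρ : Sq} {L t : ℕ} (hB : ∀ f ∈ Bd D W, Rk D L ρ f) (hL : L ≤ t) (d : ℕ)
    {x : Sq} (hx : Ins W x) (h1 : Rk D (t + d + 1) ρ x) (h2 : ¬ Rk D (t + d) ρ x) :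
    ∃ y, Ins W y ∧ Rk D (t + 1) ρ y ∧ ¬ Rk D t ρ y := by
  induction d generalizing x with
  | zero => exact ⟨x, hx, h1, h2⟩
  | succ d ih =>
    rcases h1 with h1 | ⟨U, hU, hUx⟩
    · exact absurd h1 h2
    · have h3 : ¬ Rk D (t + d) ρ U := fun h => h2 (Or.inr ⟨U, h, hUx⟩)
      refine ih ?_ hU h3
      by_contra hc
      exact h3 ((hB U (bd_of_adj hUx.symm hx hc)).mono (by omega))

theorem exact_level (hT : Top D) (hL : LF D) {N : ℤ} (hN : tile D ⟨N, 0, 0⟩) {W : Sq} {L t : ℕ}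
    (hB : ∀ f ∈ Bd D W, Rk D L ⟨N, 0, 0⟩ f) (hLt : L ≤ t)
    (hinf : {T | tile D T ∧ Ins W T}.Infinite) :
    ∃ y, Ins W y ∧ Rk D (t + 1) ⟨N, 0, 0⟩ y ∧ ¬ Rk D t ⟨N, 0, 0⟩ y := by
  classical
  obtain ⟨x, ⟨hx1, hx2⟩, hx3⟩ := hinf.exists_notMem_finite (ball_finite hT hL ⟨N, 0, 0⟩ t)
  have hex := conn hT hL hN hx1
  have hs := Nat.find_spec hex
  have hlt : t < Nat.find hex := by
    by_contra hc
    exact hx3 (hs.mono (by omega))
  obtain ⟨d, hd⟩ := Nat.exists_eq_add_of_lt hlt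
  exact step_down hB hLt d hx2 (hd ▸ hs) (Nat.find_min hex (by omega))

theorem ends_of (hT : Top D) (hL : LF D) {N : ℤ} (hN : tile D ⟨N, 0, 0⟩) {K : ℕ} (W : Fin K → Sq)
    (hdis : ∀ i j, i ≠ j → ∀ T, Ins (W i) T → ¬ Ins (W j) T)
    (hinf : ∀ i, {T | tile D T ∧ Ins (W i) T}.Infinite) : ∃ L, Ends K L D ⟨N, 0, 0⟩ := by
  have hfin : (⋃ i, Bd D (W i)).Finite := finite_iUnion fun i => Bd_finite hT hL _
  have hc : ∀ f : Sq, ∃ t, tile D f → Rk D t ⟨N, 0, 0⟩ f := fun f => by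
    by_cases h : tile D f
    · obtain ⟨t, ht⟩ := conn hT hL hN h
      exact ⟨t, fun _ => ht⟩
    · exact ⟨0, fun h' => absurd h' h⟩
  choose t ht using hc
  obtain ⟨L, hLb⟩ := (hfin.image t).bddAbove
  have hB : ∀ i, ∀ f ∈ Bd D (W i), Rk D L ⟨N, 0, 0⟩ f := fun i f hf =>
    (ht f hf.1).mono (hLb ⟨f, mem_iUnion.2 ⟨i, hf⟩, rfl⟩)
  refine ⟨L + 1, fun r => ?_⟩
  choose x hx1 hx2 hx3 using fun i =>
    exact_level hT hL hN (hB i) (t := r + L) (by omega) (hinf i)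
  refine ⟨x, fun i => hx2 i, fun i j hij h => ?_⟩
  obtain ⟨f, hf, hf'⟩ := exit_bd h (hx1 i) (hdis j i hij.symm _ (hx1 j))
  exact hx3 i (((hB i f hf).trans hf'.symm).mono (by omega))

theorem alive_of_surv {W : Sq} (hW : alive D W) {m : ℕ} {a b : ℤ} (hin : In m a b)
    (h : ∀ k ≤ m, ¬ D (sub W (m - k) (a / 2 ^ k) (b / 2 ^ k))) : alive D (sub W m a b) := by
  intro k
  rcases le_or_gt k m with hk | hk
  · rw [anc_sub _ hk]; exact h k hk
  · obtain ⟨d, rfl⟩ := Nat.exists_eq_add_of_lt hk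
    rw [add_assoc, ← anc_anc, anc_sub_self _ hin]; exact hW _

theorem tile_below (hT : Top D) {c : Sq} (hc : alive D c) {m : ℕ} {a b : ℤ} (hin : In m a b)
    (h : ¬ alive D (sub c m a b)) : ∃ k < m, tile D (anc (sub c m a b) k) := by
  obtain ⟨k, hk⟩ := exists_tile hT h
  refine ⟨k, ?_, hk⟩
  by_contra hc'
  obtain ⟨d, rfl⟩ := Nat.exists_eq_add_of_le (not_lt.1 hc')
  have := hk.1
  rw [← anc_anc, anc_sub_self _ hin] at this
  exact hc _ this

theorem infinite_of_levels {s : Set Sq} (h : ∀ m : ℕ, ∃ T ∈ s, (m : ℤ) < T.n) : s.Infinite := by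
  intro hf
  obtain ⟨B, hB⟩ := (hf.image Sq.n).bddAbove
  obtain ⟨T, hT, hm⟩ := h B.toNat
  have := hB ⟨T, hT, rfl⟩
  omega

theorem inf_tiles (hT : Top D) (hD : Down D) {W : Sq} (hW : alive D W)
    (hS : Surv (fun _ _ _ => True) fun p => ¬ D (sub W p.1 p.2.1 p.2.2)) :
    {T | tile D T ∧ Ins W T}.Infinite := by
  refine infinite_of_levels fun m => ?_
  obtain ⟨a, b, hin, -, h⟩ := hS (m + (-W.n).toNat)
  have hc := alive_of_surv hW hin h
  obtain ⟨m', hm'⟩ := (hD.ev (sub W (m + (-W.n).toNat) a b) false false).exists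
  obtain ⟨k, hk, ht⟩ := tile_below hT hc (in_cor _ _ _) hm'
  refine ⟨_, ⟨ht, (m' - k) + (m + (-W.n).toNat), ?_⟩, ?_⟩
  · rw [← anc_anc, anc_anc _ k, show k + (m' - k) = m' by omega, anc_sub_self _ (in_cor _ _ _),
      anc_sub_self _ hin]
  · simp only [anc, sub]; push_cast; omega

theorem root_exists (hT : Top D) (hD : Down D) : ∃ N, tile D ⟨N, 0, 0⟩ := by
  obtain ⟨m, hm⟩ := (hD.ev ⟨0, 0, 0⟩ false false).exists
  obtain ⟨k, hk⟩ := exists_tile hT hm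
  exact ⟨(0 : ℤ) + m - k, by simpa [anc, sub, cor] using hk⟩

def Wk (k : ℕ) : Sq := ⟨-k, 1, 1⟩

theorem Wk_disj {k l : ℕ} (h : k ≠ l) (T : Sq) (h1 : Ins (Wk k) T) : ¬ Ins (Wk l) T := by
  have key : ∀ {k l : ℕ}, k < l → Ins (Wk k) T → ¬ Ins (Wk l) T := by
    rintro k l hkl ⟨a, ha⟩ ⟨b, hb⟩
    have h1 := congrArg Sq.n ha
    have h2 := congrArg Sq.n hb
    simp only [anc, Wk] at h1 h2
    obtain ⟨d, rfl⟩ := Nat.exists_eq_add_of_lt (show a < b by omega)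
    rw [add_assoc, ← anc_anc, ha] at hb
    have h3 := congrArg Sq.i hb
    simp only [anc, Wk] at h3
    have h4 := (div_eq_iff.1 h3).1
    have h5 : (2 : ℤ) ^ (d + 1) = 2 * 2 ^ d := by ring
    have := p2pos d
    omega
  rcases lt_or_gt_of_ne h with h | h
  · exact key h h1
  · exact fun h2 => key h h2 h1

theorem caseA_det (hT : Top D) (hD : Down D) (hL : LF D)
    (h : {k | alive D (Wk k) ∧ Surv (fun _ _ _ => True)
      fun p => ¬ D (sub (Wk k) p.1 p.2.1 p.2.2)}.Infinite) :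
    ∃ N, ∀ K, ∃ L, Bad K L D ⟨N, 0, 0⟩ := by
  obtain ⟨N, hN⟩ := root_exists hT hD
  refine ⟨N, fun K => ?_⟩
  let e := h.natEmbedding
  obtain ⟨L, hL'⟩ := ends_of hT hL hN (K := K) (fun i => Wk (e i).1)
    (fun i j hij => Wk_disj fun h => hij (Fin.ext (e.injective (Subtype.ext h))))
    (fun i => inf_tiles hT hD (e i).2.1 (e i).2.2)
  exact ⟨L, hN, Or.inl hL'⟩

def Wside (σ : Bool × Bool) (n : ℤ) : Sq :=
  if σ.1 then ⟨n + 3, if σ.2 then -1 else 8, 5⟩ else ⟨n + 3, 5, if σ.2 then -1 else 8⟩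

theorem sh_side (σ : Bool × Bool) (n : ℤ) {M : ℕ} {a b : ℤ} (hin : In M a b)
    (hon : onSide σ M a b) : Sh ⟨n, 0, 0⟩ (sub (Wside σ n) M a b) := by
  have hp := p2pos M
  have h8 : (2 : ℤ) ^ (M + 3) = 8 * 2 ^ M := by ring
  obtain ⟨h1, h2, h3, h4⟩ := hin
  have key : ∀ x y : ℤ, 0 ≤ x → x < 8 * 2 ^ M → 0 ≤ y → y < 8 * 2 ^ M →
      anc ⟨n + 3 + M, x, y⟩ (M + 3) = ⟨n, 0, 0⟩ := fun x y a1 a2 a3 a4 => by
    apply Sq.ext'
    · simp [anc]; ring
    · exact div_eq_iff.2 ⟨by simpa using a1, by simpa [h8] using a2⟩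
    · exact div_eq_iff.2 ⟨by simpa using a3, by simpa [h8] using a4⟩
  obtain ⟨σ1, σ2⟩ := σ
  cases σ1 <;> cases σ2 <;>
    simp only [onSide, cor, Wside, sub, Bool.false_eq_true, if_false, if_true] at hon ⊢ <;>
    subst hon
  · have := (sh_vert (n + 3 + M) (5 * 2 ^ M + a) (8 * 2 ^ M - 1)).anc (M + 3) 0
    rw [key _ _ (by omega) (by omega) (by omega) (by omega)] at this
    simpa using this
  · have := (sh_vert (n + 3 + M) (5 * 2 ^ M + a) (-1)).symm.anc (M + 3) 0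
    rw [key _ _ (by omega) (by omega) (by omega) (by omega)] at this
    rw [show -1 * 2 ^ M + (2 ^ M - 1) = (-1 : ℤ) by ring]
    simpa using this
  · have := (sh_horiz (n + 3 + M) (8 * 2 ^ M - 1) (5 * 2 ^ M + b)).anc (M + 3) 0
    rw [key _ _ (by omega) (by omega) (by omega) (by omega)] at this
    simpa using this
  · have := (sh_horiz (n + 3 + M) (-1) (5 * 2 ^ M + b)).symm.anc (M + 3) 0
    rw [key _ _ (by omega) (by omega) (by omega) (by omega)] at this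
    rw [show -1 * 2 ^ M + (2 ^ M - 1) = (-1 : ℤ) by ring]
    simpa using this

theorem Wside_n (σ : Bool × Bool) (n : ℤ) : (Wside σ n).n = n + 3 := by
  unfold Wside; split <;> rfl

theorem caseB_det (hT : Top D) (hD : Down D) {n : ℤ} {σ : Bool × Bool} (h0 : tile D ⟨n, 0, 0⟩)
    (hW : alive D (Wside σ n))
    (hS : Surv (onSide σ) fun p => ¬ D (sub (Wside σ n) p.1 p.2.1 p.2.2)) :
    InfDeg D ⟨n, 0, 0⟩ := by
  have : {T | adj D ⟨n, 0, 0⟩ T}.Infinite := by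
    refine infinite_of_levels fun m => ?_
    obtain ⟨a, b, hin, hon, h⟩ := hS (m + (-n).toNat)
    set M := m + (-n).toNat with hM
    have hc := alive_of_surv hW hin h
    obtain ⟨m', hm'⟩ := (hD.ev (sub (Wside σ n) M a b) σ.2 σ.2).exists
    obtain ⟨k, hk, ht⟩ := tile_below hT hc (in_cor _ _ _) hm'
    have hlev : (m : ℤ) < (anc (sub (sub (Wside σ n) M a b) m' (cor σ.2 m') (cor σ.2 m')) k).n ∧
        n < (anc (sub (sub (Wside σ n) M a b) m' (cor σ.2 m') (cor σ.2 m')) k).n := by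
      simp only [anc, sub, Wside_n, hM]; push_cast; omega
    refine ⟨_, ⟨fun he => ?_, h0, ht, ?_⟩, hlev.1⟩
    · have := hlev.2
      rw [← he] at this
      exact lt_irrefl _ this
    · have hp := p2pos m'
      have c1 := cor_nonneg σ.2 m'
      have c2 := cor_lt σ.2 m'
      have hlt : ∀ x : ℤ, x < 2 ^ M → x * 2 ^ m' + cor σ.2 m' < 2 ^ (M + m') := fun x hx => by
        rw [pow_add]
        nlinarith [mul_le_mul_of_nonneg_right (Int.add_one_le_of_lt hx) hp.le]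
      have := sh_side σ n (M := M + m') (a := a * 2 ^ m' + cor σ.2 m')
        (b := b * 2 ^ m' + cor σ.2 m')
        ⟨add_nonneg (mul_nonneg hin.1 hp.le) c1, hlt _ hin.2.1,
          add_nonneg (mul_nonneg hin.2.2.1 hp.le) c1, hlt _ hin.2.2.2⟩ (by
          unfold onSide at hon ⊢
          split <;> rename_i h' <;> simp only [h', if_true] at hon
          · rw [hon, cor_add]
          · simp only [Bool.false_eq_true, if_false] at hon
            rw [hon, cor_add])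
      rw [← sub_sub'] at this
      simpa using this.anc 0 k
  intro F
  obtain ⟨T, h1, h2⟩ := this.exists_notMem_finset F
  exact ⟨T, h2, h1⟩

theorem root_near (hT : Top D) (hD : Down D) {N : ℤ} (hN : tile D ⟨N, 0, 0⟩) {ρ : Sq}
    (hρ : tile D ρ) (h0 : (0 : ℂ) ∈ ρ.carrier) : Rk D 2 ρ ⟨N, 0, 0⟩ := by
  obtain ⟨hi, hj⟩ := zero_mem h0
  have e1 := hD.ev ⟨0, -1, 0⟩ true false
  obtain ⟨m, h1, h2, h3⟩ := (e1.and ((eventually_ge_atTop N.toNat).and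
    (eventually_ge_atTop ρ.n.toNat))).exists
  have e : sub ⟨0, -1, 0⟩ m (cor true m) (cor false m) = ⟨m, -1, 0⟩ := by
    apply Sq.ext' <;> simp [sub, cor]
    ring
  rw [e] at h1
  obtain ⟨k, hk⟩ := exists_tile hT h1
  obtain ⟨d, hd⟩ := Int.le.dest (show N ≤ m by omega)
  obtain ⟨d', hd'⟩ := Int.le.dest (show ρ.n ≤ m by omega)
  have hN' : anc ⟨m, 0, 0⟩ d = ⟨N, 0, 0⟩ := by
    apply Sq.ext' <;> simp [anc]; omega
  have hneg : (-1 : ℤ) / 2 ^ d' = -1 := div_eq_iff.2 ⟨by have := p2pos d'; omega, by simp⟩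
  have hρ' : anc ⟨m, ρ.i, ρ.j⟩ d' = ρ := by
    apply Sq.ext'
    · simp [anc]; omega
    · rcases hi with h | h <;> simp [anc, h, hneg]
    · rcases hj with h | h <;> simp [anc, h, hneg]
  rw [← hN'] at hN ⊢
  rw [← hρ'] at hρ ⊢
  have s1 : Sh ⟨m, -1, 0⟩ ⟨m, 0, 0⟩ := sh_horiz m (-1) 0
  rcases hi with hi | hi <;> rcases hj with hj | hj <;> rw [hi, hj] at hρ ⊢
  · rw [tile_unique hρ hN]; exact Rk.refl _ _
  · exact (rk_of_sh (sh_vert m 0 (-1)) hρ hN).mono (by omega)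
  · exact (rk_of_sh s1 hρ hN).mono (by omega)
  · exact (rk_of_sh (sh_vert m (-1) (-1)) hρ hk).trans (rk_of_sh s1 hk hN)

theorem surv_of_not_LF (h : ¬ LF D) :
    ∃ U σ, Surv (onSide σ) fun p => ¬ D (sub U p.1 p.2.1 p.2.2) := by
  simp only [LF, not_forall, not_exists, not_not] at h
  obtain ⟨U, σ, h⟩ := h
  refine ⟨U, σ, fun m => ?_⟩
  obtain ⟨a, b, h1, h2, h3⟩ := h m
  exact ⟨a, b, h1, h2, fun k hk => by have := h3 k; rwa [anc_sub _ hk] at this⟩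

end Pool.Agent.Lib.MP_d1f1b2_pr
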