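import Pool.Agent.Lib.MP_d1f1b2_pr.Avg

open Set Filter MeasureTheory Metric
open scoped ENNReal Topology BoundedContinuousFunction

namespace Pool.Agent.Lib.MP_d1f1b2_pr

theorem Close.symm {η : ℝ} {A B : PMM} (h : Close η A B) : Close η B A := by
  obtain ⟨Z, _, f, g, hf, hg, h1, h2, h3, h4, h5⟩ := h
  refine ⟨Z, inferInstance, g, f, hg, hf, by rwa [dist_comm], fun y hy => ?_, fun x hx => ?_,
    h5, h4⟩
  · obtain ⟨x, hx⟩ := h3 y hy
    exact ⟨x, by rwa [dist_comm]⟩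
  · obtain ⟨y, hy⟩ := h2 x hx
    exact ⟨y, by rwa [dist_comm]⟩

def Cfg (K : ℕ) (R a t : ℝ) (A : PMM) : Prop :=
  ∃ x : Fin K → A.X, (∀ i, dist (x i) A.root ≤ R - t) ∧
    ∀ i j, i ≠ j → t ≤ dist (x i) (x j) ∧ dist (x i) (x j) ≤ a - t

noncomputable def TF (K : ℕ) (R a : ℝ) (A : PMM) : ℝ :=
  sSup {t | t = 0 ∨ (0 ≤ t ∧ t ≤ 1 ∧ Cfg K R a t A)}

variable {K : ℕ} {R a : ℝ}

theorem TF_bdd (A : PMM) : BddAbove {t | t = 0 ∨ (0 ≤ t ∧ t ≤ 1 ∧ Cfg K R a t A)} :=
  ⟨1, by rintro t (rfl | h); exacts [zero_le_one, h.2.1]⟩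

theorem TF_nonneg (A : PMM) : 0 ≤ TF K R a A := le_csSup (TF_bdd A) (Or.inl rfl)

theorem TF_le {A : PMM} {c : ℝ} (h0 : 0 ≤ c) (h : ∀ t, 0 < t → t ≤ 1 → Cfg K R a t A → t ≤ c) :
    TF K R a A ≤ c := by
  refine csSup_le ⟨0, Or.inl rfl⟩ ?_
  rintro t (rfl | ht)
  · exact h0
  · rcases ht.1.eq_or_lt with h' | h'
    · rw [← h']; exact h0
    · exact h t h' ht.2.1 ht.2.2

theorem TF_le_one (A : PMM) : TF K R a A ≤ 1 := TF_le zero_le_one fun _ _ h _ => h

theorem le_TF {A : PMM} {t : ℝ} (h1 : t ≤ 1) (h : Cfg K R a t A) : t ≤ TF K R a A := by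
  rcases le_total t 0 with h0 | h0
  · exact h0.trans (TF_nonneg A)
  · exact le_csSup (TF_bdd A) (Or.inr ⟨h0, h1, h⟩)

theorem Cfg.close {A B : PMM} {η t : ℝ} (hc : Close η A B) (hR : R ≤ η⁻¹) (ht : 0 ≤ t)
    (h : Cfg K R a t A) : Cfg K R a (t - 2 * η) B := by
  obtain ⟨Z, _, f, g, hf, hg, h1, h2, -⟩ := hc
  obtain ⟨x, hx1, hx2⟩ := h
  choose y hy using fun i => h2 (x i) (mem_closedBall.2 (by linarith [hx1 i]))
  refine ⟨y, fun i => ?_, fun i j hij => ?_⟩
  · have := dist_triangle4 (g (y i)) (f (x i)) (f A.root) (g B.root)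
    rw [hg.dist_eq, hf.dist_eq, dist_comm (g (y i))] at this
    linarith [hy i, hx1 i]
  · have a1 := dist_triangle4 (g (y i)) (f (x i)) (f (x j)) (g (y j))
    have a2 := dist_triangle4 (f (x i)) (g (y i)) (g (y j)) (f (x j))
    rw [hg.dist_eq, hf.dist_eq, dist_comm (g (y i))] at a1
    rw [hg.dist_eq, hf.dist_eq, dist_comm (g (y j))] at a2
    obtain ⟨b1, b2⟩ := hx2 i j hij
    constructor <;> linarith [hy i, hy j]

theorem TF_close {A B : PMM} {η : ℝ} (hc : Close η A B) (h0 : 0 < η) (hR : R ≤ η⁻¹) :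
    TF K R a A ≤ TF K R a B + 2 * η :=
  TF_le (by linarith [TF_nonneg (K := K) (R := R) (a := a) B]) fun t ht h1 h => by
    linarith [le_TF (by linarith) (h.close hc hR ht.le)]

theorem TF_cont : Continuous fun A : BCMM => TF K R a A.toPMM := by
  refine continuous_def.2 fun V hV A hA => ?_
  obtain ⟨e, he, hb⟩ := Metric.isOpen_iff.1 hV _ hA
  have hp : 0 < min (e / 3) (|R| + 1)⁻¹ := lt_min (by linarith) (by positivity)
  refine ⟨_, hp, fun B hB => hb ?_⟩
  have hR : R ≤ (min (e / 3) (|R| + 1)⁻¹)⁻¹ := by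
    refine le_trans (by linarith [le_abs_self R] : R ≤ |R| + 1) ?_
    exact (le_inv_comm₀ (by positivity) hp).2 (min_le_right _ _)
  have h1 := TF_close (K := K) (a := a) hB hp hR
  have h2 := TF_close (K := K) (a := a) hB.symm hp hR
  have := min_le_left (e / 3) (|R| + 1)⁻¹
  rw [mem_ball, Real.dist_eq, abs_lt]
  constructor <;> linarith

noncomputable def TFb (K : ℕ) (R a : ℝ) : BCMM →ᵇ ℝ :=
  BoundedContinuousFunction.mkOfBound ⟨fun A => TF K R a A.toPMM, TF_cont⟩ 1 fun A B => by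
    have := TF_nonneg (K := K) (R := R) (a := a) A.toPMM
    have := TF_nonneg (K := K) (R := R) (a := a) B.toPMM
    have := TF_le_one (K := K) (R := R) (a := a) A.toPMM
    have := TF_le_one (K := K) (R := R) (a := a) B.toPMM
    simp only [ContinuousMap.coe_mk, Real.dist_eq, abs_le]
    constructor <;> linarith

theorem TFb_apply (A : BCMM) : TFb K R a A = TF K R a A.toPMM := rfl

instance : BorelSpace BCMM := ⟨rfl⟩

theorem TF_tendsto (A : BCMM) : Tendsto (fun K => TF K R a A.toPMM) atTop (𝓝 0) := by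
  classical
  have := A.proper
  refine tendsto_order.2 ⟨fun c hc => Eventually.of_forall fun K => hc.trans_le (TF_nonneg _),
    fun c hc => ?_⟩
  obtain ⟨s, -, hs, hcov⟩ := (isCompact_closedBall A.root R).finite_cover_balls
    (show 0 < c / 4 by linarith)
  filter_upwards [eventually_gt_atTop hs.toFinset.card] with K hK
  refine lt_of_le_of_lt (TF_le (c := c / 2) (by linarith) fun t ht _ h => ?_) (by linarith)
  obtain ⟨x, hx1, hx2⟩ := h
  choose y hy hy' using fun i =>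
    mem_iUnion₂.1 (hcov (mem_closedBall.2 (show dist (x i) A.root ≤ R by linarith [hx1 i])))
  obtain ⟨i, -, j, -, hij, he⟩ := Finset.exists_ne_map_eq_of_card_lt_of_maps_to
    (s := Finset.univ) (t := hs.toFinset) (f := y) (by simpa using hK)
    (fun i _ => by simpa using hy i)
  have a1 := mem_ball.1 (hy' i)
  have a2 := mem_ball.1 (hy' j)
  rw [he] at a1
  have := dist_triangle_right (x i) (x j) (y j)
  linarith [(hx2 i j hij).1]

theorem int_tendsto (ν : Measure BCMM) [IsProbabilityMeasure ν] :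
    Tendsto (fun K => ∫ A, TFb K R a A ∂ν) atTop (𝓝 0) := by
  have := tendsto_integral_of_dominated_convergence (μ := ν) (F := fun K A => TFb K R a A)
    (f := fun _ => 0) (fun _ => 1) (fun K => (TFb K R a).continuous.measurable.aestronglyMeasurable)
    (integrable_const _) (fun K => ae_of_all _ fun A => by
      rw [TFb_apply, Real.norm_of_nonneg (TF_nonneg _)]; exact TF_le_one _)
    (ae_of_all _ fun A => TF_tendsto A)
  simpa using this

section Graph
variable {G : SimpleGraph Sq} {D : Sq → Prop}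

theorem Rk.dist_le (hG : ∀ S T, G.Adj S T ↔ adj D S T) {k : ℕ} {S T : Sq} (h : Rk D k S T) :
    G.Reachable S T ∧ G.dist S T ≤ k := by
  induction k generalizing T with
  | zero => cases h; simp
  | succ k ih =>
    rcases h with h | ⟨U, h1, h2⟩
    · exact ⟨(ih h).1, (ih h).2.trans (Nat.le_succ _)⟩
    · have h3 := (hG _ _).2 h2
      refine ⟨(ih h1).1.trans h3.reachable, ((ih h1).1.dist_triangle_left T).trans ?_⟩
      rw [SimpleGraph.dist_eq_one_iff_adj.2 h3]
      exact Nat.succ_le_succ (ih h1).2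

theorem rk_of_reach (hG : ∀ S T, G.Adj S T ↔ adj D S T) {S T : Sq} (h : G.Reachable S T) :
    Rk D (G.dist S T) S T := by
  obtain ⟨p, hp⟩ := h.exists_walk_length_eq_dist
  rw [← hp]
  clear hp h
  induction p with
  | nil => rfl
  | cons h p ih =>
    have := ((hG _ _).1 h).rk.trans ih
    rwa [add_comm] at this

theorem cfg_of_ends (hG : ∀ S T, G.Adj S T ↔ adj D S T) {ρ ρ' : Sq} {L : ℕ} (h2 : Rk D 2 ρ ρ')
    (h : Ends K L D ρ') {a b : ℝ} (ha : 0 < a) (haL : a * (L + 3) ≤ 1) :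
    Cfg K 4 100 1 (rescaled G ρ a b ha) := by
  obtain ⟨x, hx1, hx2⟩ := h ⌈a⁻¹⌉₊
  have hr := fun i => (h2.trans (hx1 i)).dist_le hG
  have c1 := Nat.le_ceil a⁻¹
  have c2 := Nat.ceil_lt_add_one (inv_pos.2 ha).le
  have c3 := mul_inv_cancel₀ ha.ne'
  have d1 : ∀ i, dist (α := (rescaled G ρ a b ha).X) ⟨x i, (hr i).1⟩ (rescaled G ρ a b ha).root
      ≤ 2 := fun i => by
    change a * G.dist (x i) ρ ≤ 2
    rw [SimpleGraph.dist_comm]
    have : (G.dist ρ (x i) : ℝ) ≤ 2 + (⌈a⁻¹⌉₊ + L) := by exact_mod_cast (hr i).2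
    nlinarith
  refine ⟨fun i => ⟨x i, (hr i).1⟩, fun i => by linarith [d1 i], fun i j hij => ⟨?_, ?_⟩⟩
  · change 1 ≤ a * G.dist (x i) (x j)
    have : ⌈a⁻¹⌉₊ ≤ G.dist (x i) (x j) := by
      by_contra hc
      exact hx2 i j hij ((rk_of_reach hG ((hr i).1.symm.trans (hr j).1)).mono (by omega))
    have : (⌈a⁻¹⌉₊ : ℝ) ≤ G.dist (x i) (x j) := by exact_mod_cast this
    nlinarith
  · refine (dist_triangle_right _ _ (rescaled G ρ a b ha).root).trans ?_
    linarith [d1 i, d1 j]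

theorem not_close_of_inf (hG : ∀ S T, G.Adj S T ↔ adj D S T) {ρ ρ' : Sq} (h2 : Rk D 2 ρ ρ')
    (h : InfDeg D ρ') {a b η : ℝ} (ha : 0 < a) (hb : 0 < b) (h0 : 0 < η) (haη : 3 * a ≤ η⁻¹)
    (B : BCMM) : ¬ Close η (rescaled G ρ a b ha) B.toPMM := by
  rintro ⟨Z, _, f, g, hf, hg, h1, -, -, h4, -⟩
  have := B.proper
  have := B.locFin
  have h5 := h4 (closedBall (rescaled G ρ a b ha).root (3 * a)) (closedBall_subset_closedBall haη)
    isClosed_closedBall
  have hinf : (closedBall (rescaled G ρ a b ha).root (3 * a)).Infinite := by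
    intro hf
    obtain ⟨T, h1, h3⟩ := h (hf.image Subtype.val).toFinset
    have := (h2.trans h3.rk).dist_le hG
    refine h1 ((Finite.mem_toFinset _).2 ⟨⟨T, this.1⟩, ?_, rfl⟩)
    change a * G.dist T ρ ≤ 3 * a
    rw [SimpleGraph.dist_comm]
    have : (G.dist ρ T : ℝ) ≤ 3 := by exact_mod_cast this.2
    nlinarith
  have h6 : (rescaled G ρ a b ha).μ (closedBall (rescaled G ρ a b ha).root (3 * a)) = ∞ := by
    have e : (rescaled G ρ a b ha).μ =
        ENNReal.ofReal b • (Measure.count : Measure (rescaled G ρ a b ha).X) := rfl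
    rw [e, Measure.smul_apply, Measure.count_apply_infinite hinf, smul_eq_mul, ENNReal.mul_top]
    simpa using hb
  have h7 : g ⁻¹' cthickening η (f '' closedBall (rescaled G ρ a b ha).root (3 * a)) ⊆
      closedBall B.root (η + 1 + 3 * a + η) := by
    intro y hy
    obtain ⟨_, ⟨x, hx, rfl⟩, hz⟩ := mem_thickening_iff.1
      (cthickening_subset_thickening' (by linarith) (lt_add_one η) _ hy)
    have := dist_triangle4 (g y) (f x) (f (rescaled G ρ a b ha).root) (g B.root)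
    rw [hg.dist_eq, hf.dist_eq] at this
    rw [mem_closedBall] at hx ⊢
    linarith
  rw [h6, top_le_iff, ENNReal.add_eq_top] at h5
  rcases h5 with h5 | h5
  · exact ((measure_mono h7).trans_lt (isCompact_closedBall _ _).measure_lt_top).ne h5
  · exact ENNReal.ofReal_ne_top h5

theorem TF_disc {ρ : Sq} {a a' b R : ℝ} (ha : 0 < a) (h : a' ≤ a) :
    TF 2 R a' (rescaled G ρ a b ha) ≤ 0 := by
  refine TF_le le_rfl fun t ht _ ⟨x, _, hx⟩ => ?_
  obtain ⟨h1, h2⟩ := hx 0 1 (by decide)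
  change t ≤ a * G.dist (x 0).1 (x 1).1 at h1
  change a * G.dist (x 0).1 (x 1).1 ≤ a' - t at h2
  rcases Nat.eq_zero_or_pos (G.dist (x 0).1 (x 1).1) with h3 | h3
  · rw [h3] at h1; simpa using h1
  · have : (1 : ℝ) ≤ G.dist (x 0).1 (x 1).1 := by exact_mod_cast h3
    nlinarith

end Graph

theorem isTile_iff {Q ε : ℝ} (hε : 0 < ε) (x : Sq → ℝ) (S : Sq) :
    IsTile Q ε x S ↔ tile (DD Q x (Real.log ε)) S := by
  have key : ∀ T, mass Q x T ≤ ε ↔ DD Q x (Real.log ε) T := fun T => by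
    have : mass Q x T = Real.exp (lm Q x T) := by
      rw [mass, Real.rpow_def_of_pos (side_pos T), ← Real.exp_add, log_side, lm]
      congr 1; ring
    rw [this, DD, Real.le_log_iff_exp_le hε]
  refine and_congr (key S) ⟨fun h k hk => ?_, fun h T hT => ?_⟩
  · exact (h _ (ssubset_iff.2 ⟨k, rfl⟩)).not_ge ((key _).2 hk)
  · obtain ⟨k, rfl⟩ := ssubset_iff.1 hT
    exact not_le.1 fun h' => h k ((key _).1 h')

theorem tiling_adj {Q ε : ℝ} (hε : 0 < ε) (x : Sq → ℝ) (S T : Sq) :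
    (tiling Q ε x).Adj S T ↔ adj (DD Q x (Real.log ε)) S T := by
  unfold adj
  rw [← isTile_iff hε, ← isTile_iff hε]
  rfl

end Pool.Agent.Lib.MP_d1f1b2_pr
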