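import Mathlib

open Set Filter MeasureTheory ProbabilityTheory
open scoped ENNReal

namespace Pool.Agent.Lib.MP_d1f1b2_pr

variable {Ω : Type*} {mΩ : MeasurableSpace Ω} {P : Measure Ω} {T : Type*}

structure CG (X : T → Ω → ℝ) (P : Measure Ω) (c : T → T → ℝ) : Prop where
  gauss : IsGaussianProcess X P
  meas : ∀ t, Measurable (X t)
  mean : ∀ t, ∫ ω, X t ω ∂P = 0
  cov : ∀ s t, cov[X s, X t; P] = c s t

noncomputable def ee (x : ℝ) : ℝ≥0∞ := ENNReal.ofReal (Real.exp x)

theorem ee_add (x y : ℝ) : ee (x + y) = ee x * ee y := by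
  rw [ee, ee, ee, Real.exp_add, ENNReal.ofReal_mul (Real.exp_pos _).le]

theorem ee_mono {x y : ℝ} (h : x ≤ y) : ee x ≤ ee y :=
  ENNReal.ofReal_le_ofReal (Real.exp_le_exp.2 h)

@[simp] theorem ee_zero : ee 0 = 1 := by simp [ee]

theorem ee_ne_top (x : ℝ) : ee x ≠ ∞ := ENNReal.ofReal_ne_top

theorem one_le_ee {x : ℝ} (h : 0 ≤ x) : 1 ≤ ee x := by simpa using ee_mono h

@[fun_prop] theorem meas_ee : Measurable ee := by unfold ee; fun_prop

theorem lint_gauss {Y : Ω → ℝ} (h : HasGaussianLaw Y P) (hm : ∫ ω, Y ω ∂P = 0) :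
    ∫⁻ ω, ee (Y ω) ∂P = ee (Var[Y; P] / 2) := by
  have h1 := h.map_eq_gaussianReal
  have h2 := mgf_gaussianReal h1 1
  have h3 : Integrable (fun ω => Real.exp (1 * Y ω)) P := by
    have := integrable_exp_mul_gaussianReal (μ := P[Y]) (v := Var[Y; P].toNNReal) 1
    rw [← h1] at this
    exact (integrable_map_measure (by fun_prop) h.aemeasurable).1 this
  rw [mgf] at h2
  simp only [one_mul] at h2 h3
  unfold ee
  rw [← ofReal_integral_eq_lintegral_ofReal h3 (ae_of_all _ fun ω => (Real.exp_pos _).le), h2]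
  simp [hm, variance_nonneg]

namespace CG
variable {X : T → Ω → ℝ} {c : T → T → ℝ}

theorem prob (h : CG X P c) : IsProbabilityMeasure P := h.gauss.isProbabilityMeasure

theorem l2 (h : CG X P c) (t : T) : MemLp (X t) 2 P := (h.gauss.hasGaussianLaw_eval t).memLp_two

theorem symm (h : CG X P c) (s t : T) : c s t = c t s := by
  rw [← h.cov, ← h.cov, covariance_comm]

theorem lin {ι κ : Type*} [Fintype κ] (h : CG X P c) (f : ι → κ → T) (w : ι → κ → ℝ) :
    CG (fun i ω => ∑ k, w i k * X (f i k) ω) P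
      fun i j => ∑ k, ∑ l, w i k * w j l * c (f i k) (f j l) := by
  classical
  have := h.prob
  refine ⟨h.gauss.of_isGaussianProcess fun i => ⟨Finset.univ.image (f i),
    ∑ k, w i k • ContinuousLinearMap.proj (R := ℝ) (φ := fun _ : Finset.univ.image (f i) => ℝ)
      ⟨f i k, Finset.mem_image_of_mem _ (Finset.mem_univ k)⟩, fun ω => by simp⟩,
    fun i => Finset.measurable_sum _ fun k _ => (h.meas _).const_mul _, fun i => ?_, fun i j => ?_⟩
  · rw [integral_finsetSum _ fun k _ => ((h.l2 _).integrable one_le_two).const_mul _]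
    simp [integral_const_mul, h.mean]
  · rw [covariance_fun_sum_fun_sum (fun k => (h.l2 _).const_mul _) (fun k => (h.l2 _).const_mul _)]
    simp only [covariance_const_mul_left, covariance_const_mul_right, h.cov]
    exact Finset.sum_congr rfl fun _ _ => Finset.sum_congr rfl fun _ _ => by ring

theorem mgf1 (h : CG X P c) (t : T) : ∫⁻ ω, ee (X t ω) ∂P = ee (c t t / 2) := by
  rw [lint_gauss (h.gauss.hasGaussianLaw_eval t) (h.mean t), ← h.cov,
    covariance_self (h.meas t).aemeasurable]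

theorem mgf3 (h : CG X P c) (s t u : T) (α β γ δ : ℝ) :
    ∫⁻ ω, ee (α * X s ω + β * X t ω + γ * X u ω + δ) ∂P =
      ee ((α ^ 2 * c s s + β ^ 2 * c t t + γ ^ 2 * c u u) / 2 + α * β * c s t + α * γ * c s u +
        β * γ * c t u + δ) := by
  have h1 := (h.lin (ι := Unit) (fun _ => ![s, t, u]) (fun _ => ![α, β, γ])).mgf1 ()
  simp only [Fin.sum_univ_three, Matrix.cons_val_zero, Matrix.cons_val_one, Matrix.cons_val] at h1
  simp only [ee_add _ δ]
  have hm := h.meas
  rw [lintegral_mul_const _ (by fun_prop), h1, h.symm t s, h.symm u s,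
    h.symm u t]
  congr 2; ring

theorem mgf1' (h : CG X P c) (s : T) (α δ : ℝ) :
    ∫⁻ ω, ee (α * X s ω + δ) ∂P = ee (α ^ 2 * c s s / 2 + δ) := by
  simpa using h.mgf3 s s s α 0 0 δ

theorem comb {ι : Type*} (h : CG X P c) (f : ι → T) (w : ι → ℝ) (t0 : ι → T) :
    CG (fun i ω => X (f i) ω - w i * X (t0 i) ω) P fun i j =>
      c (f i) (f j) - w j * c (f i) (t0 j) - w i * c (t0 i) (f j) + w i * w j * c (t0 i) (t0 j) := by
  convert h.lin (fun i => ![f i, t0 i]) (fun i => ![1, -w i]) using 3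
  · simp [Fin.sum_univ_two]; ring
  · simp [Fin.sum_univ_two]; ring

theorem incr {ι : Type*} (h : CG X P c) (f : ι → T) (t0 : T) :
    CG (fun i ω => X (f i) ω - X t0 ω) P fun i j =>
      c (f i) (f j) - c (f i) t0 - c t0 (f j) + c t0 t0 := by
  simpa using h.comb f (fun _ => 1) (fun _ => t0)

theorem measPi (h : CG X P c) : Measurable fun ω t => X t ω := measurable_pi_lambda _ h.meas

theorem law_eq {Y : T → Ω → ℝ} (h : CG X P c) (h' : CG Y P c) :
    P.map (fun ω t => X t ω) = P.map (fun ω t => Y t ω) := by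
  classical
  have := h.prob
  rw [map_eq_iff_forall_finset_map_restrict_eq h.measPi.aemeasurable h'.measPi.aemeasurable]
  intro I
  have := (h.gauss.hasGaussianLaw I).isGaussian_map
  have := (h'.gauss.hasGaussianLaw I).isGaussian_map
  apply Measure.ext_of_charFunDual
  ext L
  have key : ∀ {Z : T → Ω → ℝ}, CG Z P c → charFunDual (P.map fun ω => I.restrict (Z · ω)) L =
      Complex.exp (-((∑ k : I, ∑ l : I, L (Pi.single k 1) * L (Pi.single l 1) * c k l : ℝ) : ℂ) /
        2) := fun {Z} hZ => by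
    have e : (fun ω => L (I.restrict (Z · ω))) = fun ω => ∑ k : I, L (Pi.single k 1) * Z k ω := by
      ext ω
      conv_lhs => rw [pi_eq_sum_univ' (I.restrict (Z · ω))]
      simp [mul_comm]
    have hl := hZ.lin (ι := Unit) (fun _ (k : I) => k.1) (fun _ k => L (Pi.single k 1))
    rw [(hZ.gauss.hasGaussianLaw I).charFunDual_map_eq_fun, e, hl.mean (),
      ← covariance_self (hl.meas ()).aemeasurable, hl.cov () ()]
    simp [neg_div]
  rw [key h, key h']

theorem prob_eq {Y : T → Ω → ℝ} (h : CG X P c) (h' : CG Y P c) {B : (T → ℝ) → Prop}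
    (hB : Measurable B) : P {ω | B fun t => X t ω} = P {ω | B fun t => Y t ω} := by
  have hB' : MeasurableSet {x | B x} := measurableSet_setOfPred.2 hB
  have h1 := Measure.map_apply (μ := P) h.measPi hB'
  have h2 := Measure.map_apply (μ := P) h'.measPi hB'
  rw [h.law_eq h'] at h1
  exact h1.symm.trans h2

theorem lint_eq {Y : T → Ω → ℝ} (h : CG X P c) (h' : CG Y P c) {F : (T → ℝ) → ℝ≥0∞}
    (hF : Measurable F) : ∫⁻ ω, F (fun t => X t ω) ∂P = ∫⁻ ω, F (fun t => Y t ω) ∂P := by
  rw [← lintegral_map hF h.measPi, ← lintegral_map hF h'.measPi, h.law_eq h']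

theorem shift (h : CG X P c) (t0 : T) (hv : 0 < c t0 t0) {B : (T → ℝ) → Prop} (hB : Measurable B)
    (hpos : P {ω | B fun t => X t ω - c t t0 / c t0 t0 * X t0 ω} ≠ 0) (a : ℝ) :
    P {ω | B (fun t => X t ω - c t t0 / c t0 t0 * X t0 ω) ∧ X t0 ω ≤ a} ≠ 0 := by
  have := h.prob
  have h1 := h.comb (ι := T ⊕ Unit) (Sum.elim id fun _ => t0)
    (Sum.elim (fun t => c t t0 / c t0 t0) fun _ => 0) (fun _ => t0)
  have e : (fun (i : T ⊕ Unit) ω => X (Sum.elim id (fun _ => t0) i) ω -
      Sum.elim (fun t => c t t0 / c t0 t0) (fun _ => 0) i * X t0 ω) =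
      Sum.elim (fun t ω => X t ω - c t t0 / c t0 t0 * X t0 ω) (fun _ ω => X t0 ω) := by
    ext (t | t) ω <;> simp
  rw [e] at h1
  have hind := h1.gauss.indepFun_of_covariance_eq_zero
    (fun s => (h1.meas (.inl s)).aemeasurable) (fun s => (h1.meas (.inr s)).aemeasurable)
    (fun s t => by
      have := h1.cov (.inl s) (.inr t)
      simp only [Sum.elim_inl, Sum.elim_inr, id, zero_mul, sub_zero, mul_zero, add_zero] at this
      rw [this]; field_simp; ring)
  have hm := hind.measure_inter_preimage_eq_mul {x | B x} {y | y () ≤ a}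
    (measurableSet_setOfPred.2 hB) (measurableSet_le (measurable_pi_apply _) measurable_const)
  have h2 : P {ω | X t0 ω ≤ a} ≠ 0 := by
    have hl := (h.gauss.hasGaussianLaw_eval t0).map_eq_gaussianReal
    have : P {ω | X t0 ω ≤ a} = (P.map (X t0)) (Iic a) := by
      rw [Measure.map_apply (h.meas _) measurableSet_Iic]; rfl
    rw [this, hl]
    intro h0
    have := gaussianReal_absolutelyContinuous' _ (v := Var[X t0; P].toNNReal) (by
      rw [← covariance_self (h.meas _).aemeasurable, h.cov]; simpa using hv) h0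
    simp at this
  exact fun h0 => mul_ne_zero hpos h2 (hm.symm.trans h0)

theorem tail_le (h : CG X P c) (s : T) {θ : ℝ} (hθ : 0 ≤ θ) (x : ℝ) :
    P {ω | X s ω ≤ x} ≤ ee (θ ^ 2 * c s s / 2 + θ * x) := by
  have := h.mgf1' s (-θ) (θ * x)
  rw [neg_sq] at this
  rw [← this, ← lintegral_indicator_one (measurableSet_le (h.meas _) measurable_const)]
  refine lintegral_mono fun ω => ?_
  by_cases hω : X s ω ≤ x
  · rw [indicator_of_mem (by exact hω)]
    exact one_le_ee (by nlinarith)
  · rw [indicator_of_notMem (by exact hω)]; exact zero_le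

theorem tail_ge (h : CG X P c) (s : T) {θ : ℝ} (hθ : 0 ≤ θ) (x : ℝ) :
    P {ω | x ≤ X s ω} ≤ ee (θ ^ 2 * c s s / 2 - θ * x) := by
  have := h.mgf1' s θ (-(θ * x))
  rw [sub_eq_add_neg, ← this,
    ← lintegral_indicator_one (measurableSet_le measurable_const (h.meas _))]
  refine lintegral_mono fun ω => ?_
  by_cases hω : x ≤ X s ω
  · rw [indicator_of_mem (by exact hω)]
    exact one_le_ee (by nlinarith)
  · rw [indicator_of_notMem (by exact hω)]; exact zero_le

end CG

end Pool.Agent.Lib.MP_d1f1b2_pr
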