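import Pool.Agent.Lib.MP_d1f1b2_pr.Defs

open Set

namespace Pool.Agent.Lib.MP_d1f1b2_pr

theorem Sq.ext' {S T : Sq} (h1 : S.n = T.n) (h2 : S.i = T.i) (h3 : S.j = T.j) : S = T := by
  cases S; cases T; simp_all

instance : DecidableEq Sq := fun S T =>
  decidable_of_iff (S.n = T.n ∧ S.i = T.i ∧ S.j = T.j)
    ⟨fun h => Sq.ext' h.1 h.2.1 h.2.2, fun h => by subst h; exact ⟨rfl, rfl, rfl⟩⟩

instance : Countable Sq :=
  Function.Injective.countable (f := fun S : Sq => (S.n, S.i, S.j)) (fun S T h => by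
    simp only [Prod.mk.injEq] at h
    exact Sq.ext' h.1 h.2.1 h.2.2)

def anc (S : Sq) (k : ℕ) : Sq := ⟨S.n - k, S.i / 2 ^ k, S.j / 2 ^ k⟩

def sub (U : Sq) (m : ℕ) (a b : ℤ) : Sq := ⟨U.n + m, U.i * 2 ^ m + a, U.j * 2 ^ m + b⟩

def sc (m : ℤ) (S : Sq) : Sq := ⟨S.n + m, S.i, S.j⟩

def In (m : ℕ) (a b : ℤ) : Prop := 0 ≤ a ∧ a < 2 ^ m ∧ 0 ≤ b ∧ b < 2 ^ m

theorem p2pos (k : ℕ) : (0 : ℤ) < 2 ^ k := by positivity

@[simp] theorem anc_zero (S : Sq) : anc S 0 = S := by simp [anc]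

theorem div_div (a : ℤ) (k l : ℕ) : a / 2 ^ k / 2 ^ l = a / 2 ^ (k + l) := by
  rw [pow_add, Int.ediv_ediv_of_nonneg (p2pos k).le]

theorem anc_anc (S : Sq) (k l : ℕ) : anc (anc S k) l = anc S (k + l) := by
  apply Sq.ext'
  · simp [anc]; ring
  · simp [anc, div_div]
  · simp [anc, div_div]

theorem anc_n (S : Sq) (k : ℕ) : (anc S k).n = S.n - k := rfl

theorem div_eq_iff {a q : ℤ} {k : ℕ} : a / 2 ^ k = q ↔ q * 2 ^ k ≤ a ∧ a < (q + 1) * 2 ^ k := by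
  have hp := p2pos k
  constructor
  · rintro rfl
    exact ⟨Int.ediv_mul_le _ hp.ne', Int.lt_ediv_add_one_mul_self _ hp⟩
  · rintro ⟨h1, h2⟩
    apply le_antisymm
    · have : a / 2 ^ k < q + 1 := (Int.ediv_lt_iff_lt_mul hp).2 h2
      omega
    · exact (Int.le_ediv_iff_mul_le hp).2 h1

theorem add_div (u a : ℤ) {m k : ℕ} (hk : k ≤ m) :
    (u * 2 ^ m + a) / 2 ^ k = u * 2 ^ (m - k) + a / 2 ^ k := by
  have : u * 2 ^ m = u * 2 ^ (m - k) * 2 ^ k := by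
    rw [mul_assoc, ← pow_add, Nat.sub_add_cancel hk]
  rw [this, add_comm, Int.add_mul_ediv_right _ _ (p2pos k).ne', add_comm]

theorem anc_sub (U : Sq) {m k : ℕ} (hk : k ≤ m) (a b : ℤ) :
    anc (sub U m a b) k = sub U (m - k) (a / 2 ^ k) (b / 2 ^ k) := by
  apply Sq.ext'
  · simp [anc, sub, Nat.cast_sub hk]; ring
  · simp [anc, sub, add_div _ _ hk]
  · simp [anc, sub, add_div _ _ hk]

@[simp] theorem sub_zero' (U : Sq) : sub U 0 0 0 = U := by simp [sub]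

theorem div_lt {a : ℤ} {m k : ℕ} (hk : k ≤ m) (h : a < 2 ^ m) : a / 2 ^ k < 2 ^ (m - k) := by
  rw [Int.ediv_lt_iff_lt_mul (p2pos k), ← pow_add, Nat.sub_add_cancel hk]; exact h

theorem In.div {m k : ℕ} {a b : ℤ} (h : In m a b) (hk : k ≤ m) :
    In (m - k) (a / 2 ^ k) (b / 2 ^ k) :=
  ⟨Int.ediv_nonneg h.1 (p2pos k).le, div_lt hk h.2.1, Int.ediv_nonneg h.2.2.1 (p2pos k).le,
    div_lt hk h.2.2.2⟩

theorem anc_sub_self (U : Sq) {m : ℕ} {a b : ℤ} (h : In m a b) : anc (sub U m a b) m = U := by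
  rw [anc_sub U le_rfl, Nat.sub_self]
  have := h.div (le_refl m)
  simp only [In, Nat.sub_self, pow_zero] at this
  have h1 : a / 2 ^ m = 0 := by omega
  have h2 : b / 2 ^ m = 0 := by omega
  rw [h1, h2, sub_zero']

theorem eq_sub_anc (T : Sq) (k : ℕ) :
    T = sub (anc T k) k (T.i % 2 ^ k) (T.j % 2 ^ k) ∧ In k (T.i % 2 ^ k) (T.j % 2 ^ k) := by
  have hp := p2pos k
  refine ⟨Sq.ext' ?_ ?_ ?_, Int.emod_nonneg _ hp.ne', Int.emod_lt_of_pos _ hp,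
    Int.emod_nonneg _ hp.ne', Int.emod_lt_of_pos _ hp⟩
  · simp [sub, anc]
  · simp only [sub, anc]; rw [mul_comm]; exact (Int.mul_ediv_add_emod _ _).symm
  · simp only [sub, anc]; rw [mul_comm]; exact (Int.mul_ediv_add_emod _ _).symm

theorem sub_sub' (U : Sq) (m m' : ℕ) (a b a' b' : ℤ) :
    sub (sub U m a b) m' a' b' = sub U (m + m') (a * 2 ^ m' + a') (b * 2 ^ m' + b') := by
  apply Sq.ext'
  · simp [sub]; ring
  · simp [sub]; ring
  · simp [sub]; ring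

theorem anc_sc (m : ℤ) (S : Sq) (k : ℕ) : anc (sc m S) k = sc m (anc S k) := by
  apply Sq.ext' <;> simp [anc, sc]; ring

theorem sc_sc (m m' : ℤ) (S : Sq) : sc m (sc m' S) = sc (m' + m) S := by
  apply Sq.ext' <;> simp [sc]; ring

@[simp] theorem sc_zero (S : Sq) : sc 0 S = S := by simp [sc]

theorem sc_inj (m : ℤ) {S T : Sq} (h : sc m S = sc m T) : S = T := by
  have := congrArg (sc (-m)) h
  simpa [sc_sc] using this

theorem side_pos (S : Sq) : 0 < S.side := zpow_pos two_pos _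

theorem side_of_n {S T : Sq} {k : ℕ} (h : T.n = S.n - k) : T.side = 2 ^ k * S.side := by
  simp only [Sq.side, h]
  rw [← zpow_natCast, ← zpow_add₀ two_ne_zero]; congr 1; ring

theorem side_anc (S : Sq) (k : ℕ) : (anc S k).side = 2 ^ k * S.side := side_of_n rfl

theorem carrier_sub_anc (S : Sq) (k : ℕ) : S.carrier ⊆ (anc S k).carrier := by
  rintro z ⟨h1, h2, h3, h4⟩
  have hs := side_pos S
  have hi := (div_eq_iff (a := S.i) (k := k)).1 rfl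
  have hj := (div_eq_iff (a := S.j) (k := k)).1 rfl
  have hi1 : (((S.i / 2 ^ k : ℤ) : ℝ)) * 2 ^ k ≤ S.i := by exact_mod_cast hi.1
  have hi2 : (S.i : ℝ) + 1 ≤ (((S.i / 2 ^ k : ℤ) : ℝ) + 1) * 2 ^ k := by
    exact_mod_cast Int.add_one_le_of_lt hi.2
  have hj1 : (((S.j / 2 ^ k : ℤ) : ℝ)) * 2 ^ k ≤ S.j := by exact_mod_cast hj.1
  have hj2 : (S.j : ℝ) + 1 ≤ (((S.j / 2 ^ k : ℤ) : ℝ) + 1) * 2 ^ k := by
    exact_mod_cast Int.add_one_le_of_lt hj.2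
  simp only [Sq.carrier, side_anc, mem_ofPred_eq]
  simp only [anc]
  refine ⟨?_, ?_, ?_, ?_⟩
  · nlinarith [mul_le_mul_of_nonneg_right hi1 hs.le]
  · nlinarith [mul_le_mul_of_nonneg_right hi2 hs.le]
  · nlinarith [mul_le_mul_of_nonneg_right hj1 hs.le]
  · nlinarith [mul_le_mul_of_nonneg_right hj2 hs.le]

theorem n_le_of_side_le {S T : Sq} (h : S.side ≤ T.side) : T.n ≤ S.n := by
  simp only [Sq.side] at h
  have := (zpow_le_zpow_iff_right₀ (one_lt_two (α := ℝ))).1 h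
  omega

theorem anc_of_subset {S T : Sq} (h : S.carrier ⊆ T.carrier) : ∃ k, T = anc S k := by
  have hs := side_pos S
  have h1 : (⟨S.i * S.side, S.j * S.side⟩ : ℂ) ∈ S.carrier := by
    refine ⟨le_rfl, ?_, le_rfl, ?_⟩ <;> simp only <;> nlinarith
  have h2 : (⟨(S.i + 1) * S.side, (S.j + 1) * S.side⟩ : ℂ) ∈ S.carrier := by
    refine ⟨?_, le_rfl, ?_, le_rfl⟩ <;> simp only <;> nlinarith
  obtain ⟨a1, -, a3, -⟩ := h h1
  obtain ⟨-, b2, -, b4⟩ := h h2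
  simp only at a1 a3 b2 b4
  have hn : T.n ≤ S.n := n_le_of_side_le (by nlinarith)
  obtain ⟨k, hk⟩ := Int.le.dest hn
  have hside : T.side = 2 ^ k * S.side := side_of_n (by omega)
  rw [hside] at a1 a3 b2 b4
  have c1 : (T.i : ℝ) * 2 ^ k ≤ S.i := le_of_mul_le_mul_right (by nlinarith) hs
  have c2 : (S.i : ℝ) + 1 ≤ (T.i + 1) * 2 ^ k := le_of_mul_le_mul_right (by nlinarith) hs
  have c3 : (T.j : ℝ) * 2 ^ k ≤ S.j := le_of_mul_le_mul_right (by nlinarith) hs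
  have c4 : (S.j : ℝ) + 1 ≤ (T.j + 1) * 2 ^ k := le_of_mul_le_mul_right (by nlinarith) hs
  have d1 : T.i * 2 ^ k ≤ S.i := by exact_mod_cast c1
  have d2 : S.i + 1 ≤ (T.i + 1) * 2 ^ k := by exact_mod_cast c2
  have d3 : T.j * 2 ^ k ≤ S.j := by exact_mod_cast c3
  have d4 : S.j + 1 ≤ (T.j + 1) * 2 ^ k := by exact_mod_cast c4
  refine ⟨k, Sq.ext' (by simp [anc]; omega) ?_ ?_⟩
  · exact (div_eq_iff.2 ⟨d1, by omega⟩).symm
  · exact (div_eq_iff.2 ⟨d3, by omega⟩).symm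

theorem ssubset_iff {S T : Sq} : S.carrier ⊂ T.carrier ↔ ∃ k, T = anc S (k + 1) := by
  constructor
  · intro h
    obtain ⟨k, rfl⟩ := anc_of_subset h.1
    cases k with
    | zero => simp at h
    | succ k => exact ⟨k, rfl⟩
  · rintro ⟨k, rfl⟩
    refine ⟨carrier_sub_anc _ _, fun h => ?_⟩
    obtain ⟨l, hl⟩ := anc_of_subset h
    have := congrArg Sq.n hl
    simp only [anc] at this
    push_cast at this
    omega

/-- integer form of a nonempty intersection -/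
theorem inter_int {S T : Sq} {k : ℕ} (hn : T.n = S.n - k) (h : (S.carrier ∩ T.carrier).Nonempty) :
    T.i * 2 ^ k ≤ S.i + 1 ∧ S.i ≤ (T.i + 1) * 2 ^ k ∧
      T.j * 2 ^ k ≤ S.j + 1 ∧ S.j ≤ (T.j + 1) * 2 ^ k := by
  obtain ⟨z, ⟨a1, a2, a3, a4⟩, b1, b2, b3, b4⟩ := h
  have hs := side_pos S
  rw [side_of_n hn] at b1 b2 b3 b4
  have c1 : (T.i : ℝ) * 2 ^ k ≤ S.i + 1 := le_of_mul_le_mul_right (by nlinarith) hs
  have c2 : (S.i : ℝ) ≤ (T.i + 1) * 2 ^ k := le_of_mul_le_mul_right (by nlinarith) hs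
  have c3 : (T.j : ℝ) * 2 ^ k ≤ S.j + 1 := le_of_mul_le_mul_right (by nlinarith) hs
  have c4 : (S.j : ℝ) ≤ (T.j + 1) * 2 ^ k := le_of_mul_le_mul_right (by nlinarith) hs
  exact ⟨by exact_mod_cast c1, by exact_mod_cast c2, by exact_mod_cast c3, by exact_mod_cast c4⟩

def Sh (S T : Sq) : Prop := ∃ z w : ℂ, z ≠ w ∧ segment ℝ z w ⊆ S.carrier ∩ T.carrier

theorem Sh.symm {S T : Sq} (h : Sh S T) : Sh T S := by
  obtain ⟨z, w, h1, h2⟩ := h
  exact ⟨z, w, h1, by rwa [inter_comm]⟩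

theorem Sh.nonempty {S T : Sq} (h : Sh S T) : (S.carrier ∩ T.carrier).Nonempty := by
  obtain ⟨z, w, -, h2⟩ := h
  exact ⟨z, h2 (left_mem_segment ℝ z w)⟩

theorem Sh.anc {S T : Sq} (h : Sh S T) (k l : ℕ) : Sh (anc S k) (anc T l) := by
  obtain ⟨z, w, h1, h2⟩ := h
  exact ⟨z, w, h1, h2.trans (inter_subset_inter (carrier_sub_anc _ _) (carrier_sub_anc _ _))⟩

theorem convex_carrier (S : Sq) : Convex ℝ S.carrier := by
  rintro z ⟨a1, a2, a3, a4⟩ w ⟨b1, b2, b3, b4⟩ s t hs ht hst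
  simp only [Sq.carrier, mem_ofPred_eq, Complex.add_re, Complex.add_im, Complex.smul_re,
    Complex.smul_im, smul_eq_mul]
  have e : ∀ c : ℝ, c = s * c + t * c := fun c => by rw [← add_mul, hst, one_mul]
  refine ⟨?_, ?_, ?_, ?_⟩
  · rw [e (S.i * S.side)]; gcongr
  · rw [e ((S.i + 1) * S.side)]; gcongr
  · rw [e (S.j * S.side)]; gcongr
  · rw [e ((S.j + 1) * S.side)]; gcongr

theorem sh_of_two {S T : Sq} {z w : ℂ} (h : z ≠ w) (hz : z ∈ S.carrier ∩ T.carrier)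
    (hw : w ∈ S.carrier ∩ T.carrier) : Sh S T :=
  ⟨z, w, h, ((convex_carrier S).inter (convex_carrier T)).segment_subset hz hw⟩

theorem sh_horiz (n i j : ℤ) : Sh ⟨n, i, j⟩ ⟨n, i + 1, j⟩ := by
  have hs : 0 < (2 : ℝ) ^ (-n) := zpow_pos two_pos _
  refine sh_of_two (z := ⟨(i + 1) * 2 ^ (-n), j * 2 ^ (-n)⟩)
    (w := ⟨(i + 1) * 2 ^ (-n), (j + 1) * 2 ^ (-n)⟩) ?_ ?_ ?_
  · intro h
    have := congrArg Complex.im h
    simp only at this
    nlinarith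
  all_goals
    simp only [Sq.carrier, Sq.side, mem_inter_iff, mem_ofPred_eq]
    push_cast
    refine ⟨⟨?_, ?_, ?_, ?_⟩, ?_, ?_, ?_, ?_⟩ <;> nlinarith

theorem sh_vert (n i j : ℤ) : Sh ⟨n, i, j⟩ ⟨n, i, j + 1⟩ := by
  have hs : 0 < (2 : ℝ) ^ (-n) := zpow_pos two_pos _
  refine sh_of_two (z := ⟨i * 2 ^ (-n), (j + 1) * 2 ^ (-n)⟩)
    (w := ⟨(i + 1) * 2 ^ (-n), (j + 1) * 2 ^ (-n)⟩) ?_ ?_ ?_
  · intro h
    have := congrArg Complex.re h
    simp only at this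
    nlinarith
  all_goals
    simp only [Sq.carrier, Sq.side, mem_inter_iff, mem_ofPred_eq]
    push_cast
    refine ⟨⟨?_, ?_, ?_, ?_⟩, ?_, ?_, ?_, ?_⟩ <;> nlinarith

theorem side_sc (m : ℤ) (S : Sq) : (sc m S).side = 2 ^ (-m) * S.side := by
  simp only [Sq.side, sc]
  rw [← zpow_add₀ two_ne_zero]; congr 1; ring

theorem mem_sc {m : ℤ} {S : Sq} {z : ℂ} (h : z ∈ S.carrier) :
    ((2 : ℝ) ^ (-m)) • z ∈ (sc m S).carrier := by
  obtain ⟨a1, a2, a3, a4⟩ := h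
  have hs : 0 < (2 : ℝ) ^ (-m) := zpow_pos two_pos _
  simp only [Sq.carrier, mem_ofPred_eq, side_sc, Complex.smul_re, Complex.smul_im, smul_eq_mul]
  simp only [sc]
  refine ⟨?_, ?_, ?_, ?_⟩ <;> nlinarith

theorem Sh.sc {S T : Sq} (h : Sh S T) (m : ℤ) : Sh (sc m S) (sc m T) := by
  obtain ⟨z, w, h1, h2⟩ := h
  have hz := h2 (left_mem_segment ℝ z w)
  have hw := h2 (right_mem_segment ℝ z w)
  have hs : (2 : ℝ) ^ (-m) ≠ 0 := (zpow_pos two_pos _).ne'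
  exact sh_of_two (fun h => h1 (smul_right_injective ℂ hs h)) ⟨mem_sc hz.1, mem_sc hz.2⟩
    ⟨mem_sc hw.1, mem_sc hw.2⟩

theorem zero_mem {S : Sq} (h : (0 : ℂ) ∈ S.carrier) :
    (S.i = 0 ∨ S.i = -1) ∧ (S.j = 0 ∨ S.j = -1) := by
  obtain ⟨a1, a2, a3, a4⟩ := h
  have hs := side_pos S
  simp only [Complex.zero_re, Complex.zero_im] at a1 a2 a3 a4
  have c1 : (S.i : ℝ) ≤ 0 := by nlinarith
  have c2 : (0 : ℝ) ≤ S.i + 1 := by nlinarith
  have c3 : (S.j : ℝ) ≤ 0 := by nlinarith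
  have c4 : (0 : ℝ) ≤ S.j + 1 := by nlinarith
  have d1 : S.i ≤ 0 := by exact_mod_cast c1
  have d2 : 0 ≤ S.i + 1 := by exact_mod_cast c2
  have d3 : S.j ≤ 0 := by exact_mod_cast c3
  have d4 : 0 ≤ S.j + 1 := by exact_mod_cast c4
  omega

end Pool.Agent.Lib.MP_d1f1b2_pr
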