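import Pool.Agent.Lib.MP_d1f1b2_pr.Geo

open Set Filter

namespace Pool.Agent.Lib.MP_d1f1b2_pr

def tile (D : Sq → Prop) (S : Sq) : Prop := D S ∧ ∀ k, ¬ D (anc S (k + 1))

def alive (D : Sq → Prop) (S : Sq) : Prop := ∀ k, ¬ D (anc S k)

def adj (D : Sq → Prop) (S T : Sq) : Prop := S ≠ T ∧ tile D S ∧ tile D T ∧ Sh S T

theorem adj.symm {D : Sq → Prop} {S T : Sq} (h : adj D S T) : adj D T S :=
  ⟨h.1.symm, h.2.2.1, h.2.1, h.2.2.2.symm⟩

def Rk (D : Sq → Prop) : ℕ → Sq → Sq → Prop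
  | 0, S, T => S = T
  | k + 1, S, T => Rk D k S T ∨ ∃ U, Rk D k S U ∧ adj D U T

def Ends (K L : ℕ) (D : Sq → Prop) (ρ : Sq) : Prop :=
  ∀ r : ℕ, ∃ x : Fin K → Sq, (∀ i, Rk D (r + L) ρ (x i)) ∧ ∀ i j, i ≠ j → ¬ Rk D r (x i) (x j)

def InfDeg (D : Sq → Prop) (ρ : Sq) : Prop := ∀ F : Finset Sq, ∃ T, T ∉ F ∧ adj D ρ T

def Bad (K L : ℕ) (D : Sq → Prop) (ρ : Sq) : Prop := tile D ρ ∧ (Ends K L D ρ ∨ InfDeg D ρ)

section Rk
variable {D : Sq → Prop}

theorem Rk.refl (k : ℕ) (S : Sq) : Rk D k S S := by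
  induction k with
  | zero => rfl
  | succ k ih => exact Or.inl ih

theorem Rk.mono {k l : ℕ} {S T : Sq} (h : Rk D k S T) (hkl : k ≤ l) : Rk D l S T := by
  induction hkl with
  | refl => exact h
  | step _ ih => exact Or.inl ih

theorem Rk.trans {k l : ℕ} {S T U : Sq} (h : Rk D k S T) (h' : Rk D l T U) :
    Rk D (k + l) S U := by
  induction l generalizing U with
  | zero => cases h'; exact h
  | succ l ih =>
    rcases h' with h' | ⟨V, h1, h2⟩
    · exact Or.inl (ih h')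
    · exact Or.inr ⟨V, ih h1, h2⟩

theorem adj.rk {S T : Sq} (h : adj D S T) : Rk D 1 S T := Or.inr ⟨S, rfl, h⟩

theorem Rk.symm {k : ℕ} {S T : Sq} (h : Rk D k S T) : Rk D k T S := by
  induction k generalizing T with
  | zero => cases h; rfl
  | succ k ih =>
    rcases h with h | ⟨V, h1, h2⟩
    · exact Or.inl (ih h)
    · have := h2.symm.rk.trans (ih h1)
      rwa [add_comm] at this

theorem Ends.mono {K L L' : ℕ} {ρ : Sq} (h : Ends K L D ρ) (hL : L ≤ L') : Ends K L' D ρ := by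
  intro r
  obtain ⟨x, h1, h2⟩ := h r
  exact ⟨x, fun i => (h1 i).mono (by omega), h2⟩

theorem Bad.mono {K L L' : ℕ} {ρ : Sq} (h : Bad K L D ρ) (hL : L ≤ L') : Bad K L' D ρ :=
  ⟨h.1, h.2.imp (fun h => h.mono hL) id⟩

end Rk

section Meas

theorem meas_apply (S : Sq) : Measurable fun D : Sq → Prop => D S := measurable_pi_apply S

theorem meas_tile (S : Sq) : Measurable fun D : Sq → Prop => tile D S :=
  (meas_apply S).and (Measurable.forall fun _ => (meas_apply _).not)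

theorem meas_alive (S : Sq) : Measurable fun D : Sq → Prop => alive D S :=
  Measurable.forall fun _ => (meas_apply _).not

theorem meas_adj (S T : Sq) : Measurable fun D : Sq → Prop => adj D S T :=
  measurable_const.and ((meas_tile S).and ((meas_tile T).and measurable_const))

theorem meas_Rk (k : ℕ) (S T : Sq) : Measurable fun D : Sq → Prop => Rk D k S T := by
  induction k generalizing T with
  | zero => exact measurable_const
  | succ k ih => exact (ih T).or (Measurable.exists fun U => (ih U).and (meas_adj U T))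

theorem meas_InfDeg (ρ : Sq) : Measurable fun D : Sq → Prop => InfDeg D ρ :=
  Measurable.forall fun _ => Measurable.exists fun _ => measurable_const.and (meas_adj _ _)

theorem meas_Bad (K L : ℕ) (ρ : Sq) : Measurable fun D : Sq → Prop => Bad K L D ρ := by
  refine (meas_tile ρ).and (Measurable.or ?_ (meas_InfDeg ρ))
  exact Measurable.forall fun r => Measurable.exists fun x =>
    (Measurable.forall fun i => meas_Rk _ _ _).and (Measurable.forall fun i =>
      Measurable.forall fun j => measurable_const.imp (meas_Rk _ _ _).not)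

end Meas

section Scale
variable {D : Sq → Prop} {m : ℤ}

theorem tile_sc {S : Sq} : tile (D ∘ sc m) S ↔ tile D (sc m S) := by
  simp [tile, anc_sc]

theorem adj_sc {S T : Sq} : adj (D ∘ sc m) S T ↔ adj D (sc m S) (sc m T) := by
  unfold adj
  rw [tile_sc, tile_sc]
  refine and_congr ⟨fun h h' => h (sc_inj m h'), fun h h' => h (by rw [h'])⟩
    (and_congr_right fun _ => and_congr_right fun _ => ⟨fun h => h.sc m, fun h => ?_⟩)
  simpa [sc_sc] using h.sc (-m)

theorem Rk_sc {k : ℕ} {S T : Sq} : Rk (D ∘ sc m) k S T ↔ Rk D k (sc m S) (sc m T) := by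
  induction k generalizing T with
  | zero => exact ⟨fun h => by cases h; rfl, fun h => sc_inj m h⟩
  | succ k ih =>
    refine or_congr ih ⟨fun ⟨U, h1, h2⟩ => ⟨sc m U, ih.1 h1, adj_sc.1 h2⟩, fun ⟨U, h1, h2⟩ => ?_⟩
    have hU : U = sc m (sc (-m) U) := by simp [sc_sc]
    rw [hU] at h1 h2
    exact ⟨_, ih.2 h1, adj_sc.2 h2⟩

theorem InfDeg_sc {ρ : Sq} : InfDeg (D ∘ sc m) ρ ↔ InfDeg D (sc m ρ) := by
  have hU : ∀ U, sc m (sc (-m) U) = U := fun U => by simp [sc_sc]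
  constructor
  · intro h F
    obtain ⟨T, h1, h2⟩ := h (F.image (sc (-m)))
    refine ⟨sc m T, fun h' => h1 (Finset.mem_image.2 ⟨_, h', by simp [sc_sc]⟩), adj_sc.1 h2⟩
  · intro h F
    obtain ⟨T, h1, h2⟩ := h (F.image (sc m))
    refine ⟨sc (-m) T, fun h' => h1 (Finset.mem_image.2 ⟨_, h', hU T⟩),
      adj_sc.2 (by rw [hU]; exact h2)⟩

theorem Bad_sc {K L : ℕ} {ρ : Sq} : Bad K L (D ∘ sc m) ρ ↔ Bad K L D (sc m ρ) := by
  have hU : ∀ U, sc m (sc (-m) U) = U := fun U => by simp [sc_sc]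
  refine and_congr tile_sc (or_congr ?_ InfDeg_sc)
  refine forall_congr' fun r => ⟨fun ⟨x, h1, h2⟩ => ⟨fun i => sc m (x i),
    fun i => Rk_sc.1 (h1 i), fun i j hij h => h2 i j hij (Rk_sc.2 h)⟩,
    fun ⟨x, h1, h2⟩ => ⟨fun i => sc (-m) (x i), fun i => Rk_sc.2 (by rw [hU]; exact h1 i),
      fun i j hij h => h2 i j hij (by simpa [hU] using Rk_sc.1 h)⟩⟩

end Scale

/-- all large ancestors are unmarked -/
def Top (D : Sq → Prop) : Prop := ∀ S, ∃ k0, ∀ k ≥ k0, ¬ D (anc S k)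

def cor (α : Bool) (m : ℕ) : ℤ := if α then 2 ^ m - 1 else 0

/-- every corner chain is eventually marked -/
def Down (D : Sq → Prop) : Prop := ∀ U α β, ∃ m, D (sub U m (cor α m) (cor β m))

def onSide (σ : Bool × Bool) (m : ℕ) (a b : ℤ) : Prop :=
  if σ.1 then a = cor σ.2 m else b = cor σ.2 m

def LF (D : Sq → Prop) : Prop :=
  ∀ U σ, ∃ m, ∀ a b, In m a b → onSide σ m a b → ¬ alive D (sub U m a b)

def Surv (R : ℕ → ℤ → ℤ → Prop) (p : ℕ × ℤ × ℤ → Prop) : Prop :=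
  ∀ m, ∃ a b, In m a b ∧ R m a b ∧ ∀ k ≤ m, p (m - k, a / 2 ^ k, b / 2 ^ k)

theorem cor_nonneg (α : Bool) (m : ℕ) : 0 ≤ cor α m := by
  have := p2pos m
  unfold cor; split <;> omega

theorem cor_lt (α : Bool) (m : ℕ) : cor α m < 2 ^ m := by
  have := p2pos m
  unfold cor; split <;> omega

theorem in_cor (α β : Bool) (m : ℕ) : In m (cor α m) (cor β m) :=
  ⟨cor_nonneg _ _, cor_lt _ _, cor_nonneg _ _, cor_lt _ _⟩

theorem cor_div (α : Bool) {m k : ℕ} (hk : k ≤ m) : cor α m / 2 ^ k = cor α (m - k) := by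
  unfold cor
  split
  · rw [div_eq_iff]
    have h : (2 : ℤ) ^ m = 2 ^ (m - k) * 2 ^ k := by rw [← pow_add, Nat.sub_add_cancel hk]
    have := p2pos k
    constructor
    · rw [sub_mul, ← h]; omega
    · rw [sub_add_cancel, ← h]; omega
  · simp

theorem cor_add (α : Bool) (m k : ℕ) : cor α m * 2 ^ k + cor α k = cor α (m + k) := by
  unfold cor
  split
  · rw [pow_add]; ring
  · simp

theorem onSide.div {σ : Bool × Bool} {m k : ℕ} {a b : ℤ} (h : onSide σ m a b) (hk : k ≤ m) :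
    onSide σ (m - k) (a / 2 ^ k) (b / 2 ^ k) := by
  unfold onSide at *
  split <;> rename_i h' <;> simp only [h', if_true] at h
  · rw [h, cor_div _ hk]
  · simp only [Bool.false_eq_true, if_false] at h
    rw [h, cor_div _ hk]

section Det
variable {D : Sq → Prop}

theorem alive.anc {S : Sq} (h : alive D S) (k : ℕ) : alive D (anc S k) := fun l => by
  rw [anc_anc]; exact h _

theorem tile.alive_anc {S : Sq} (h : tile D S) (k : ℕ) : alive D (anc S (k + 1)) := fun l => by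
  rw [anc_anc, show k + 1 + l = (k + l) + 1 by omega]; exact h.2 _

theorem exists_tile (hT : Top D) {c : Sq} (h : ¬ alive D c) : ∃ k, tile D (anc c k) := by
  classical
  obtain ⟨k0, hk0⟩ := hT c
  simp only [alive, not_forall, not_not] at h
  obtain ⟨k1, hk1⟩ := h
  have hle : k1 ≤ k0 := by
    by_contra hc
    exact hk0 k1 (by omega) hk1
  refine ⟨Nat.findGreatest (fun k => D (anc c k)) k0, Nat.findGreatest_spec (P := fun k => D (anc c k)) hle hk1,
    fun k hk => ?_⟩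
  rw [anc_anc] at hk
  by_cases hc : Nat.findGreatest (fun k => D (anc c k)) k0 + (k + 1) ≤ k0
  · exact Nat.findGreatest_is_greatest (P := fun k => D (anc c k)) (by omega) hc hk
  · exact hk0 _ (by omega) hk

theorem tile_unique {c : Sq} {k l : ℕ} (h : tile D (anc c k)) (h' : tile D (anc c l)) :
    k = l := by
  rcases lt_trichotomy k l with hlt | heq | hlt
  · obtain ⟨d, rfl⟩ := Nat.exists_eq_add_of_lt hlt
    exact absurd h'.1 (by have := h.2 d; rwa [anc_anc, ← add_assoc] at this)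
  · exact heq
  · obtain ⟨d, rfl⟩ := Nat.exists_eq_add_of_lt hlt
    exact absurd h.1 (by have := h'.2 d; rwa [anc_anc, ← add_assoc] at this)

theorem rk_of_sh {c c' : Sq} {k l : ℕ} (hs : Sh c c') (h : tile D (anc c k))
    (h' : tile D (anc c' l)) : Rk D 1 (anc c k) (anc c' l) := by
  by_cases he : anc c k = anc c' l
  · rw [he]; exact Rk.refl _ _
  · exact adj.rk ⟨he, h, h', hs.anc k l⟩

theorem LF.ev (h : LF D) (U : Sq) (σ : Bool × Bool) :
    ∀ᶠ m in atTop, ∀ a b, In m a b → onSide σ m a b → ¬ alive D (sub U m a b) := by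
  obtain ⟨m0, hm0⟩ := h U σ
  filter_upwards [eventually_ge_atTop m0] with m hm a b hin hon hal
  have h1 := hin.div (k := m - m0) (by omega)
  have h2 := hon.div (k := m - m0) (by omega)
  have h3 := hal.anc (m - m0)
  rw [anc_sub _ (by omega)] at h3
  rw [show m - (m - m0) = m0 by omega] at h1 h2 h3
  exact hm0 _ _ h1 h2 h3

theorem Down.ev (h : Down D) (U : Sq) (α β : Bool) :
    ∀ᶠ m in atTop, ¬ alive D (sub U m (cor α m) (cor β m)) := by
  obtain ⟨m0, hm0⟩ := h U α β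
  filter_upwards [eventually_ge_atTop m0] with m hm hal
  have h3 := hal (m - m0)
  rw [anc_sub _ (by omega), cor_div _ (by omega), cor_div _ (by omega),
    show m - (m - m0) = m0 by omega] at h3
  exact h3 hm0

theorem chain_conn (hT : Top D) (c : ℤ → Sq) (hc : ∀ x, Sh (c x) (c (x + 1))) (lo : ℤ) (d : ℕ)
    (hal : ∀ x, lo ≤ x → x ≤ lo + d → ¬ alive D (c x)) {k l : ℕ} (h : tile D (anc (c lo) k))
    (h' : tile D (anc (c (lo + d)) l)) : ∃ t, Rk D t (anc (c lo) k) (anc (c (lo + d)) l) := by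
  induction d generalizing l with
  | zero =>
    simp only [Nat.cast_zero, add_zero] at h' ⊢
    rw [tile_unique h h']
    exact ⟨0, rfl⟩
  | succ d ih =>
    obtain ⟨k', hk'⟩ := exists_tile hT (hal (lo + d) (by omega) (by push_cast; omega))
    obtain ⟨t, ht⟩ := ih (fun x h1 h2 => hal x h1 (by push_cast; omega)) hk'
    have e : lo + ((d + 1 : ℕ) : ℤ) = lo + d + 1 := by push_cast; ring
    rw [e] at h' ⊢
    exact ⟨t + 1, ht.trans (rk_of_sh (hc _) hk' h')⟩

theorem chain_conn' (hT : Top D) (c : ℤ → Sq) (hc : ∀ x, Sh (c x) (c (x + 1))) (x y : ℤ)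
    (hal : ∀ z, min x y ≤ z → z ≤ max x y → ¬ alive D (c z)) {k l : ℕ}
    (h : tile D (anc (c x) k)) (h' : tile D (anc (c y) l)) :
    ∃ t, Rk D t (anc (c x) k) (anc (c y) l) := by
  rcases le_total x y with hxy | hxy
  · obtain ⟨d, rfl⟩ := Int.le.dest hxy
    exact chain_conn hT c hc x d (fun z h1 h2 => hal z (by omega) (by omega)) h h'
  · obtain ⟨d, rfl⟩ := Int.le.dest hxy
    obtain ⟨t, ht⟩ := chain_conn hT c hc y d (fun z h1 h2 => hal z (by omega) (by omega)) h' h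
    exact ⟨t, ht.symm⟩

theorem div_mem {x u : ℤ} {m : ℕ} (h1 : min (u * 2 ^ m) 0 ≤ x) (h2 : x ≤ max (u * 2 ^ m) 0) :
    x / 2 ^ m ∈ Finset.Icc (-|u|) |u| := by
  have hp := p2pos m
  have h3 : -|u| * 2 ^ m ≤ x := by
    refine le_trans (le_min ?_ ?_) h1
    · exact mul_le_mul_of_nonneg_right (neg_abs_le u) hp.le
    · nlinarith [abs_nonneg u]
  have h4 : x ≤ |u| * 2 ^ m := by
    refine h2.trans (max_le ?_ ?_)
    · exact mul_le_mul_of_nonneg_right (le_abs_self u) hp.le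
    · nlinarith [abs_nonneg u]
  rw [Finset.mem_Icc]
  exact ⟨(Int.le_ediv_iff_mul_le hp).2 h3, Int.ediv_le_of_le_mul hp h4⟩

theorem conn (hT : Top D) (hL : LF D) {N : ℤ} (hN : tile D ⟨N, 0, 0⟩) {S : Sq} (hS : tile D S) :
    ∃ t, Rk D t ⟨N, 0, 0⟩ S := by
  have e1 : ∀ᶠ m in atTop, ∀ u ∈ Finset.Icc (-|S.i|) |S.i|, ∀ a b, In m a b →
      onSide (false, false) m a b → ¬ alive D (sub ⟨S.n, u, S.j⟩ m a b) :=
    (Finset.eventually_all _).2 fun u _ => hL.ev _ _
  have e2 : ∀ᶠ m in atTop, ∀ u ∈ Finset.Icc (-|S.j|) |S.j|, ∀ a b, In m a b →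
      onSide (true, false) m a b → ¬ alive D (sub ⟨S.n, 0, u⟩ m a b) :=
    (Finset.eventually_all _).2 fun u _ => hL.ev _ _
  obtain ⟨m, h1, h2, h3⟩ := (e1.and (e2.and (eventually_ge_atTop (N - S.n).toNat))).exists
  have hp := p2pos m
  have a1 : ∀ z, min (S.i * 2 ^ m) 0 ≤ z → z ≤ max (S.i * 2 ^ m) 0 →
      ¬ alive D ⟨S.n + m, z, S.j * 2 ^ m⟩ := fun z hz1 hz2 => by
    have := h1 _ (div_mem hz1 hz2) (z % 2 ^ m) 0
      ⟨Int.emod_nonneg _ hp.ne', Int.emod_lt_of_pos _ hp, le_rfl, hp⟩ (by simp [onSide, cor])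
    convert this using 2
    simp only [sub, add_zero]
    congr 1
    rw [mul_comm]; exact (Int.mul_ediv_add_emod _ _).symm
  have a2 : ∀ z, min (S.j * 2 ^ m) 0 ≤ z → z ≤ max (S.j * 2 ^ m) 0 →
      ¬ alive D ⟨S.n + m, 0, z⟩ := fun z hz1 hz2 => by
    have := h2 _ (div_mem hz1 hz2) 0 (z % 2 ^ m)
      ⟨le_rfl, hp, Int.emod_nonneg _ hp.ne', Int.emod_lt_of_pos _ hp⟩ (by simp [onSide, cor])
    convert this using 2
    simp only [sub, add_zero, zero_mul]
    congr 1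
    rw [mul_comm]; exact (Int.mul_ediv_add_emod _ _).symm
  obtain ⟨k, hk⟩ := exists_tile hT (a1 0 (min_le_right _ _) (le_max_right _ _))
  have hS' : anc ⟨S.n + m, S.i * 2 ^ m, S.j * 2 ^ m⟩ m = S := by
    have := anc_sub_self S (m := m) (a := 0) (b := 0) ⟨le_rfl, hp, le_rfl, hp⟩
    simpa [sub] using this
  obtain ⟨d, hd⟩ := Int.le.dest (show N ≤ S.n + m by omega)
  have hN' : anc ⟨S.n + m, 0, 0⟩ d = ⟨N, 0, 0⟩ := by
    apply Sq.ext' <;> simp [anc]; omega
  obtain ⟨t1, ht1⟩ := chain_conn' hT (fun z => ⟨S.n + m, z, S.j * 2 ^ m⟩)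
    (fun x => sh_horiz _ _ _) (S.i * 2 ^ m) 0 a1 (k := m) (l := k) (by rw [hS']; exact hS) hk
  obtain ⟨t2, ht2⟩ := chain_conn' hT (fun z => ⟨S.n + m, 0, z⟩)
    (fun x => sh_vert _ _ _) (S.j * 2 ^ m) 0 a2 (k := k) (l := d) hk (by rw [hN']; exact hN)
  simp only [hS', hN'] at ht1 ht2
  exact ⟨_, (ht1.trans ht2).symm⟩

end Det

end Pool.Agent.Lib.MP_d1f1b2_pr
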