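import Pool.Agent.Lib.MP_d1f1b2_pr.Cov
import Pool.Agent.Lib.MP_d1f1b2_pr.Gauss

open Set Filter MeasureTheory ProbabilityTheory Real
open scoped ENNReal Topology

namespace Pool.Agent.Lib.MP_d1f1b2_pr

variable {Ω : Type*} {mΩ : MeasurableSpace Ω} {P : Measure Ω}

theorem ee_nat_mul (x : ℝ) (n : ℕ) : ee (n * x) = ee x ^ n := by
  induction n with
  | zero => simp
  | succ n ih => rw [pow_succ, ← ih, ← ee_add]; push_cast; congr 1; ring

theorem ee_lt_one {x : ℝ} (h : x < 0) : ee x < 1 := by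
  rw [ee, ENNReal.ofReal_lt_one]; exact Real.exp_lt_one_iff.2 h

theorem tsum_ee {η : ℝ} (h : 0 < η) : ∑' j : ℕ, ee (-η * j) ≠ ∞ := by
  simp only [mul_comm (-η), ee_nat_mul, ENNReal.tsum_geometric]
  exact ENNReal.inv_ne_top.2 (tsub_pos_of_lt (ee_lt_one (by linarith))).ne'

theorem geo {η : ℝ} (h : 0 < η) :
    ∃ G : ℝ≥0∞, G ≠ ∞ ∧ ∀ m : ℕ, ∑ k ∈ Finset.range (m + 1), ee (-η * (m - k : ℕ)) ≤ G := by
  refine ⟨_, tsum_ee h, fun m => ?_⟩
  have := Finset.sum_flip (n := m) fun j => ee (-η * j)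
  rw [this]
  exact ENNReal.sum_le_tsum _

theorem two_mul_le (y : ℝ≥0∞) : 2 * y ≤ 1 + y ^ 2 := by
  by_cases hy : y = ∞
  · simp [hy]
  lift y to NNReal using hy
  norm_cast
  rw [← NNReal.coe_le_coe]; push_cast
  nlinarith [sq_nonneg ((y : ℝ) - 1)]

theorem pz {Y : Ω → ℝ≥0∞} (hY : Measurable Y) {N G : ℝ≥0∞} (hN0 : N ≠ 0) (hN : N ≠ ∞)
    (hG : G ≠ ∞) (h1 : N ≤ 2 * ∫⁻ ω, Y ω ∂P) (h2 : ∫⁻ ω, Y ω ^ 2 ∂P ≤ N ^ 2 * G) :
    (2 * G + 2)⁻¹ / 2 ≤ P {ω | Y ω ≠ 0} := by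
  set t := (2 * G + 2)⁻¹ with ht
  have hne : 2 * G + 2 ≠ ∞ := by finiteness
  have ht' : t ≠ ∞ := ENNReal.inv_ne_top.2 (by simp)
  have htG : t * G ≤ 2⁻¹ := by
    rw [ENNReal.le_inv_iff_mul_le, mul_assoc, mul_comm G]
    calc t * (2 * G) ≤ t * (2 * G + 2) := by gcongr; exact le_self_add
      _ = 1 := ENNReal.inv_mul_cancel (by simp) hne
  have hm : MeasurableSet {ω | Y ω ≠ 0} := (hY (measurableSet_singleton 0)).compl
  have key : ∫⁻ ω, 2 * (t * N⁻¹ * Y ω) ∂P ≤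
      ∫⁻ ω, indicator {ω | Y ω ≠ 0} 1 ω + (t * N⁻¹ * Y ω) ^ 2 ∂P := by
    refine lintegral_mono fun ω => ?_
    by_cases h : Y ω = 0
    · simp [h]
    · rw [indicator_of_mem (by exact h)]; exact two_mul_le _
  rw [lintegral_add_right _ (by fun_prop), lintegral_indicator_one hm, lintegral_const_mul _
    (by fun_prop), lintegral_const_mul _ hY] at key
  simp only [mul_pow] at key
  rw [lintegral_const_mul _ (by fun_prop)] at key
  have hNN : N⁻¹ * N = 1 := ENNReal.inv_mul_cancel hN0 hN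
  have a1 : t ≤ 2 * (t * N⁻¹ * ∫⁻ ω, Y ω ∂P) := by
    calc t = t * N⁻¹ * N := by rw [mul_assoc, hNN, mul_one]
      _ ≤ t * N⁻¹ * (2 * ∫⁻ ω, Y ω ∂P) := by gcongr
      _ = _ := by ring
  have a2 : t ^ 2 * N⁻¹ ^ 2 * ∫⁻ ω, Y ω ^ 2 ∂P ≤ t / 2 := by
    calc t ^ 2 * N⁻¹ ^ 2 * ∫⁻ ω, Y ω ^ 2 ∂P ≤ t ^ 2 * N⁻¹ ^ 2 * (N ^ 2 * G) := by gcongr
      _ = t * (t * G) * (N⁻¹ * N) ^ 2 := by ring
      _ ≤ t * 2⁻¹ * (N⁻¹ * N) ^ 2 := by gcongr
      _ = t / 2 := by rw [hNN, one_pow, mul_one, div_eq_mul_inv]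
  have a3 : t / 2 + t / 2 ≤ P {ω | Y ω ≠ 0} + t / 2 := by
    rw [ENNReal.add_halves]
    exact a1.trans (key.trans (by gcongr))
  exact ENNReal.le_of_add_le_add_right (ENNReal.div_ne_top ht' two_ne_zero) a3

def Good (X : ℕ × ℤ × ℤ → Ω → ℝ) (lo hi C : ℝ) (m : ℕ) (a b : ℤ) : Set Ω :=
  {ω | ∀ k ≤ m, lo * ((m - k : ℕ) * log 2) - C ≤ X (m - k, a / 2 ^ k, b / 2 ^ k) ω ∧
    X (m - k, a / 2 ^ k, b / 2 ^ k) ω ≤ hi * ((m - k : ℕ) * log 2) + C}

noncomputable def Zw (X : ℕ × ℤ × ℤ → Ω → ℝ) (q : ℝ) (p : ℕ × ℤ × ℤ) (ω : Ω) : ℝ≥0∞ :=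
  ee (q * X p ω - q ^ 2 * ci0 p p / 2)

variable {X : ℕ × ℤ × ℤ → Ω → ℝ}

theorem meas_Good (h : CG X P ci0) (lo hi C : ℝ) (m : ℕ) (a b : ℤ) :
    MeasurableSet (Good X lo hi C m a b) := by
  refine measurableSet_setOfPred.2 (Measurable.forall fun k => measurable_const.imp (Measurable.and
    ?_ ?_))
  · exact measurableSet_setOfPred.1 (measurableSet_le measurable_const (h.meas _))
  · exact measurableSet_setOfPred.1 (measurableSet_le (h.meas _) measurable_const)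

theorem meas_Zw (h : CG X P ci0) (q : ℝ) (p : ℕ × ℤ × ℤ) : Measurable (Zw X q p) := by
  have := h.meas
  unfold Zw; fun_prop

theorem var_bd {m : ℕ} {a b : ℤ} (h : In m a b) :
    ci0 (m, a, b) (m, a, b) ≤ m * log 2 + 4 * log 2 := by
  have := H1 h (Nat.zero_le m)
  simp only [Nat.sub_zero, pow_zero, Int.ediv_one] at this
  linarith [(abs_le.1 this).2]

theorem log2pos : 0 < log 2 := log_pos one_lt_two

theorem first_moment (h : CG X P ci0) {Q δ : ℝ} (hQ : 0 < Q) (hδ : 0 < δ) :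
    ∃ C, ∀ m a b, In m a b → 1 ≤ 2 * ∫⁻ ω, (Good X Q (Q + δ + δ) C m a b).indicator
      (Zw X (Q + δ) (m, a, b)) ω ∂P := by
  have hL := log2pos
  obtain ⟨G, hG, hGm⟩ := geo (η := δ ^ 2 * log 2 / 2) (by positivity)
  set q := Q + δ with hq
  set A := 4 * log 2 * (δ ^ 2 / 2 + q * δ) with hA
  have hC : ∃ C, 2 * ee (A - δ * C) * G ≤ 2⁻¹ := by
    have t1 : Tendsto (fun C : ℝ => ee (A - δ * C)) atTop (𝓝 0) := by
      have : Tendsto (fun C : ℝ => Real.exp (A - δ * C)) atTop (𝓝 0) :=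
        Real.tendsto_exp_atBot.comp (tendsto_atBot_add_const_left _ _
          (tendsto_neg_atTop_atBot.comp (tendsto_id.const_mul_atTop hδ)))
      simpa [ee] using ENNReal.tendsto_ofReal this
    have t2 := ENNReal.Tendsto.mul_const (b := G) (ENNReal.Tendsto.const_mul (a := 2) t1
      (Or.inr (by simp))) (Or.inr hG)
    simp only [mul_zero, zero_mul] at t2
    exact (t2.eventually (ge_mem_nhds (by simp))).exists
  obtain ⟨C, hC⟩ := hC
  refine ⟨C, fun m a b hin => ?_⟩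
  have hm := h.meas
  have e1 : ∫⁻ ω, Zw X q (m, a, b) ω ∂P = 1 := by
    have := h.mgf1' (m, a, b) q (-(q ^ 2 * ci0 (m, a, b) (m, a, b) / 2))
    simpa [Zw, sub_eq_add_neg] using this
  have e2 : ∀ ω, Zw X q (m, a, b) ω ≤ (Good X Q (q + δ) C m a b).indicator (Zw X q (m, a, b)) ω +
      ∑ k ∈ Finset.range (m + 1),
        (ee (q * X (m, a, b) ω + -δ * X (m - k, a / 2 ^ k, b / 2 ^ k) ω + 0 * X (m, a, b) ω +
          (-(q ^ 2 * ci0 (m, a, b) (m, a, b) / 2) + δ * (Q * ((m - k : ℕ) * log 2) - C))) +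
        ee (q * X (m, a, b) ω + δ * X (m - k, a / 2 ^ k, b / 2 ^ k) ω + 0 * X (m, a, b) ω +
          (-(q ^ 2 * ci0 (m, a, b) (m, a, b) / 2) -
            δ * ((q + δ) * ((m - k : ℕ) * log 2) + C)))) := fun ω => by
    by_cases hω : ω ∈ Good X Q (q + δ) C m a b
    · rw [indicator_of_mem hω]; exact le_self_add
    · simp only [Good, mem_ofPred_eq, not_forall, not_and_or, not_le] at hω
      obtain ⟨k, hk, hω⟩ := hω
      refine le_add_left (le_trans ?_ (Finset.single_le_sum (fun _ _ => zero_le)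
        (Finset.mem_range.2 (Nat.lt_succ_of_le hk))))
      rcases hω with hω | hω
      · exact le_add_right (ee_mono (by nlinarith))
      · exact le_add_left (ee_mono (by nlinarith))
  have e3 := lintegral_mono (μ := P) e2
  rw [e1, lintegral_add_left ((meas_Zw h _ _).indicator (meas_Good h _ _ _ _ _ _)),
    lintegral_finsetSum _ (fun k _ => by fun_prop)] at e3
  have e4 : ∀ k ∈ Finset.range (m + 1), ∫⁻ ω,
      (ee (q * X (m, a, b) ω + -δ * X (m - k, a / 2 ^ k, b / 2 ^ k) ω + 0 * X (m, a, b) ω +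
          (-(q ^ 2 * ci0 (m, a, b) (m, a, b) / 2) + δ * (Q * ((m - k : ℕ) * log 2) - C))) +
        ee (q * X (m, a, b) ω + δ * X (m - k, a / 2 ^ k, b / 2 ^ k) ω + 0 * X (m, a, b) ω +
          (-(q ^ 2 * ci0 (m, a, b) (m, a, b) / 2) -
            δ * ((q + δ) * ((m - k : ℕ) * log 2) + C)))) ∂P ≤
      2 * ee (A - δ * C) * ee (-(δ ^ 2 * log 2 / 2) * (m - k : ℕ)) := fun k hk => by
    have hk' : k ≤ m := Nat.le_of_lt_succ (Finset.mem_range.1 hk)
    rw [lintegral_add_left (by fun_prop), h.mgf3, h.mgf3, mul_assoc (2 : ℝ≥0∞), ← ee_add, two_mul]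
    have b1 := abs_le.1 (H1 hin hk')
    have b2 := var_bd (hin.div hk')
    have hqδ : 0 < q * δ := by positivity
    have c1 := mul_le_mul_of_nonneg_left b1.1 hqδ.le
    have c2 := mul_le_mul_of_nonneg_left b1.2 hqδ.le
    have c3 := mul_le_mul_of_nonneg_left b2 (sq_nonneg δ)
    refine add_le_add (ee_mono ?_) (ee_mono ?_)
    · rw [hA, hq] at *; nlinarith
    · rw [hA, hq] at *; nlinarith
  have e5 := (Finset.sum_le_sum e4).trans (show _ ≤ 2⁻¹ by
    rw [← Finset.mul_sum]; exact (mul_le_mul_right (hGm m) _).trans hC)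
  have e6 := e3.trans (add_le_add_right e5 _)
  have e7 : 2⁻¹ ≤ ∫⁻ ω, (Good X Q (q + δ) C m a b).indicator (Zw X q (m, a, b)) ω ∂P := by
    rw [← ENNReal.inv_two_add_inv_two] at e6
    exact ENNReal.le_of_add_le_add_right (by simp) e6
  calc (1 : ℝ≥0∞) = 2 * 2⁻¹ := (ENNReal.mul_inv_cancel (by simp) (by simp)).symm
    _ ≤ _ := by gcongr

theorem pair_moment (h : CG X P ci0) {lo q δ C : ℝ} (hq : 0 < q) {m : ℕ} {a b a' b' : ℤ}
    (hin : In m a b) (hin' : In m a' b') :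
    ∃ k ≤ m, (|a - a'| ≤ 2 ^ k ∧ |b - b'| ≤ 2 ^ k) ∧
      ∫⁻ ω, (Good X lo (q + δ) C m a b).indicator (Zw X q (m, a, b)) ω *
        (Good X lo (q + δ) C m a' b').indicator (Zw X q (m, a', b')) ω ∂P ≤
      ee ((q ^ 2 / 2 + q * δ) * ((m - k : ℕ) * log 2) + (15 * q ^ 2 * log 2 + q * C)) := by
  classical
  have hex : ∃ k, |a - a'| ≤ 2 ^ k ∧ |b - b'| ≤ 2 ^ k := ⟨m, by
    obtain ⟨_, _, _, _⟩ := hin
    obtain ⟨_, _, _, _⟩ := hin'
    constructor <;> rw [abs_le] <;> constructor <;> omega⟩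
  have hk : Nat.find hex ≤ m := Nat.find_min' hex (by
    obtain ⟨_, _, _, _⟩ := hin
    obtain ⟨_, _, _, _⟩ := hin'
    constructor <;> rw [abs_le] <;> constructor <;> omega)
  have hs := Nat.find_spec hex
  have hsep : Nat.find hex = 0 ∨ 2 ^ Nat.find hex ≤ 2 * |a - a'| ∨
      2 ^ Nat.find hex ≤ 2 * |b - b'| := by
    rcases hf : Nat.find hex with _ | k
    · exact Or.inl rfl
    · have := Nat.find_min hex (show k < Nat.find hex by omega)
      rw [not_and_or, not_le, not_le] at this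
      rw [pow_succ]
      omega
  set k := Nat.find hex
  refine ⟨k, hk, hs, ?_⟩
  have e2 : ∀ ω, (Good X lo (q + δ) C m a b).indicator (Zw X q (m, a, b)) ω *
        (Good X lo (q + δ) C m a' b').indicator (Zw X q (m, a', b')) ω ≤
      ee (q * X (m, a, b) ω + q * X (m, a', b') ω + -q * X (m - k, a / 2 ^ k, b / 2 ^ k) ω +
        (-(q ^ 2 * ci0 (m, a, b) (m, a, b) / 2) - q ^ 2 * ci0 (m, a', b') (m, a', b') / 2 +
          q * ((q + δ) * ((m - k : ℕ) * log 2) + C))) := fun ω => by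
    by_cases hω : ω ∈ Good X lo (q + δ) C m a b
    · rw [indicator_of_mem hω]
      refine (mul_le_mul_right (indicator_le_self _ _ ω) _).trans ?_
      rw [Zw, Zw, ← ee_add]
      have := mul_le_mul_of_nonneg_left (hω k hk).2 hq.le
      exact ee_mono (by linarith)
    · rw [indicator_of_notMem hω, zero_mul]; exact zero_le
  refine (lintegral_mono e2).trans ?_
  rw [h.mgf3]
  have b1 := (abs_le.1 (H1 hin hk)).1
  have b2 := var_bd (hin.div hk)
  have b3 := H2 hin hin' hk hsep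
  have b4 := H3 hin hin' hk hs.1 hs.2
  rw [h.symm] at b4
  have hq2 := sq_nonneg q
  have c1 := mul_le_mul_of_nonneg_left b1 hq2
  have c2 := mul_le_mul_of_nonneg_left b2 hq2
  have c3 := mul_le_mul_of_nonneg_left b3 hq2
  have c4 := mul_le_mul_of_nonneg_left b4 hq2
  exact ee_mono (by nlinarith)

noncomputable def box (m : ℕ) : Finset (ℤ × ℤ) := Finset.Ico 0 (2 ^ m) ×ˢ Finset.Ico 0 (2 ^ m)

theorem mem_box {m : ℕ} {p : ℤ × ℤ} : p ∈ box m ↔ In m p.1 p.2 := by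
  simp [box, In, and_assoc]

theorem ee_log2 : ee (log 2) = 2 := by simp [ee, Real.exp_log]

theorem card_box (m : ℕ) : ((box m).card : ℝ≥0∞) = ee (2 * (m * log 2)) := by
  have : (Finset.Ico (0 : ℤ) (2 ^ m)).card = 2 ^ m := by
    rw [Int.card_Ico, sub_zero]
    exact_mod_cast Int.toNat_natCast (2 ^ m)
  rw [box, Finset.card_product, this, two_mul, ee_add, ee_nat_mul, ee_log2]
  push_cast; rfl

theorem card_near (s : Finset (ℤ × ℤ)) (a b : ℤ) (k : ℕ) :
    ((s.filter fun p => |a - p.1| ≤ 2 ^ k ∧ |b - p.2| ≤ 2 ^ k).card : ℝ≥0∞) ≤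
      ee (2 * ((k + 2 : ℕ) * log 2)) := by
  have h1 : (s.filter fun p => |a - p.1| ≤ 2 ^ k ∧ |b - p.2| ≤ 2 ^ k) ⊆
      Finset.Ico (a - 2 ^ k) (a - 2 ^ k + 2 ^ (k + 2)) ×ˢ
        Finset.Ico (b - 2 ^ k) (b - 2 ^ k + 2 ^ (k + 2)) := by
    intro p hp
    have := p2pos k
    have e : (2 : ℤ) ^ (k + 2) = 4 * 2 ^ k := by ring
    simp only [Finset.mem_filter, abs_le, Finset.mem_product, Finset.mem_Ico] at hp ⊢
    omega
  have h2 : ∀ x : ℤ, (Finset.Ico x (x + 2 ^ (k + 2))).card = 2 ^ (k + 2) := fun x => by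
    rw [Int.card_Ico, add_sub_cancel_left]
    exact_mod_cast Int.toNat_natCast (2 ^ (k + 2))
  have h3 := Finset.card_le_card h1
  rw [Finset.card_product, h2, h2] at h3
  rw [two_mul, ee_add, ee_nat_mul, ee_log2]
  exact_mod_cast h3

def Lev (R : ℕ → ℤ → ℤ → Prop) (p : ℕ × ℤ × ℤ → Prop) (m : ℕ) : Prop :=
  ∃ a b, In m a b ∧ R m a b ∧ ∀ k ≤ m, p (m - k, a / 2 ^ k, b / 2 ^ k)

theorem meas_Lev {α : Type*} [MeasurableSpace α] (R : ℕ → ℤ → ℤ → Prop)
    {p : α → ℕ × ℤ × ℤ → Prop} (hp : ∀ i, Measurable fun x => p x i) (m : ℕ) :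
    Measurable fun x => Lev R (p x) m :=
  Measurable.exists fun _ => Measurable.exists fun _ => measurable_const.and
    (measurable_const.and (Measurable.forall fun _ => measurable_const.imp (hp _)))

theorem meas_Surv {α : Type*} [MeasurableSpace α] (R : ℕ → ℤ → ℤ → Prop)
    {p : α → ℕ × ℤ × ℤ → Prop} (hp : ∀ i, Measurable fun x => p x i) :
    Measurable fun x => Surv R (p x) :=
  Measurable.forall fun m => meas_Lev R hp m

theorem Lev.pred {R : ℕ → ℤ → ℤ → Prop} (hR : ∀ m a b, R (m + 1) a b → R m (a / 2 ^ 1) (b / 2 ^ 1))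
    {p : ℕ × ℤ × ℤ → Prop} {m : ℕ} (h : Lev R p (m + 1)) : Lev R p m := by
  obtain ⟨a, b, h1, h3, h2⟩ := h
  refine ⟨a / 2 ^ 1, b / 2 ^ 1, h1.div (k := 1) (by omega), hR _ _ _ h3, fun k hk => ?_⟩
  have := h2 (1 + k) (by omega)
  rwa [div_div, div_div, show m - k = m + 1 - (1 + k) by omega]

theorem second_moment_gen (h : CG X P ci0) {Q d : ℝ} (hQ : 0 < Q) (hQ2 : Q ^ 2 < 2 * d)
    (bx : ℕ → Finset (ℤ × ℤ)) (R : ℕ → ℤ → ℤ → Prop)
    (hR : ∀ m a b, R (m + 1) a b → R m (a / 2 ^ 1) (b / 2 ^ 1))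
    (hbx : ∀ m, ∀ p ∈ bx m, In m p.1 p.2 ∧ R m p.1 p.2)
    (hcard : ∀ m, ((bx m).card : ℝ≥0∞) = ee (d * (m * log 2)))
    (hnear : ∀ m a b k, (((bx m).filter fun p => |a - p.1| ≤ 2 ^ k ∧ |b - p.2| ≤ 2 ^ k).card :
      ℝ≥0∞) ≤ ee (d * ((k + 2 : ℕ) * log 2))) :
    ∃ C : ℝ, P {ω | Surv R fun p => Q * (p.1 * log 2) - C ≤ X p ω} ≠ 0 := by
  classical
  have := h.prob
  have hL := log2pos
  obtain ⟨δ, hδ0, hβ⟩ : ∃ δ > 0, 0 < d - ((Q + δ) ^ 2 / 2 + (Q + δ) * δ) := by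
    refine ⟨min 1 ((2 * d - Q ^ 2) / (4 * Q + 4)), lt_min one_pos (div_pos (by linarith)
      (by linarith)), ?_⟩
    have h1 := min_le_left 1 ((2 * d - Q ^ 2) / (4 * Q + 4))
    have h2 := (le_div_iff₀ (by linarith)).1 (min_le_right 1 ((2 * d - Q ^ 2) / (4 * Q + 4)))
    have h3 : 0 < min 1 ((2 * d - Q ^ 2) / (4 * Q + 4)) :=
      lt_min one_pos (div_pos (by linarith) (by linarith))
    nlinarith
  obtain ⟨C, hC⟩ := first_moment h hQ hδ0
  set q := Q + δ with hq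
  have hq0 : 0 < q := by positivity
  obtain ⟨G, hG, hGm⟩ := geo (η := (d - (q ^ 2 / 2 + q * δ)) * log 2) (by positivity)
  set B := 15 * q ^ 2 * log 2 + q * C with hB
  have hG' : ee (d * (2 * log 2) + B) * G ≠ ∞ := ENNReal.mul_ne_top (ee_ne_top _) hG
  have hmI : ∀ m (p : ℤ × ℤ), Measurable
      ((Good X Q (q + δ) C m p.1 p.2).indicator (Zw X q (m, p.1, p.2))) := fun m p =>
    (meas_Zw h _ _).indicator (meas_Good h _ _ _ _ _ _)
  have main : ∀ m, (2 * (ee (d * (2 * log 2) + B) * G) + 2)⁻¹ / 2 ≤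
      P {ω | Lev R (fun p => Q * (p.1 * log 2) - C ≤ X p ω) m} := fun m => by
    refine (pz (P := P) (Y := fun ω => ∑ p ∈ bx m,
      (Good X Q (q + δ) C m p.1 p.2).indicator (Zw X q (m, p.1, p.2)) ω)
      (Finset.measurable_sum _ fun p _ => hmI m p) (N := ee (d * (m * log 2)))
      (by simp [ee, Real.exp_pos]) (ee_ne_top _) hG' ?_ ?_).trans (measure_mono ?_)
    · rw [lintegral_finsetSum _ fun p _ => hmI m p, Finset.mul_sum, ← hcard,
        Finset.card_eq_sum_ones]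
      push_cast
      exact Finset.sum_le_sum fun p hp => hC m p.1 p.2 (hbx m p hp).1
    · simp only [pow_two, Finset.sum_mul_sum]
      rw [lintegral_finsetSum _ fun p _ =>
        Finset.measurable_sum _ fun p' _ => (hmI m p).fun_mul (hmI m p'), mul_assoc]
      nth_rewrite 1 [← hcard]
      rw [← nsmul_eq_mul, ← Finset.sum_const]
      refine Finset.sum_le_sum fun p hp => ?_
      rw [lintegral_finsetSum _ fun p' _ => (hmI m p).fun_mul (hmI m p')]
      calc _ ≤ ∑ p' ∈ bx m, ∑ k ∈ Finset.range (m + 1),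
            (if |p.1 - p'.1| ≤ 2 ^ k ∧ |p.2 - p'.2| ≤ 2 ^ k then
              ee ((q ^ 2 / 2 + q * δ) * ((m - k : ℕ) * log 2) + B) else 0) := by
            refine Finset.sum_le_sum fun p' hp' => ?_
            obtain ⟨k, hk, h1, h2⟩ := pair_moment h (lo := Q) (δ := δ) (C := C) hq0
              (hbx m p hp).1 (hbx m p' hp').1
            refine h2.trans (le_trans ?_ (Finset.single_le_sum (fun _ _ => zero_le)
              (Finset.mem_range.2 (Nat.lt_succ_of_le hk))))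
            rw [if_pos h1]
        _ ≤ ∑ k ∈ Finset.range (m + 1), ee (d * (m * log 2)) * (ee (d * (2 * log 2) + B) *
              ee (-((d - (q ^ 2 / 2 + q * δ)) * log 2) * (m - k : ℕ))) := by
            rw [Finset.sum_comm]
            refine Finset.sum_le_sum fun k hk => ?_
            have hk' : k ≤ m := Nat.le_of_lt_succ (Finset.mem_range.1 hk)
            rw [← Finset.sum_filter, Finset.sum_const, nsmul_eq_mul]
            refine (mul_le_mul_left (hnear _ _ _ _) _).trans ?_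
            rw [← ee_add, ← ee_add, ← ee_add]
            refine ee_mono (le_of_eq ?_)
            push_cast [Nat.cast_sub hk']
            ring
        _ ≤ _ := by
            rw [← Finset.mul_sum, ← Finset.mul_sum]
            gcongr
            exact hGm m
    · intro ω hω
      obtain ⟨p, hp, hp'⟩ := Finset.exists_ne_zero_of_sum_ne_zero hω
      have := mem_of_indicator_ne_zero hp'
      exact ⟨p.1, p.2, (hbx m p hp).1, (hbx m p hp).2, fun k hk => (this k hk).1⟩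
  refine ⟨C, ?_⟩
  have hmeas : ∀ m, MeasurableSet
      {ω | Lev R (fun p => Q * (p.1 * log 2) - C ≤ X p ω) m} := fun m =>
    measurableSet_setOfPred.2 (meas_Lev _ (fun i =>
      measurableSet_setOfPred.1 (measurableSet_le measurable_const (h.meas _))) m)
  have ht := tendsto_measure_iInter_atTop (μ := P) (fun m => (hmeas m).nullMeasurableSet)
    (antitone_nat_of_succ_le fun m ω hω =>
      Lev.pred hR (p := fun p => Q * (p.1 * log 2) - C ≤ X p ω) hω) ⟨0, measure_ne_top _ _⟩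
  have hle := ge_of_tendsto' ht main
  have e : {ω | Surv R fun p => Q * (p.1 * log 2) - C ≤ X p ω} =
      ⋂ m, {ω | Lev R (fun p => Q * (p.1 * log 2) - C ≤ X p ω) m} := by
    ext ω; simp only [mem_iInter]; rfl
  rw [e]
  refine (lt_of_lt_of_le ?_ hle).ne'
  exact ENNReal.div_pos (ENNReal.inv_ne_zero.2 (by finiteness)) (by simp)

theorem second_moment (h : CG X P ci0) {Q : ℝ} (hQ : 0 < Q) (hQ2 : Q < 2) :
    ∃ C : ℝ, P {ω | Surv (fun _ _ _ => True) fun p => Q * (p.1 * log 2) - C ≤ X p ω} ≠ 0 :=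
  second_moment_gen h (d := 2) hQ (by nlinarith) box _ (fun _ _ _ _ => trivial)
    (fun _ _ hp => ⟨mem_box.1 hp, trivial⟩) card_box fun _ _ _ _ => card_near _ _ _ _

theorem second_moment_line (h : CG X P ci0) {Q : ℝ} (hQ : 0 < Q) (hQ2 : Q ^ 2 < 2) :
    ∃ C : ℝ, P {ω | Surv (onSide (false, false)) fun p => Q * (p.1 * log 2) - C ≤ X p ω} ≠ 0 := by
  have hc : ∀ (x : ℤ) (k : ℕ), (Finset.Ico x (x + 2 ^ k) ×ˢ ({0} : Finset ℤ)).card = 2 ^ k :=
    fun x k => by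
      rw [Finset.card_product, Int.card_Ico, add_sub_cancel_left, Finset.card_singleton, mul_one]
      exact_mod_cast Int.toNat_natCast (2 ^ k)
  refine second_moment_gen h (d := 1) hQ (by linarith)
    (fun m => Finset.Ico 0 (0 + 2 ^ m) ×ˢ {0}) _
    (fun m a b h => h.div (k := 1) (by omega)) (fun m p hp => ?_) (fun m => ?_) fun m a b k => ?_
  · simp only [zero_add, Finset.mem_product, Finset.mem_Ico, Finset.mem_singleton] at hp
    exact ⟨⟨hp.1.1, hp.1.2, hp.2.ge, hp.2 ▸ p2pos m⟩, by simpa [onSide, cor] using hp.2⟩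
  · rw [hc, one_mul, ee_nat_mul, ee_log2]; push_cast; rfl
  · have h1 : ((Finset.Ico 0 (0 + 2 ^ m) ×ˢ ({0} : Finset ℤ)).filter
        fun p => |a - p.1| ≤ 2 ^ k ∧ |b - p.2| ≤ 2 ^ k) ⊆
        Finset.Ico (a - 2 ^ k) (a - 2 ^ k + 2 ^ (k + 2)) ×ˢ {0} := by
      intro p hp
      have := p2pos k
      have e : (2 : ℤ) ^ (k + 2) = 4 * 2 ^ k := by ring
      simp only [Finset.mem_filter, abs_le, Finset.mem_product, Finset.mem_Ico,
        Finset.mem_singleton] at hp ⊢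
      omega
    have h3 := Finset.card_le_card h1
    rw [hc] at h3
    rw [one_mul, ee_nat_mul, ee_log2]
    exact_mod_cast h3

end Pool.Agent.Lib.MP_d1f1b2_pr
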